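import Pool.Agent.Q224.UC.Defs

/-!
# The up-color domination weight: reformulations
-/

set_option autoImplicit false

namespace Q224.UC

open Pool.Agent.NPC Q224.PL Finset

/-- Feasibility of weight `k` for the relation `A` on the finite set `S`. -/
def FeasOn {α : Type} (S : Finset α) (A : α → α → Prop) (k : ℕ) : Prop :=
  ∃ (c : α → ℕ) (D : α → Bool), (∀ u ∈ S, ∀ v ∈ S, A u v → c u ≠ c v) ∧
    (∀ v ∈ S, D v = true → c v ≠ 0) ∧
    (∀ v ∈ S, D v = false → ∃ u ∈ S, A v u ∧ D u = true ∧ c v < c u) ∧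
    ∑ v ∈ S, (if D v = true then c v else 0) ≤ k

theorem omega_le_iff {V : Type} [Fintype V] (G : SimpleGraph V) (k : ℕ) :
    OmegaUC G ≤ k ↔ FeasOn Finset.univ G.Adj k := by
  classical
  unfold OmegaUC FeasOn
  constructor
  · intro h
    have hne : {w | ∃ (c : V → ℕ) (D : Finset V), IsColoring G c ∧ UpDom G c D ∧
        w = ∑ d ∈ D, c d}.Nonempty := by
      refine ⟨_, fun v => (Fintype.equivFin V v : ℕ) + 1, Finset.univ, ?_, ⟨?_, ?_⟩, rfl⟩
      · intro u v huv he
        have : (Fintype.equivFin V u : ℕ) = Fintype.equivFin V v := by simpa using he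
        exact huv.ne ((Fintype.equivFin V).injective (Fin.ext this))
      · intro d _; simp
      · intro v hv; simp at hv
    obtain ⟨c, D, h1, h2, h3⟩ := Nat.sInf_mem hne
    refine ⟨c, fun v => decide (v ∈ D), fun u _ v _ => h1 u v, ?_, ?_, ?_⟩
    · intro v _ hv
      exact h2.ne_zero v (of_decide_eq_true hv)
    · intro v _ hv
      obtain ⟨d, hd, h4, h5⟩ := h2.dom v (of_decide_eq_false hv)
      exact ⟨d, Finset.mem_univ _, h4, decide_eq_true hd, h5⟩
    · rw [h3] at h
      simpa [Finset.sum_ite_mem] using h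
  · rintro ⟨c, D, h1, h2, h3, h4⟩
    refine le_trans (Nat.sInf_le ⟨c, Finset.univ.filter (fun v => D v = true), ?_, ⟨?_, ?_⟩, rfl⟩) ?_
    · exact fun u v => h1 u (Finset.mem_univ _) v (Finset.mem_univ _)
    · intro d hd
      exact h2 d (Finset.mem_univ _) (Finset.mem_filter.1 hd).2
    · intro v hv
      have hv' : D v = false := by
        simpa using hv
      obtain ⟨u, _, h5, h6, h7⟩ := h3 v (Finset.mem_univ _) hv'
      exact ⟨u, Finset.mem_filter.2 ⟨Finset.mem_univ _, h6⟩, h5, h7⟩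
    · rw [Finset.sum_filter]
      exact h4

theorem FeasOn.congr {α : Type} {S : Finset α} {A B : α → α → Prop} {k : ℕ}
    (h : ∀ u ∈ S, ∀ v ∈ S, (A u v ↔ B u v)) (hf : FeasOn S A k) : FeasOn S B k := by
  obtain ⟨c, D, h1, h2, h3, h4⟩ := hf
  refine ⟨c, D, fun u hu v hv hb => h1 u hu v hv ((h u hu v hv).2 hb), h2, fun v hv hd => ?_, h4⟩
  obtain ⟨u, hu, h5, h6⟩ := h3 v hv hd
  exact ⟨u, hu, (h v hv u hu).1 h5, h6⟩

/-- Transport along an injective map. -/
theorem feasOn_image {α β : Type} [DecidableEq β] {S : Finset α} {A : α → α → Prop}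
    {B : β → β → Prop} {k : ℕ} {f : α → β} (hf : Set.InjOn f S)
    (h : ∀ u ∈ S, ∀ v ∈ S, (A u v ↔ B (f u) (f v))) :
    FeasOn S A k ↔ FeasOn (S.image f) B k := by
  classical
  constructor
  · rintro ⟨c, D, h1, h2, h3, h4⟩
    rcases S.eq_empty_or_nonempty with rfl | ⟨a0, ha0⟩
    · exact ⟨fun _ => 0, fun _ => true, by simp, by simp, by simp, by simp⟩
    let g : β → α := fun b => if hb : ∃ a ∈ S, f a = b then hb.choose else a0
    have hg : ∀ a ∈ S, g (f a) = a := by
      intro a ha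
      have hb : ∃ a' ∈ S, f a' = f a := ⟨a, ha, rfl⟩
      simp only [g, dif_pos hb]
      exact hf hb.choose_spec.1 ha hb.choose_spec.2
    refine ⟨fun b => c (g b), fun b => D (g b), ?_, ?_, ?_, ?_⟩
    · intro u hu v hv hb
      obtain ⟨u', hu', rfl⟩ := Finset.mem_image.1 hu
      obtain ⟨v', hv', rfl⟩ := Finset.mem_image.1 hv
      simp only [hg u' hu', hg v' hv']
      exact h1 u' hu' v' hv' ((h u' hu' v' hv').2 hb)
    · intro v hv
      obtain ⟨v', hv', rfl⟩ := Finset.mem_image.1 hv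
      simp only [hg v' hv']
      exact h2 v' hv'
    · intro v hv hd
      obtain ⟨v', hv', rfl⟩ := Finset.mem_image.1 hv
      simp only [hg v' hv'] at hd ⊢
      obtain ⟨u, hu, h5, h6, h7⟩ := h3 v' hv' hd
      exact ⟨f u, Finset.mem_image_of_mem _ hu, (h v' hv' u hu).1 h5, by rw [hg u hu]; exact h6,
        by rw [hg u hu]; exact h7⟩
    · rw [Finset.sum_image hf]
      refine le_trans (le_of_eq (Finset.sum_congr rfl fun v hv => ?_)) h4
      simp only [hg v hv]
  · rintro ⟨c, D, h1, h2, h3, h4⟩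
    refine ⟨fun a => c (f a), fun a => D (f a), ?_, ?_, ?_, ?_⟩
    · intro u hu v hv ha
      exact h1 _ (Finset.mem_image_of_mem _ hu) _ (Finset.mem_image_of_mem _ hv)
        ((h u hu v hv).1 ha)
    · intro v hv
      exact h2 _ (Finset.mem_image_of_mem _ hv)
    · intro v hv hd
      obtain ⟨u, hu, h5, h6, h7⟩ := h3 _ (Finset.mem_image_of_mem _ hv) hd
      obtain ⟨u', hu', rfl⟩ := Finset.mem_image.1 hu
      exact ⟨u', hu', (h v hv u' hu').2 h5, h6, h7⟩
    · rw [Finset.sum_image hf] at h4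
      exact h4

/-- The weight of a coded graph. -/
theorem omega_cG_iff (x : List ℕ × List (ℕ × ℕ)) (k : ℕ) :
    OmegaUC (cG x) ≤ k ↔ FeasOn x.1.toFinset (fun u v => adj x.2 u v = true) k := by
  classical
  have : Fintype {v : ℕ // v ∈ x.1} := Fintype.subtype x.1.toFinset (by simp)
  rw [omega_le_iff]
  have himg : (Finset.univ : Finset {v : ℕ // v ∈ x.1}).image (fun v => v.1) = x.1.toFinset := by
    ext v
    simp
  rw [← himg]
  exact feasOn_image (Subtype.val_injective.injOn) (fun u _ v _ => cG_adj x u v)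

/-! ### structured vertices -/

/-- Structured names of vertices. -/
abbrev W := ℕ × ℕ × ℕ

/-- The number of a structured vertex. -/
def nm (w : W) : ℕ := Nat.pair w.1 (Nat.pair w.2.1 w.2.2)

/-- The structured vertex with a number. -/
def un (v : ℕ) : W := ((Nat.unpair v).1, (Nat.unpair (Nat.unpair v).2).1,
  (Nat.unpair (Nat.unpair v).2).2)

@[simp] theorem un_nm (w : W) : un (nm w) = w := by
  obtain ⟨a, b, c⟩ := w
  simp [un, nm]

theorem nm_inj : Function.Injective nm := fun a b h => by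
  rw [← un_nm a, h, un_nm]

/-- The coded graph with the structured vertices `Vs` and the edges given by `R`. -/
def code (Vs : List W) (R : W → W → Bool) : List ℕ × List (ℕ × ℕ) :=
  (Vs.map nm, Vs.flatMap (fun u => (Vs.filter (fun v => R u v)).map (fun v => (nm u, nm v))))

theorem mem_code {Vs : List W} {R : W → W → Bool} {u v : W} :
    (nm u, nm v) ∈ (code Vs R).2 ↔ u ∈ Vs ∧ v ∈ Vs ∧ R u v = true := by
  simp only [code, List.mem_flatMap, List.mem_map, List.mem_filter, Prod.mk.injEq]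
  constructor
  · rintro ⟨u', hu, v', ⟨hv, hR⟩, e1, e2⟩
    rw [← nm_inj e1, ← nm_inj e2]
    exact ⟨hu, hv, hR⟩
  · rintro ⟨hu, hv, hR⟩
    exact ⟨u, hu, v, ⟨hv, hR⟩, rfl, rfl⟩

theorem adj_code {Vs : List W} {R : W → W → Bool} {u v : W} (hu : u ∈ Vs) (hv : v ∈ Vs) :
    adj (code Vs R).2 (nm u) (nm v) = true ↔ u ≠ v ∧ (R u v = true ∨ R v u = true) := by
  unfold adj
  rw [Bool.and_eq_true, Bool.not_eq_true', decide_eq_false_iff_not, Bool.or_eq_true,
    decide_eq_true_eq, decide_eq_true_eq, mem_code, mem_code, nm_inj.eq_iff]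
  simp [hu, hv]

theorem omega_code_iff {Vs : List W} {R : W → W → Bool} {k : ℕ} :
    OmegaUC (cG (code Vs R)) ≤ k ↔
      FeasOn Vs.toFinset (fun u v => u ≠ v ∧ (R u v = true ∨ R v u = true)) k := by
  classical
  rw [omega_cG_iff]
  have himg : (code Vs R).1.toFinset = Vs.toFinset.image nm := by
    ext v
    simp [code]
  rw [himg]
  exact (feasOn_image nm_inj.injOn fun u hu v hv =>
    (adj_code (List.mem_toFinset.1 hu) (List.mem_toFinset.1 hv)).symm).symm

end Q224.UC
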