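import Pool.Agent.Q224.UC.NP
import Pool.Agent.NPC.Sat2

/-!
# The reduction from 3SAT to bipartite graphs
-/

set_option autoImplicit false

namespace Pool.Agent.NPC.Q224UC

open _root_.Q224.UC _root_.Q224.PL Pool.Agent.NPC.Q224PL

/-- Clauses. -/
abbrev Cl3 := Lit ℕ × Lit ℕ × Lit ℕ

/-- The number of a truth value. -/
def bt (b : Bool) : ℕ := if b = true then 1 else 0

/-- Being (the variable and the number of the sign of) a literal of the clause. -/
def isLit (c : Cl3) (x b : ℕ) : Bool :=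
  (decide (x = c.1.2) && decide (b = bt c.1.1)) ||
  (decide (x = c.2.1.2) && decide (b = bt c.2.1.1)) ||
  (decide (x = c.2.2.2) && decide (b = bt c.2.2.1))

/-- The same for the clause number `i`. -/
def litIn (φ : List Cl3) (i x b : ℕ) : Bool := (φ[i]?).any (fun c => isLit c x b)

/-- The vertices. -/
def vB (φ : List Cl3) : List W :=
  (0, 0, 0) :: ((List.range (3 * φ.length + 3)).map (fun a => ((1, a, 0) : W)) ++
  ((List.range (3 * φ.length)).flatMap (fun x => [((2, x, 0) : W), (2, x, 1)]) ++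
  ((List.range (3 * φ.length)).flatMap (fun x =>
    (List.range (3 * φ.length + 3)).map (fun a => ((3, x, a) : W))) ++
  (List.range φ.length).flatMap (fun i =>
    (List.range (3 * φ.length + 3)).map (fun a => ((4, i, a) : W))))))

theorem mem_vB {φ : List Cl3} {w : W} : w ∈ vB φ ↔
    w = (0, 0, 0) ∨ (∃ a, a < 3 * φ.length + 3 ∧ w = (1, a, 0)) ∨
    (∃ x b, x < 3 * φ.length ∧ b < 2 ∧ w = (2, x, b)) ∨
    (∃ x a, x < 3 * φ.length ∧ a < 3 * φ.length + 3 ∧ w = (3, x, a)) ∨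
    (∃ i a, i < φ.length ∧ a < 3 * φ.length + 3 ∧ w = (4, i, a)) := by
  unfold vB
  simp only [List.mem_cons, List.mem_append, List.mem_map, List.mem_flatMap, List.mem_range,
    List.not_mem_nil, or_false]
  constructor
  · rintro (rfl | ⟨a, ha, rfl⟩ | ⟨x, hx, rfl | rfl⟩ | ⟨x, hx, a, ha, rfl⟩ | ⟨i, hi, a, ha, rfl⟩)
    · exact Or.inl rfl
    · exact Or.inr (Or.inl ⟨a, ha, rfl⟩)
    · exact Or.inr (Or.inr (Or.inl ⟨x, 0, hx, by omega, rfl⟩))
    · exact Or.inr (Or.inr (Or.inl ⟨x, 1, hx, by omega, rfl⟩))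
    · exact Or.inr (Or.inr (Or.inr (Or.inl ⟨x, a, hx, ha, rfl⟩)))
    · exact Or.inr (Or.inr (Or.inr (Or.inr ⟨i, a, hi, ha, rfl⟩)))
  · rintro (rfl | ⟨a, ha, rfl⟩ | ⟨x, b, hx, hb, rfl⟩ | ⟨x, a, hx, ha, rfl⟩ | ⟨i, a, hi, ha, rfl⟩)
    · exact Or.inl rfl
    · exact Or.inr (Or.inl ⟨a, ha, rfl⟩)
    · refine Or.inr (Or.inr (Or.inl ⟨x, hx, ?_⟩))
      have : b = 0 ∨ b = 1 := by omega
      rcases this with rfl | rfl <;> simp
    · exact Or.inr (Or.inr (Or.inr (Or.inl ⟨x, hx, a, ha, rfl⟩)))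
    · exact Or.inr (Or.inr (Or.inr (Or.inr ⟨i, hi, a, ha, rfl⟩)))

/-- The edges. -/
def rB (φ : List Cl3) (u v : W) : Bool :=
  (decide (u.1 = 0) && (decide (v.1 = 1) || decide (v.1 = 2))) ||
  (decide (u.1 = 3) && (decide (v.1 = 2) && decide (v.2.1 = u.2.1))) ||
  (decide (u.1 = 4) && (decide (v.1 = 2) && litIn φ u.2.1 v.2.1 v.2.2))

/-- Adjacency. -/
def aB (φ : List Cl3) (u v : W) : Prop := u ≠ v ∧ (rB φ u v = true ∨ rB φ v u = true)

theorem rB_iff {φ : List Cl3} {u v : W} : rB φ u v = true ↔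
    (u.1 = 0 ∧ (v.1 = 1 ∨ v.1 = 2)) ∨ (u.1 = 3 ∧ v.1 = 2 ∧ v.2.1 = u.2.1) ∨
      (u.1 = 4 ∧ v.1 = 2 ∧ litIn φ u.2.1 v.2.1 v.2.2 = true) := by
  simp only [rB, Bool.or_eq_true, Bool.and_eq_true, decide_eq_true_eq, or_assoc]

/-- The whole instance. -/
def redB (φ : List Cl3) : (List ℕ × List (ℕ × ℕ)) × ℕ := (code (vB φ) (rB φ), 3 * φ.length + 2)

theorem bip_redB (φ : List Cl3) : (cG (redB φ).1).IsBipartite := by
  refine (bip_iff _).2 ⟨fun v => decide ((un v).1 = 1) || decide ((un v).1 = 2), ?_⟩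
  intro u hu v hv ha
  obtain ⟨u', hu', rfl⟩ := List.mem_map.1 (show u ∈ (vB φ).map nm from hu)
  obtain ⟨v', hv', rfl⟩ := List.mem_map.1 (show v ∈ (vB φ).map nm from hv)
  have ha' : adj (code (vB φ) (rB φ)).2 (nm u') (nm v') = true := ha
  have h := ((adj_code (R := rB φ) hu' hv').1 ha').2
  rw [rB_iff, rB_iff] at h
  have h2 : ∀ a b : ℕ, ((a = 1 ∨ a = 2) ↔ ¬ (b = 1 ∨ b = 2)) →
      (decide (a = 1) || decide (a = 2)) ≠ (decide (b = 1) || decide (b = 2)) := by
    intro a b hab he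
    rw [Bool.eq_iff_iff, Bool.or_eq_true, Bool.or_eq_true, decide_eq_true_eq, decide_eq_true_eq,
      decide_eq_true_eq, decide_eq_true_eq] at he
    by_cases h3 : (a = 1 ∨ a = 2)
    · exact hab.1 h3 (he.1 h3)
    · exact h3 (hab.2 (fun h4 => h3 (he.2 h4)))
  have h3 := h2 u'.1 v'.1 (by omega)
  simpa only [un_nm] using h3

theorem litIn_iff {φ : List Cl3} {i x b : ℕ} : litIn φ i x b = true ↔
    ∃ c, φ[i]? = some c ∧ isLit c x b = true := by
  unfold litIn
  rw [Option.any_eq_true]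

theorem bt_inj {a b : Bool} (h : bt a = bt b) : a = b := by
  cases a <;> cases b <;> simp [bt] at h ⊢

theorem redB_complete {φ : List Cl3} (hb : Bounded3 φ) (h : SAT3 φ) :
    FeasOn (vB φ).toFinset (aB φ) (3 * φ.length + 2) := by
  obtain ⟨τ, hτ⟩ := h
  have memY : ∀ x, x < 3 * φ.length → ((2, x, bt (τ x)) : W) ∈ (vB φ).toFinset := by
    intro x hx
    rw [List.mem_toFinset, mem_vB]
    exact Or.inr (Or.inr (Or.inl ⟨x, _, hx, by unfold bt; split_ifs <;> omega, rfl⟩))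
  refine ⟨fun w => if w.1 = 0 then 2 else if w.1 = 2 then 1 else 0,
    fun w => decide (w.1 = 0) || (decide (w.1 = 2) && decide (w.2.2 = bt (τ w.2.1))), ?_, ?_, ?_, ?_⟩
  · rintro u hu v hv ⟨-, h⟩
    rw [rB_iff, rB_iff] at h
    rcases h with h | h
    · rcases h with ⟨h1, h2 | h2⟩ | ⟨h1, h2, _⟩ | ⟨h1, h2, _⟩ <;> simp [h1, h2]
    · rcases h with ⟨h1, h2 | h2⟩ | ⟨h1, h2, _⟩ | ⟨h1, h2, _⟩ <;> simp [h1, h2]
  · intro v hv hd
    simp only [Bool.or_eq_true, Bool.and_eq_true, decide_eq_true_eq] at hd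
    rcases hd with hd | ⟨hd, _⟩ <;> simp [hd]
  · intro v hv hd
    rw [List.mem_toFinset, mem_vB] at hv
    have hroot : ((0, 0, 0) : W) ∈ (vB φ).toFinset := by
      rw [List.mem_toFinset, mem_vB]; exact Or.inl rfl
    rcases hv with rfl | ⟨a, ha, rfl⟩ | ⟨x, b, hx, hb', rfl⟩ | ⟨x, a, hx, ha, rfl⟩ |
      ⟨i, a, hi, ha, rfl⟩
    · simp at hd
    · exact ⟨(0, 0, 0), hroot, ⟨by simp, Or.inr (rB_iff.2 (Or.inl ⟨rfl, Or.inl rfl⟩))⟩, by simp,
        by simp⟩
    · exact ⟨(0, 0, 0), hroot, ⟨by simp, Or.inr (rB_iff.2 (Or.inl ⟨rfl, Or.inr rfl⟩))⟩, by simp,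
        by simp⟩
    · exact ⟨(2, x, bt (τ x)), memY x hx, ⟨by simp, Or.inl (rB_iff.2 (Or.inr (Or.inl
        ⟨rfl, rfl, rfl⟩)))⟩, by simp, by simp⟩
    · have hc : φ[i]? = some φ[i] := List.getElem?_eq_getElem hi
      have hmem : φ[i] ∈ φ := List.getElem_mem hi
      have key : ∃ x, x < 3 * φ.length ∧ isLit φ[i] x (bt (τ x)) = true := by
        obtain ⟨b1, b2, b3⟩ := hb _ hmem
        rcases hτ _ hmem with h1 | h1 | h1
        · exact ⟨_, b1, by rw [h1]; simp [isLit]⟩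
        · exact ⟨_, b2, by rw [h1]; simp [isLit]⟩
        · exact ⟨_, b3, by rw [h1]; simp [isLit]⟩
      obtain ⟨x, hx, hl⟩ := key
      exact ⟨(2, x, bt (τ x)), memY x hx, ⟨by simp, Or.inl (rB_iff.2 (Or.inr (Or.inr
        ⟨rfl, rfl, litIn_iff.2 ⟨_, hc, hl⟩⟩)))⟩, by simp, by simp⟩
  · rw [← Finset.sum_filter]
    have hsub : (vB φ).toFinset.filter (fun w => (decide (w.1 = 0) || (decide (w.1 = 2) &&
        decide (w.2.2 = bt (τ w.2.1)))) = true) ⊆
        insert ((0, 0, 0) : W) ((Finset.range (3 * φ.length)).image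
          (fun x => ((2, x, bt (τ x)) : W))) := by
      intro w hw
      rw [Finset.mem_filter, List.mem_toFinset, mem_vB] at hw
      obtain ⟨hw, hd⟩ := hw
      simp only [Bool.or_eq_true, Bool.and_eq_true, decide_eq_true_eq] at hd
      rw [Finset.mem_insert, Finset.mem_image]
      rcases hw with rfl | ⟨a, ha, rfl⟩ | ⟨x, b, hx, hb', rfl⟩ | ⟨x, a, hx, ha, rfl⟩ |
        ⟨i, a, hi, ha, rfl⟩
      · exact Or.inl rfl
      · simp at hd
      · right
        refine ⟨x, Finset.mem_range.2 hx, ?_⟩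
        simp only [Prod.mk.injEq, true_and]
        simp at hd
        exact hd.symm
      · simp at hd
      · simp at hd
    refine (Finset.sum_le_sum_of_subset hsub).trans ?_
    rw [Finset.sum_insert (by simp), Finset.sum_image (by
      intro x _ y _ hxy
      simpa using (Prod.mk.inj (Prod.mk.inj hxy).2).1)]
    simp
    omega

theorem redB_sound {φ : List Cl3} (hne : φ ≠ [])
    (h : FeasOn (vB φ).toFinset (aB φ) (3 * φ.length + 2)) : SAT3 φ := by
  obtain ⟨c, D, h1, h2, h3, h4⟩ := h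
  have hm : 1 ≤ φ.length := List.length_pos_iff.2 hne
  set N := 3 * φ.length with hN
  set S := (vB φ).toFinset with hS
  have hmem : ∀ w, w ∈ S ↔ w ∈ vB φ := fun w => by rw [hS, List.mem_toFinset]
  -- sums over subsets of the dominating set
  have hsum : ∀ T : Finset W, T ⊆ S → (∀ w ∈ T, D w = true) → ∑ w ∈ T, c w ≤ N + 2 := by
    intro T hT hD
    refine le_trans ?_ h4
    calc ∑ w ∈ T, c w = ∑ w ∈ T, (if D w = true then c w else 0) :=
          Finset.sum_congr rfl fun w hw => by rw [if_pos (hD w hw)]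
      _ ≤ _ := Finset.sum_le_sum_of_subset hT
  have hcard : ∀ T : Finset W, T ⊆ S → (∀ w ∈ T, D w = true) → T.card ≤ N + 2 := by
    intro T hT hD
    refine le_trans ?_ (hsum T hT hD)
    rw [Finset.card_eq_sum_ones]
    exact Finset.sum_le_sum fun w hw => Nat.one_le_iff_ne_zero.2 (h2 w (hT hw) (hD w hw))
  have hpig : ∀ f : ℕ → W, Function.Injective f → (∀ a < N + 3, f a ∈ S) →
      ∃ a < N + 3, D (f a) = false := by
    intro f hf hfS
    by_contra hc
    push Not at hc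
    have := hcard ((Finset.range (N + 3)).image f)
      (fun w hw => by
        obtain ⟨a, ha, rfl⟩ := Finset.mem_image.1 hw
        exact hfS a (Finset.mem_range.1 ha))
      (fun w hw => by
        obtain ⟨a, ha, rfl⟩ := Finset.mem_image.1 hw
        simpa using hc a (Finset.mem_range.1 ha))
    rw [Finset.card_image_of_injective _ hf, Finset.card_range] at this
    omega
  -- the root
  have hroot : D (0, 0, 0) = true ∧ ((0, 0, 0) : W) ∈ S := by
    obtain ⟨a, ha, hd⟩ := hpig (fun a => (1, a, 0)) (fun a b hab => by simpa using hab)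
      (fun a ha => (hmem _).2 (mem_vB.2 (Or.inr (Or.inl ⟨a, ha, rfl⟩))))
    obtain ⟨u, hu, hadj, hdu, _⟩ := h3 _ ((hmem _).2 (mem_vB.2 (Or.inr (Or.inl ⟨a, ha, rfl⟩)))) hd
    have hu' := hadj.2
    rw [rB_iff, rB_iff] at hu'
    have hu0 : u.1 = 0 := by
      rcases hu' with h | h
      · rcases h with ⟨h, _⟩ | ⟨h, _⟩ | ⟨h, _⟩ <;> simp at h
      · rcases h with ⟨h, _⟩ | ⟨_, h, _⟩ | ⟨_, h, _⟩
        · exact h
        · simp at h
        · simp at h
    have := mem_vB.1 ((hmem _).1 hu)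
    rcases this with rfl | ⟨a, ha, rfl⟩ | ⟨x, b, hx, hb', rfl⟩ | ⟨x, a, hx, ha, rfl⟩ |
      ⟨i, a, hi, ha, rfl⟩
    · exact ⟨hdu, hu⟩
    all_goals simp at hu0
  have hY : ∀ x b, x < N → b < 2 → ((2, x, b) : W) ∈ S := fun x b hx hb =>
    (hmem _).2 (mem_vB.2 (Or.inr (Or.inr (Or.inl ⟨x, b, hx, hb, rfl⟩))))
  -- the variables
  have hvar : ∀ x, x < N → ∃ b, b < 2 ∧ D (2, x, b) = true := by
    intro x hx
    have hin : ∀ a < N + 3, ((3, x, a) : W) ∈ S := fun a ha =>
      (hmem _).2 (mem_vB.2 (Or.inr (Or.inr (Or.inr (Or.inl ⟨x, a, hx, ha, rfl⟩)))))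
    obtain ⟨a, ha, hd⟩ := hpig (fun a => (3, x, a)) (fun a b hab => by simpa using hab) hin
    obtain ⟨u, hu, hadj, hdu, _⟩ := h3 _ (hin a ha) hd
    have hu' := hadj.2
    rw [rB_iff, rB_iff] at hu'
    have hu2 : u.1 = 2 ∧ u.2.1 = x := by
      rcases hu' with h | h
      · rcases h with ⟨h, _⟩ | ⟨_, h, h'⟩ | ⟨h, _⟩
        · simp at h
        · exact ⟨h, h'⟩
        · simp at h
      · rcases h with ⟨_, h⟩ | ⟨_, h, _⟩ | ⟨_, h, _⟩ <;> simp at h
    rcases mem_vB.1 ((hmem _).1 hu) with rfl | ⟨a, ha, rfl⟩ | ⟨x', b, hx', hb', rfl⟩ |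
      ⟨x, a, hx, ha, rfl⟩ | ⟨i, a, hi, ha, rfl⟩
    · simp at hu2
    · simp at hu2
    · simp only [true_and] at hu2
      subst hu2
      exact ⟨b, hb', hdu⟩
    · simp at hu2
    · simp at hu2
  have hcl : ∀ i, i < φ.length → ∃ x b, x < N ∧ b < 2 ∧ D (2, x, b) = true ∧
      litIn φ i x b = true := by
    intro i hi
    have hin : ∀ a < N + 3, ((4, i, a) : W) ∈ S := fun a ha =>
      (hmem _).2 (mem_vB.2 (Or.inr (Or.inr (Or.inr (Or.inr ⟨i, a, hi, ha, rfl⟩)))))
    obtain ⟨a, ha, hd⟩ := hpig (fun a => (4, i, a)) (fun a b hab => by simpa using hab) hin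
    obtain ⟨u, hu, hadj, hdu, _⟩ := h3 _ (hin a ha) hd
    have hu' := hadj.2
    rw [rB_iff, rB_iff] at hu'
    have hu2 : u.1 = 2 ∧ litIn φ i u.2.1 u.2.2 = true := by
      rcases hu' with h | h
      · rcases h with ⟨h, _⟩ | ⟨h, _⟩ | ⟨_, h, h'⟩
        · simp at h
        · simp at h
        · exact ⟨h, h'⟩
      · rcases h with ⟨_, h⟩ | ⟨_, h, _⟩ | ⟨_, h, _⟩ <;> simp at h
    rcases mem_vB.1 ((hmem _).1 hu) with rfl | ⟨a, ha, rfl⟩ | ⟨x', b, hx', hb', rfl⟩ |
      ⟨x, a, hx, ha, rfl⟩ | ⟨i, a, hi, ha, rfl⟩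
    · simp at hu2
    · simp at hu2
    · exact ⟨x', b, hx', hb', hdu, hu2.2⟩
    · simp at hu2
    · simp at hu2
  choose! β hβ1 hβ2 using hvar
  -- a lower bound for the weight
  have hlow : ∀ (T : Finset W) (e : ℕ), (∀ w ∈ T, w ∈ S ∧ D w = true ∧ w.1 = 2 ∧ e ≤ c w) →
      c (0, 0, 0) + e * T.card ≤ N + 2 := by
    intro T e hT
    have hnot : ((0, 0, 0) : W) ∉ T := fun h => by
      have := (hT _ h).2.2.1
      simp at this
    refine le_trans ?_ (hsum (insert (0, 0, 0) T) ?_ ?_)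
    · rw [Finset.sum_insert hnot]
      have : e * T.card ≤ ∑ w ∈ T, c w := by
        rw [mul_comm, ← smul_eq_mul]
        exact Finset.card_nsmul_le_sum _ _ _ fun w hw => (hT w hw).2.2.2
      exact Nat.add_le_add_left this _
    · intro w hw
      rcases Finset.mem_insert.1 hw with rfl | hw
      · exact hroot.2
      · exact (hT w hw).1
    · intro w hw
      rcases Finset.mem_insert.1 hw with rfl | hw
      · exact hroot.1
      · exact (hT w hw).2.1
  have hinj : Function.Injective (fun x => ((2, x, β x) : W)) := by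
    intro x y hxy
    have := (Prod.mk.inj (Prod.mk.inj hxy).2).1
    exact this
  have hr0 : c (0, 0, 0) ≠ 0 := h2 _ hroot.2 hroot.1
  have hr1 : c (0, 0, 0) ≠ 1 := by
    intro hr
    have := hlow ((Finset.range N).image (fun x => ((2, x, β x) : W))) 2 (by
      intro w hw
      obtain ⟨x, hx, rfl⟩ := Finset.mem_image.1 hw
      rw [Finset.mem_range] at hx
      have hxS := hY x (β x) hx (hβ1 x hx)
      refine ⟨hxS, hβ2 x hx, rfl, ?_⟩
      have e1 := h2 _ hxS (hβ2 x hx)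
      have e2 := h1 _ hroot.2 _ hxS ⟨by simp, Or.inl (rB_iff.2 (Or.inl ⟨rfl, Or.inr rfl⟩))⟩
      omega)
    rw [Finset.card_image_of_injective _ hinj, Finset.card_range] at this
    omega
  have huniq : ∀ x b, x < N → b < 2 → D (2, x, b) = true → b = β x := by
    intro x b hx hb hd
    by_contra hne
    have hnot : ((2, x, b) : W) ∉ (Finset.range N).image (fun x => ((2, x, β x) : W)) := by
      rw [Finset.mem_image]
      rintro ⟨y, _, hy⟩
      simp only [Prod.mk.injEq, true_and] at hy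
      obtain ⟨rfl, hy⟩ := hy
      exact hne hy.symm
    have := hlow (insert (2, x, b) ((Finset.range N).image (fun x => ((2, x, β x) : W)))) 1 (by
      intro w hw
      rcases Finset.mem_insert.1 hw with rfl | hw
      · exact ⟨hY x b hx hb, hd, rfl, Nat.one_le_iff_ne_zero.2 (h2 _ (hY x b hx hb) hd)⟩
      · obtain ⟨y, hy, rfl⟩ := Finset.mem_image.1 hw
        rw [Finset.mem_range] at hy
        have hyS := hY y (β y) hy (hβ1 y hy)
        exact ⟨hyS, hβ2 y hy, rfl, Nat.one_le_iff_ne_zero.2 (h2 _ hyS (hβ2 y hy))⟩)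
    rw [Finset.card_insert_of_notMem hnot, Finset.card_image_of_injective _ hinj,
      Finset.card_range] at this
    omega
  -- the assignment
  refine ⟨fun x => decide (β x = 1), ?_⟩
  intro cl hcl'
  obtain ⟨i, hi, rfl⟩ := List.getElem_of_mem hcl'
  obtain ⟨x, b, hx, hb, hd, hl⟩ := hcl i hi
  obtain ⟨cl, hc, hl⟩ := litIn_iff.1 hl
  rw [List.getElem?_eq_getElem hi] at hc
  have hc' : φ[i] = cl := Option.some.inj hc
  rw [hc']
  have hbx := huniq x b hx hb hd
  simp only [isLit, Bool.or_eq_true, Bool.and_eq_true, decide_eq_true_eq] at hl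
  have key : ∀ s : Bool, b = bt s → decide (β x = 1) = s := by
    intro s hs
    rw [← hbx, hs]
    cases s <;> simp [bt]
  rcases hl with (⟨h, h'⟩ | ⟨h, h'⟩) | ⟨h, h'⟩
  · left; rw [← h]; exact key _ h'
  · right; left; rw [← h]; exact key _ h'
  · right; right; rw [← h]; exact key _ h'

theorem redB_iff {φ : List Cl3} (hb : Bounded3 φ) (hne : φ ≠ []) :
    SAT3 φ ↔ OmegaUC (cG (redB φ).1) ≤ (redB φ).2 := by
  unfold redB
  rw [omega_code_iff]
  exact ⟨redB_complete hb, redB_sound hne⟩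

/-! ### polynomial time -/

section

variable {α : Type} [TEnc α]

@[fun_prop]
theorem p_nm {w : α → W} (hw : Poly w) : Poly (fun a => nm (w a)) := by
  unfold nm Nat.pair
  fun_prop

@[fun_prop]
theorem p_bt {b : α → Bool} (hb : Poly b) : Poly (fun a => bt (b a)) := by
  unfold bt
  fun_prop

@[fun_prop]
theorem p_isLit {c : α → Cl3} {x b : α → ℕ} (hc : Poly c) (hx : Poly x) (hb : Poly b) :
    Poly (fun a => isLit (c a) (x a) (b a)) := by
  unfold isLit
  fun_prop

@[fun_prop]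
theorem p_litIn {φ : α → List Cl3} {i x b : α → ℕ} (hφ : Poly φ) (hi : Poly i) (hx : Poly x)
    (hb : Poly b) : Poly (fun a => litIn (φ a) (i a) (x a) (b a)) := by
  unfold litIn
  exact Poly.optAny_fp (o := fun a => (φ a)[i a]?) (h := fun a c => isLit c (x a) (b a))
    (by fun_prop) (by fun_prop)

@[fun_prop]
theorem p_rB {φ : α → List Cl3} {u v : α → W} (hφ : Poly φ) (hu : Poly u) (hv : Poly v) :
    Poly (fun a => rB (φ a) (u a) (v a)) := by
  unfold rB
  fun_prop

/-- The code of a graph is computed in polynomial time. -/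
theorem p_code {Vs : α → List W} {R : α → W → W → Bool} (hV : Poly Vs)
    (hR : Poly (fun p : α × W × W => R p.1 p.2.1 p.2.2)) :
    Poly (fun a => code (Vs a) (R a)) := by
  unfold code
  refine Poly.pair (Poly.map (F := fun _ w => nm w) hV (by fun_prop)) ?_
  refine Poly.flatMap (F := fun a u => ((Vs a).filter (fun v => R a u v)).map
    (fun v => (nm u, nm v))) hV ?_
  refine Poly.map (l := fun q : α × W => (Vs q.1).filter (fun v => R q.1 q.2 v))
    (F := fun q v => (nm q.2, nm v)) ?_ (by fun_prop)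
  refine Poly.filter (l := fun q : α × W => Vs q.1) (p := fun q v => R q.1 q.2 v) (by fun_prop) ?_
  exact hR.comp (f := fun p : (α × W) × W => (p.1.1, p.1.2, p.2)) (by fun_prop)

theorem p_vB : Poly vB := by
  unfold vB
  have hN : Poly (fun φ : List Cl3 => List.range (3 * φ.length)) :=
    (UPoly.mul (UPoly.const 3) (UPoly.length Poly.id)).range
  have hM : Poly (fun φ : List Cl3 => List.range (3 * φ.length + 3)) :=
    (UPoly.add (UPoly.mul (UPoly.const 3) (UPoly.length Poly.id)) (UPoly.const 3)).range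
  have hm : Poly (fun φ : List Cl3 => List.range φ.length) := (UPoly.length Poly.id).range
  refine Poly.cons (Poly.const _) (Poly.append ?_ (Poly.append ?_ (Poly.append ?_ ?_)))
  · exact Poly.map (F := fun _ a => ((1, a, 0) : W)) hM (by fun_prop)
  · exact Poly.flatMap (F := fun _ x => [((2, x, 0) : W), (2, x, 1)]) hN (by fun_prop)
  · refine Poly.flatMap (F := fun (φ : List Cl3) x => (List.range (3 * φ.length + 3)).map
      (fun a => ((3, x, a) : W))) hN ?_
    exact Poly.map (l := fun p : List Cl3 × ℕ => List.range (3 * p.1.length + 3))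
      (F := fun p a => ((3, p.2, a) : W)) (hM.comp (Poly.fst Poly.id)) (by fun_prop)
  · refine Poly.flatMap (F := fun (φ : List Cl3) x => (List.range (3 * φ.length + 3)).map
      (fun a => ((4, x, a) : W))) hm ?_
    exact Poly.map (l := fun p : List Cl3 × ℕ => List.range (3 * p.1.length + 3))
      (F := fun p a => ((4, p.2, a) : W)) (hM.comp (Poly.fst Poly.id)) (by fun_prop)

theorem p_redB : Poly redB := by
  unfold redB
  exact Poly.pair (p_code p_vB (by fun_prop)) (by fun_prop)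

end

/-- UCW for bipartite graphs is NP-complete. -/
theorem complete_bip : UCWComplete (fun G => G.IsBipartite) := by
  refine ⟨inNPP_UCW inNPP_bip, ?_⟩
  intro L hL
  obtain ⟨f, hf, hpr, h⟩ := (hardPr_SAT3b.trans (Pr' := fun y : (List ℕ × List (ℕ × ℕ)) × ℕ =>
    (cG y.1).IsBipartite ∧ 1 ≤ y.2) (Q := fun y => OmegaUC (cG y.1) ≤ y.2) p_redB
    (fun φ _ => ⟨bip_redB φ, by unfold redB; simp only; omega⟩)
    (fun φ hφ => redB_iff hφ.2.1 hφ.2.2)) L hL
  exact ⟨f, PC.toPolyTime hf, hpr, h⟩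

end Pool.Agent.NPC.Q224UC
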