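import Pool.Agent.Q224.UC.Tree

/-!
# Trees: correctness and running time of the algorithm
-/

set_option autoImplicit false

namespace Pool.Agent.NPC.Q224UC

open _root_.Q224.UC _root_.Q224.PL Pool.Agent.NPC.Q224PL

/-! ### correctness -/

theorem mem_sq {V : List ℕ} {c : ℕ} : c ∈ sq V ↔ c ≤ V.length * V.length := by
  unfold sq
  rw [List.mem_range]
  omega

theorem mem_nums {V : List ℕ} {k : ℕ} (hk : k ≤ V.length * V.length) {c : ℕ} :
    c ∈ nums V k ↔ c ≤ k := by
  unfold nums
  rw [List.mem_filter, mem_sq, decide_eq_true_eq]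
  omega

theorem mem_ents {V : List ℕ} {k : ℕ} (hk : k ≤ V.length * V.length) (e : Ent) :
    e ∈ ents V k ↔ e.1 ≤ k ∧ e.2.2.2 ≤ k := by
  obtain ⟨c, a, b, w⟩ := e
  unfold ents
  simp only [List.mem_flatMap, mem_nums hk, List.mem_cons, List.not_mem_nil, or_false,
    Prod.mk.injEq]
  constructor
  · rintro ⟨c', hc, w', hw, h⟩
    rcases h with ⟨rfl, _, _, rfl⟩ | ⟨rfl, _, _, rfl⟩ | ⟨rfl, _, _, rfl⟩ | ⟨rfl, _, _, rfl⟩ <;>
      exact ⟨hc, hw⟩
  · rintro ⟨hc, hw⟩
    refine ⟨c, hc, w, hw, ?_⟩
    cases a <;> cases b <;> simp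

theorem start_fst (V : List ℕ) (k : ℕ) : (start V k).map Prod.fst = dd V := by
  unfold start
  rw [List.map_map]
  exact List.map_id _

theorem start_reg (V : List ℕ) (k : ℕ) : Reg (ents V k) (start V k) := by
  constructor
  · rw [start_fst]; exact dd_nodup V
  · intro a ha e he
    obtain ⟨v, _, rfl⟩ := List.mem_map.1 ha
    exact (List.mem_filter.1 he).1

theorem start_keys (V : List ℕ) (k : ℕ) : keys (start V k) = V.toFinset := by
  unfold keys
  rw [start_fst, dd_toFinset]

theorem mem_start {V : List ℕ} {k : ℕ} {a : ℕ × List Ent} (ha : a ∈ start V k) :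
    a.1 ∈ V.toFinset ∧ ∀ e, e ∈ a.2 ↔ e ∈ ents V k ∧ e.2.2.1 = false ∧
      (if e.2.1 = true then e.1 ≠ 0 ∧ e.2.2.2 = e.1 else e.2.2.2 = 0) := by
  obtain ⟨v, hv, rfl⟩ := List.mem_map.1 ha
  refine ⟨List.mem_toFinset.2 (mem_dd.1 hv), fun e => ?_⟩
  rw [List.mem_filter, Bool.and_eq_true, Bool.not_eq_true']
  by_cases h : e.2.1 = true
  · rw [if_pos h, if_pos h, Bool.and_eq_true, Bool.not_eq_true', decide_eq_false_iff_not,
      decide_eq_true_eq]
  · rw [if_neg h, if_neg h, decide_eq_true_eq]

theorem start_mem {V : List ℕ} {k : ℕ} {v : ℕ} (hv : v ∈ V.toFinset) :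
    ∃ a ∈ start V k, a.1 = v := by
  rw [← start_keys V k] at hv
  exact mem_keys.1 hv

theorem start_iff {x : List ℕ × List (ℕ × ℕ)} {k : ℕ} (hk : k ≤ x.1.length * x.1.length) :
    (∃ f, Sol x.2 k (start x.1 k) f) ↔
      FeasOn x.1.toFinset (fun u v => adj x.2 u v = true) k := by
  constructor
  · rintro ⟨f, hf⟩
    have hm : ∀ v ∈ x.1.toFinset, (f v).2.2.1 = false ∧
        (if (f v).2.1 = true then (f v).1 ≠ 0 ∧ (f v).2.2.2 = (f v).1 else (f v).2.2.2 = 0) := by
      intro v hv
      obtain ⟨a, ha, rfl⟩ := start_mem (k := k) hv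
      exact (((mem_start ha).2 _).1 (hf.mem a ha)).2
    refine ⟨fun v => (f v).1, fun v => (f v).2.1, ?_, ?_, ?_, ?_⟩
    · intro u hu v hv huv
      obtain ⟨a, ha, rfl⟩ := start_mem (k := k) hu
      obtain ⟨b, hb, rfl⟩ := start_mem (k := k) hv
      exact hf.col a ha b hb huv
    · intro v hv hd
      have := (hm v hv).2
      rw [if_pos hd] at this
      exact this.1
    · intro v hv hd
      dsimp only at hd ⊢
      obtain ⟨a, ha, rfl⟩ := start_mem (k := k) hv
      rcases hf.dom a ha with h | h | ⟨b, hb, h1, h2, h3⟩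
      · rw [hd] at h; cases h
      · rw [(hm _ hv).1] at h; cases h
      · exact ⟨b.1, (mem_start hb).1, h1, h2, h3⟩
    · have := hf.wt
      rw [start_keys] at this
      refine le_trans (le_of_eq (Finset.sum_congr rfl fun v hv => ?_)) this
      have h := (hm v hv).2
      by_cases hd : (f v).2.1 = true
      · rw [if_pos hd] at h ⊢; exact h.2.symm
      · rw [if_neg hd] at h ⊢; exact h.symm
  · intro h
    obtain ⟨c, D, h0, h1, h2, h3, h4⟩ := cert_bound h
    have hw : ∀ v ∈ x.1.toFinset, (if D v = true then c v else 0) ≤ k := by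
      intro v hv
      split_ifs
      · exact h0 v hv
      · omega
    refine ⟨fun v => (c v, D v, false, if D v = true then c v else 0), ?_, ?_, ?_, ?_⟩
    · intro a ha
      obtain ⟨hv, hm⟩ := mem_start ha
      rw [hm, mem_ents hk]
      refine ⟨⟨h0 _ hv, hw _ hv⟩, rfl, ?_⟩
      by_cases hd : D a.1 = true
      · simp only [hd, if_true]
        exact ⟨h2 _ hv hd, trivial⟩
      · simp only [hd]; simp
    · intro a ha b hb hab
      exact h1 _ (mem_start ha).1 _ (mem_start hb).1 hab
    · intro a ha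
      by_cases hd : D a.1 = true
      · exact Or.inl hd
      · obtain ⟨u, hu, h5, h6, h7⟩ := h3 _ (mem_start ha).1 (by simpa using hd)
        obtain ⟨b, hb, rfl⟩ := start_mem (k := k) hu
        exact Or.inr (Or.inr ⟨b, hb, h5, h6, h7⟩)
    · rw [start_keys]
      exact h4

section

variable {E : List (ℕ × ℕ)} {U : List Ent} {S : TS} {k : ℕ}

theorem iter_reg (h : Reg U S) (m : ℕ) : Reg U ((lstep E U)^[m] S) := by
  induction m with
  | zero => exact h
  | succ m ih => rw [Function.iterate_succ_apply']; exact lstep_reg ih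

theorem iter_iff (hU : ∀ e : Ent, e ∈ U ↔ e.1 ≤ k ∧ e.2.2.2 ≤ k) (h : Reg U S) (m : ℕ) :
    (∃ f, Sol E k S f) ↔ ∃ f, Sol E k ((lstep E U)^[m] S) f := by
  induction m with
  | zero => exact Iff.rfl
  | succ m ih => rw [Function.iterate_succ_apply', ih]; exact lstep_iff hU (iter_reg h m)

theorem iter_tree (h : Reg U S) (ht : (gS E S).IsTree) (h1 : 1 ≤ S.length) (m : ℕ) :
    (gS E ((lstep E U)^[m] S)).IsTree ∧ ((lstep E U)^[m] S).length = max 1 (S.length - m) := by
  induction m with
  | zero => exact ⟨ht, by simp only [Function.iterate_zero, _root_.id]; omega⟩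
  | succ m ih =>
    rw [Function.iterate_succ_apply']
    obtain ⟨h2, h3⟩ := tree_step (iter_reg h m) ih.1
    refine ⟨h2, ?_⟩
    rw [h3, ih.2]
    omega

theorem single_iff (hU : ∀ e : Ent, e ∈ U ↔ e.1 ≤ k ∧ e.2.2.2 ≤ k) (h : Reg U S)
    (h1 : S.length = 1) :
    (∃ f, Sol E k S f) ↔ S.all (fun a => a.2.any (fun e => e.2.1 || e.2.2.1)) = true := by
  obtain ⟨a, rfl⟩ := List.length_eq_one_iff.1 h1
  simp only [List.all_cons, List.all_nil, Bool.and_true]
  rw [List.any_eq_true]
  constructor
  · rintro ⟨f, hf⟩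
    refine ⟨f a.1, hf.mem a (List.mem_singleton_self a), ?_⟩
    rw [Bool.or_eq_true]
    rcases hf.dom a (List.mem_singleton_self a) with h2 | h2 | ⟨b, hb, h2, _⟩
    · exact Or.inl h2
    · exact Or.inr h2
    · rw [List.mem_singleton] at hb
      rw [hb, adj_self] at h2
      cases h2
  · rintro ⟨e, he, h2⟩
    rw [Bool.or_eq_true] at h2
    refine ⟨fun _ => e, ?_, ?_, ?_, ?_⟩
    · intro b hb
      rw [List.mem_singleton] at hb
      rw [hb]; exact he
    · intro b hb c hc h3
      rw [List.mem_singleton] at hb hc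
      rw [hb, hc, adj_self] at h3
      cases h3
    · intro b _
      rcases h2 with h2 | h2
      · exact Or.inl h2
      · exact Or.inr (Or.inl h2)
    · have hk : keys [a] = {a.1} := by ext u; simp [keys]
      rw [hk, Finset.sum_singleton]
      exact ((hU e).1 (h.sub a (List.mem_singleton_self a) e he)).2

end

theorem start_tree {x : List ℕ × List (ℕ × ℕ)} {k : ℕ} (ht : (cG x).IsTree) :
    (gS x.2 (start x.1 k)).IsTree := by
  have hmem : ∀ u, u ∈ (start x.1 k).map Prod.fst ↔ u ∈ x.1 := by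
    intro u; rw [start_fst, mem_dd]
  let e : {u : ℕ // u ∈ (start x.1 k).map Prod.fst} ≃ {u : ℕ // u ∈ x.1} :=
    { toFun := fun u => ⟨u.1, (hmem u.1).1 u.2⟩
      invFun := fun u => ⟨u.1, (hmem u.1).2 u.2⟩
      left_inv := fun u => rfl
      right_inv := fun u => rfl }
  have iso : gS x.2 (start x.1 k) ≃g cG x :=
    { e with
      map_rel_iff' := by
        intro a b
        simp only [gS, cG_adj]
        exact Iff.rfl }
  exact ⟨iso.connected_iff.2 ht.connected, ht.isAcyclic.embedding iso.toEmbedding⟩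

theorem feas_iff {x : List ℕ × List (ℕ × ℕ)} {k : ℕ} (ht : (cG x).IsTree)
    (hk : k ≤ x.1.length * x.1.length) : feas x k = true ↔ OmegaUC (cG x) ≤ k := by
  have hU := mem_ents hk
  have hreg := start_reg x.1 k
  have hlen : (start x.1 k).length = (dd x.1).length := by
    rw [← start_fst x.1 k, List.length_map]
  have hle : (dd x.1).length ≤ x.1.length := by
    rw [← List.toFinset_card_of_nodup (dd_nodup x.1), dd_toFinset]
    exact List.toFinset_card_le _
  have hpos : 1 ≤ (dd x.1).length := by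
    obtain ⟨v⟩ := ht.connected.nonempty
    exact List.length_pos_of_mem (mem_dd.2 v.2)
  have htree := iter_tree (E := x.2) hreg (start_tree ht) (by omega) x.1.length
  have hfin : fin x k = (lstep x.2 (ents x.1 k))^[x.1.length] (start x.1 k) := by
    unfold fin
    exact foldl_iter _ _ _
  rw [omega_cG_iff, ← start_iff hk, iter_iff hU hreg x.1.length, ← hfin]
  unfold feas
  refine (single_iff hU ?_ ?_).symm
  · rw [hfin]; exact iter_reg hreg _
  · rw [hfin, htree.2]; omega

theorem omega_le_sq (x : List ℕ × List (ℕ × ℕ)) :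
    OmegaUC (cG x) ≤ x.1.length * x.1.length := by
  classical
  have : Fintype {v : ℕ // v ∈ x.1} := Fintype.subtype x.1.toFinset (by simp)
  have hcard : Fintype.card {v : ℕ // v ∈ x.1} ≤ x.1.length := by
    rw [Fintype.card_of_subtype x.1.toFinset (by simp)]
    exact List.toFinset_card_le _
  rw [omega_le_iff]
  refine ⟨fun v => (Fintype.equivFin _ v : ℕ) + 1, fun _ => true, ?_, ?_, ?_, ?_⟩
  · intro u _ v _ huv he
    have : (Fintype.equivFin _ u : ℕ) = Fintype.equivFin _ v := by simpa using he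
    exact huv.ne ((Fintype.equivFin _).injective (Fin.ext this))
  · intro v _ _; simp
  · intro v _ h; simp at h
  · have : ∑ v ∈ (Finset.univ : Finset {v : ℕ // v ∈ x.1}),
        (if (true : Bool) = true then (Fintype.equivFin _ v : ℕ) + 1 else 0) ≤
        ∑ v ∈ (Finset.univ : Finset {v : ℕ // v ∈ x.1}), x.1.length := by
      refine Finset.sum_le_sum fun v _ => ?_
      simp only [if_true]
      have := (Fintype.equivFin _ v).isLt
      omega
    refine this.trans ?_
    rw [Finset.sum_const, Finset.card_univ, smul_eq_mul]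
    exact Nat.mul_le_mul_right _ hcard

/-- **The algorithm is correct on trees.** -/
theorem omT_eq {x : List ℕ × List (ℕ × ℕ)} (ht : (cG x).IsTree) : omT x = OmegaUC (cG x) := by
  unfold omT
  rw [List.head?_filter]
  have h : (sq x.1).find? (fun k => feas x k) = some (OmegaUC (cG x)) := by
    unfold sq
    rw [List.find?_range_eq_some]
    refine ⟨(feas_iff ht (omega_le_sq x)).2 le_rfl, ?_, ?_⟩
    · rw [List.mem_range]
      have := omega_le_sq x
      omega
    · intro j hj
      have hj2 : j ≤ x.1.length * x.1.length := hj.le.trans (omega_le_sq x)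
      rw [Bool.not_eq_true', Bool.eq_false_iff]
      intro hc
      have := (feas_iff ht hj2).1 hc
      omega
  rw [h]
  rfl

/-! ### running time -/

variable {α : Type} [TEnc α]

@[fun_prop]
theorem p_sq {V : α → List ℕ} (hV : Poly V) : Poly (fun a => sq (V a)) :=
  (UPoly.add (UPoly.mul (UPoly.length hV) (UPoly.length hV)) (UPoly.const 1)).range

@[fun_prop]
theorem p_nums {V : α → List ℕ} {k : α → ℕ} (hV : Poly V) (hk : Poly k) :
    Poly (fun a => nums (V a) (k a)) := by
  unfold nums
  fun_prop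

@[fun_prop]
theorem p_ents {V : α → List ℕ} {k : α → ℕ} (hV : Poly V) (hk : Poly k) :
    Poly (fun a => ents (V a) (k a)) := by
  unfold ents
  fun_prop

@[fun_prop]
theorem p_okE {e b c : α → Ent} (he : Poly e) (hb : Poly b) (hc : Poly c) :
    Poly (fun a => okE (e a) (b a) (c a)) := by
  unfold okE
  fun_prop

@[fun_prop]
theorem p_comb {U A B : α → List Ent} (hU : Poly U) (hA : Poly A) (hB : Poly B) :
    Poly (fun a => comb (U a) (A a) (B a)) := by
  unfold comb
  fun_prop

@[fun_prop]
theorem p_leaf {E : α → List (ℕ × ℕ)} {S : α → TS} (hE : Poly E) (hS : Poly S) :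
    Poly (fun a => leaf (E a) (S a)) := by
  unfold leaf
  fun_prop

@[fun_prop]
theorem p_elim {E : α → List (ℕ × ℕ)} {U : α → List Ent} {S : α → TS} {v : α → ℕ × List Ent}
    (hE : Poly E) (hU : Poly U) (hS : Poly S) (hv : Poly v) :
    Poly (fun a => elim (E a) (U a) (S a) (v a)) := by
  unfold elim
  fun_prop

@[fun_prop]
theorem p_lstep {E : α → List (ℕ × ℕ)} {U : α → List Ent} {S : α → TS}
    (hE : Poly E) (hU : Poly U) (hS : Poly S) : Poly (fun a => lstep (E a) (U a) (S a)) := by
  unfold lstep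
  exact Poly.optElim (h := fun a v => elim (E a) (U a) (S a) v) (by fun_prop) hS (by fun_prop)

@[fun_prop]
theorem p_start {V : α → List ℕ} {k : α → ℕ} (hV : Poly V) (hk : Poly k) :
    Poly (fun a => start (V a) (k a)) := by
  unfold start
  fun_prop

theorem bd_step {E : List (ℕ × ℕ)} {U : List Ent} {V : List ℕ} {S : TS}
    (h : S.length ≤ V.length ∧ ∀ a ∈ S, a.1 ∈ V ∧ sz a.2 ≤ sz U) :
    (lstep E U S).length ≤ V.length ∧ ∀ a ∈ lstep E U S, a.1 ∈ V ∧ sz a.2 ≤ sz U := by
  unfold lstep
  rcases hl : leaf E S with _ | v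
  · exact h
  · simp only [Option.elim]
    constructor
    · unfold elim
      rw [List.length_map]
      exact (List.length_filter_le _ _).trans h.1
    · intro a ha
      obtain ⟨b, hb, _, rfl⟩ := mem_elim.1 ha
      refine ⟨(h.2 b hb).1, ?_⟩
      dsimp only
      split_ifs
      · exact sz_filter_le _ _
      · exact (h.2 b hb).2

theorem bd_iter {E : List (ℕ × ℕ)} {U : List Ent} {V : List ℕ} {S : TS}
    (h : S.length ≤ V.length ∧ ∀ a ∈ S, a.1 ∈ V ∧ sz a.2 ≤ sz U) (m : ℕ) :
    ((lstep E U)^[m] S).length ≤ V.length ∧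
      ∀ a ∈ (lstep E U)^[m] S, a.1 ∈ V ∧ sz a.2 ≤ sz U := by
  induction m with
  | zero => exact h
  | succ m ih => rw [Function.iterate_succ_apply']; exact bd_step ih

theorem bd_start (V : List ℕ) (k : ℕ) : (start V k).length ≤ V.length ∧
    ∀ a ∈ start V k, a.1 ∈ V ∧ sz a.2 ≤ sz (ents V k) := by
  constructor
  · rw [← List.length_map (f := Prod.fst), start_fst,
      ← List.toFinset_card_of_nodup (dd_nodup V), dd_toFinset]
    exact List.toFinset_card_le _
  · intro a ha
    obtain ⟨v, hv, rfl⟩ := List.mem_map.1 ha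
    exact ⟨mem_dd.1 hv, sz_filter_le _ _⟩

@[fun_prop]
theorem p_fin {x : α → List ℕ × List (ℕ × ℕ)} {k : α → ℕ} (hx : Poly x) (hk : Poly k) :
    Poly (fun a => fin (x a) (k a)) := by
  unfold fin
  have h1 : Poly (fun a => (x a).1) := Poly.fst hx
  obtain ⟨p, hp⟩ := h1.sz_le
  obtain ⟨q, hq⟩ := (p_ents h1 hk).sz_le
  refine Poly.foldl (F := fun a S _ => lstep (x a).2 (ents (x a).1 (k a)) S) h1 (by fun_prop) ?_
    (p * (p + q + 1) + 1) ?_
  · fun_prop
  · intro a m _
    rw [foldl_iter]
    obtain ⟨h2, h3⟩ := bd_iter (E := (x a).2) (bd_start (x a).1 (k a)) ((x a).1.take m).length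
    have hs := sz_le_length_mul ((lstep (x a).2 (ents (x a).1 (k a)))^[((x a).1.take m).length]
      (start (x a).1 (k a))) (sz (x a).1 + sz (ents (x a).1 (k a))) (by
        intro b hb
        obtain ⟨h4, h5⟩ := h3 b hb
        have h6 : sz b.1 < sz (x a).1 := sz_le_of_mem h4
        rw [show sz b = sz (b.1, b.2) from rfl, sz_pair]
        omega)
    refine hs.trans ?_
    have e1 := length_lt_sz (x a).1
    have e2 := hp a
    have e3 := hq a
    simp only [Polynomial.eval_add, Polynomial.eval_mul, Polynomial.eval_one]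
    exact Nat.add_le_add_right (Nat.mul_le_mul (by omega) (by omega)) 1

@[fun_prop]
theorem p_feas {x : α → List ℕ × List (ℕ × ℕ)} {k : α → ℕ} (hx : Poly x) (hk : Poly k) :
    Poly (fun a => feas (x a) (k a)) := by
  unfold feas
  fun_prop

theorem p_omT : Poly omT := by
  unfold omT
  fun_prop

/-- **Trees**: the up-color domination weight is computed in polynomial time. -/
theorem tree_poly : ∃ g : List Bool → List Bool, PolyTime g ∧
    ∀ x : List ℕ × List (ℕ × ℕ), (cG x).IsTree → g (bits x) = bits (OmegaUC (cG x)) := by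
  refine ⟨fun y => bits (((unbits (List ℕ × List (ℕ × ℕ)) y).map omT).getD 0), ?_, ?_⟩
  · have h := poly_unbits (α := List ℕ × List (ℕ × ℕ))
    have h1 := p_omT
    refine polyTime_bits ?_
    have := Poly.optElim (o := fun y => unbits (List ℕ × List (ℕ × ℕ)) y) (g := fun _ => (0 : ℕ))
      (h := fun _ x => omT x) h (Poly.const 0) (h1.comp (Poly.snd Poly.id))
    refine this.congr ?_
    intro y
    cases unbits (List ℕ × List (ℕ × ℕ)) y <;> rfl
  · intro x ht
    simp only [unbits_bits, Option.map_some, Option.getD_some, omT_eq ht]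

end Pool.Agent.NPC.Q224UC
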