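import Pool.Agent.NPC.Classes
import Pool.Agent.Q224.PL.Alg

/-!
# The up-color domination weight: definitions
-/

set_option autoImplicit false

namespace Q224.UC

open Pool.Agent.NPC Q224.PL

variable {V : Type}

/-- A (proper) coloring with colors `0, 1, 2, …`. -/
def IsColoring (G : SimpleGraph V) (c : V → ℕ) : Prop := ∀ u v, G.Adj u v → c u ≠ c v

/-- `D` is an up-color dominating set for `(G, c)`: no vertex of `D` has color `0`, and every vertex
outside `D` has a neighbour in `D` with a greater color. -/
structure UpDom (G : SimpleGraph V) (c : V → ℕ) (D : Finset V) : Prop where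
  ne_zero : ∀ d ∈ D, c d ≠ 0
  dom : ∀ v, v ∉ D → ∃ d ∈ D, G.Adj v d ∧ c v < c d

/-- **The up-color domination weight** of a graph: the least weight of an up-color dominating set for
`(G, c)`, over all colorings `c`. -/
noncomputable def OmegaUC (G : SimpleGraph V) : ℕ :=
  sInf {w | ∃ (c : V → ℕ) (D : Finset V), IsColoring G c ∧ UpDom G c D ∧ w = ∑ d ∈ D, c d}

/-- Interval graphs: intersection graphs of families of intervals `[l v, r v]` of the real line. -/
def IsInterval (G : SimpleGraph V) : Prop :=
  ∃ l r : V → ℝ, (∀ v, l v ≤ r v) ∧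
    ∀ u v, G.Adj u v ↔ u ≠ v ∧ (Set.Icc (l u) (r u) ∩ Set.Icc (l v) (r v)).Nonempty

/-- The decision problem UCW for the class `C` of graphs: the graph coded by `x.1` (list of vertices,
list of edges) is in the class, `x.2` is a positive integer and the up-color domination weight is at
most `x.2`. -/
def UCW (C : ∀ {V : Type}, SimpleGraph V → Prop) (x : (List ℕ × List (ℕ × ℕ)) × ℕ) : Prop :=
  (C (cG x.1) ∧ 1 ≤ x.2) ∧ OmegaUC (cG x.1) ≤ x.2

/-- NP-completeness of UCW for the class `C`: the problem is in `NP`, and every language in `NP` has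
a polynomial-time many-one reduction to it, all of whose values are instances (a graph of the class
and a positive integer). -/
def UCWComplete (C : ∀ {V : Type}, SimpleGraph V → Prop) : Prop :=
  InNPP (UCW C) ∧
    ∀ L : Set (List Bool), InNP L → ∃ f : List Bool → (List ℕ × List (ℕ × ℕ)) × ℕ,
      PolyTime (fun y => bits (f y)) ∧ (∀ y, C (cG (f y).1) ∧ 1 ≤ (f y).2) ∧
        ∀ y, y ∈ L ↔ OmegaUC (cG (f y).1) ≤ (f y).2

end Q224.UC
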