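import Pool.Agent.Q224.UC.Track3

/-!
# The interval graph of a track problem
-/

set_option autoImplicit false

namespace Pool.Agent.NPC.Q224UC

open _root_.Q224.UC _root_.Q224.PL Pool.Agent.NPC.Q224PL

section

variable (K r : ℕ) (X : ℕ → ℕ → Bool) (π : ℕ → ℕ)

/-- The number of rounds of a stretch. -/
def MM : ℕ := 3 * (K * K + 1) + r

/-- The track `j` is active in the stretch `s`. -/
def act (s j : ℕ) : Bool := decide (j ≤ s) && decide (π j + s + 2 ≤ 2 * K)

/-- The number of active tracks. -/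
def hh (s : ℕ) : ℕ := min (s + 1) (2 * K - 1 - s)

/-- The shift between two rounds. -/
def tr (ρ j : ℕ) : ℕ :=
  if act K π (ρ / MM K r) j = true then
    if act K π ((ρ + 1) / MM K r) j = true then
      if (decide ((K - 1) * MM K r ≤ ρ) && (decide (ρ - (K - 1) * MM K r < r) &&
        X (ρ - (K - 1) * MM K r) j)) = true then 1 else j + 2
    else K + 2
  else 0

/-- The left ends. -/
def lI (w : W) : ℕ :=
  if w.1 = 0 then (K + 4) * (w.2.1 * MM K r) + K + 3
  else (K + 4) * w.2.2 + (if w.2.2 = 0 then 0 else tr K r X π (w.2.2 - 1) w.2.1) + 1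

/-- The right ends. -/
def rI (w : W) : ℕ :=
  if w.1 = 0 then (K + 4) * (w.2.1 * MM K r + MM K r - 1) + K + 3
  else (K + 4) * (w.2.2 + 1) + tr K r X π w.2.2 w.2.1

/-- The vertices. -/
def vI : List W :=
  (List.range (2 * K - 1)).map (fun s => ((0, s, 0) : W)) ++
  (List.range K).flatMap (fun j => ((List.range ((2 * K - 1) * MM K r)).filter
    (fun ρ => act K π (ρ / MM K r) j)).map (fun ρ => ((1, j, ρ) : W)))

/-- Adjacency. -/
def RI (u v : W) : Bool := decide (lI K r X π u ≤ rI K r X π v) && decide (lI K r X π v ≤ rI K r X π u)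

end

section

variable {K r : ℕ} {X : ℕ → ℕ → Bool} {π : ℕ → ℕ}

theorem MM_pos : 0 < MM K r := by unfold MM; omega

theorem act_iff {s j : ℕ} : act K π s j = true ↔ j ≤ s ∧ π j + s + 2 ≤ 2 * K := by
  unfold act; rw [Bool.and_eq_true, decide_eq_true_eq, decide_eq_true_eq]

theorem mem_vI {w : W} : w ∈ vI K r π ↔ (∃ s, s < 2 * K - 1 ∧ w = (0, s, 0)) ∨
    (∃ j ρ, j < K ∧ ρ < (2 * K - 1) * MM K r ∧ act K π (ρ / MM K r) j = true ∧ w = (1, j, ρ)) := by
  unfold vI
  simp only [List.mem_append, List.mem_map, List.mem_flatMap, List.mem_filter, List.mem_range]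
  constructor
  · rintro (⟨s, hs, rfl⟩ | ⟨j, hj, ρ, ⟨hρ, ha⟩, rfl⟩)
    · exact Or.inl ⟨s, hs, rfl⟩
    · exact Or.inr ⟨j, ρ, hj, hρ, ha, rfl⟩
  · rintro (⟨s, hs, rfl⟩ | ⟨j, ρ, hj, hρ, ha, rfl⟩)
    · exact Or.inl ⟨s, hs, rfl⟩
    · exact Or.inr ⟨j, hj, ρ, ⟨hρ, ha⟩, rfl⟩

theorem tr_le {ρ j : ℕ} (hj : j < K) : tr K r X π ρ j ≤ K + 2 := by
  unfold tr; split_ifs <;> omega

theorem sum_hh (K : ℕ) : ∑ s ∈ Finset.range (2 * K - 1), hh K s = K * K := by
  rcases Nat.eq_zero_or_pos K with rfl | hK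
  · rfl
  · obtain ⟨k, rfl⟩ : ∃ k, K = k + 1 := ⟨K - 1, by omega⟩
    clear hK
    induction k with
    | zero => rfl
    | succ k ih =>
      have e1 : 2 * (k + 1 + 1) - 1 = (2 * (k + 1) - 1) + 1 + 1 := by omega
      rw [e1, Finset.sum_range_succ, Finset.sum_range_succ']
      have e2 : ∀ s ∈ Finset.range (2 * (k + 1) - 1), hh (k + 1 + 1) (s + 1) = hh (k + 1) s + 1 := by
        intro s hs
        rw [Finset.mem_range] at hs
        unfold hh; omega
      rw [Finset.sum_congr rfl e2, Finset.sum_add_distrib, ih]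
      simp only [Finset.sum_const, Finset.card_range, smul_eq_mul, mul_one]
      have e3 : hh (k + 1 + 1) 0 = 1 := by unfold hh; omega
      have e4 : hh (k + 1 + 1) (2 * (k + 1) - 1 + 1) = 1 := by unfold hh; omega
      rw [e3, e4]
      have e5 : 2 * (k + 1) - 1 = 2 * k + 1 := by omega
      rw [e5]
      ring

/-! ### adjacency -/

theorem RI_comm (u v : W) : RI K r X π u v = RI K r X π v u := by
  unfold RI; rw [Bool.and_comm]

theorem RI_same {j j' ρ : ℕ} (hj : j < K) (hj' : j' < K) :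
    RI K r X π (1, j, ρ) (1, j', ρ) = true := by
  unfold RI lI rI
  rw [Bool.and_eq_true, decide_eq_true_eq, decide_eq_true_eq]
  simp only [Nat.one_ne_zero, if_false, Nat.mul_add, Nat.mul_one]
  have h1 := tr_le (r := r) (X := X) (π := π) (ρ := ρ - 1) hj
  have h2 := tr_le (r := r) (X := X) (π := π) (ρ := ρ - 1) hj'
  split_ifs <;> constructor <;> omega

theorem RI_next {j j' ρ : ℕ} (hj : j < K) :
    RI K r X π (1, j, ρ) (1, j', ρ + 1) = true ↔ tr K r X π ρ j' < tr K r X π ρ j := by
  unfold RI lI rI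
  rw [Bool.and_eq_true, decide_eq_true_eq, decide_eq_true_eq]
  simp only [Nat.one_ne_zero, if_false, Nat.mul_add, Nat.mul_one, Nat.add_sub_cancel,
    Nat.add_eq_zero_iff, and_false]
  have h1 := tr_le (r := r) (X := X) (π := π) (ρ := ρ - 1) hj
  split_ifs <;> omega

theorem RI_far {j j' ρ ρ' : ℕ} (hj : j < K) (h : ρ + 2 ≤ ρ') :
    RI K r X π (1, j, ρ) (1, j', ρ') = false := by
  rw [← Bool.not_eq_true]
  unfold RI lI rI
  rw [Bool.and_eq_true, decide_eq_true_eq, decide_eq_true_eq]
  simp only [Nat.one_ne_zero, if_false]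
  have h1 := tr_le (r := r) (X := X) (π := π) (ρ := ρ) hj
  have h2 : (K + 4) * (ρ + 2) ≤ (K + 4) * ρ' := Nat.mul_le_mul_left _ h
  simp only [Nat.mul_add, Nat.mul_one] at h2 ⊢
  omega

theorem RI_u {s j ρ : ℕ} (hj : j < K) :
    RI K r X π (0, s, 0) (1, j, ρ) = true ↔ s * MM K r ≤ ρ ∧ ρ < s * MM K r + MM K r := by
  unfold RI lI rI
  rw [Bool.and_eq_true, decide_eq_true_eq, decide_eq_true_eq]
  simp only [Nat.one_ne_zero, if_false, if_true]
  have hM := MM_pos (K := K) (r := r)
  generalize s * MM K r = a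
  generalize MM K r = M at hM
  have h1 := tr_le (r := r) (X := X) (π := π) (ρ := ρ - 1) hj
  have h2 := tr_le (r := r) (X := X) (π := π) (ρ := ρ) hj
  constructor
  · rintro ⟨h3, h4⟩
    constructor
    · by_contra hc
      have h5 : (K + 4) * (ρ + 1) ≤ (K + 4) * a := Nat.mul_le_mul_left _ (by omega)
      omega
    · by_contra hc
      have h5 : (K + 4) * (a + M - 1 + 1) ≤ (K + 4) * ρ := Nat.mul_le_mul_left _ (by omega)
      rw [Nat.mul_succ] at h5
      omega
  · rintro ⟨h3, h4⟩
    constructor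
    · have h5 : (K + 4) * (a + 1) ≤ (K + 4) * (ρ + 1) := Nat.mul_le_mul_left _ (by omega)
      rw [Nat.mul_succ] at h5
      omega
    · have h5 : (K + 4) * ρ ≤ (K + 4) * (a + M - 1) := Nat.mul_le_mul_left _ (by omega)
      split_ifs <;> omega

theorem RI_uu {s s' : ℕ} (h : s < s') : RI K r X π (0, s, 0) (0, s', 0) = false := by
  rw [← Bool.not_eq_true]
  unfold RI lI rI
  rw [Bool.and_eq_true, decide_eq_true_eq, decide_eq_true_eq]
  simp only [if_true]
  have hM := MM_pos (K := K) (r := r)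
  have h1 : s * MM K r + MM K r ≤ s' * MM K r := by
    have := Nat.mul_le_mul_right (MM K r) (Nat.succ_le_of_lt h)
    rwa [Nat.succ_mul] at this
  generalize s' * MM K r = b at h1
  generalize s * MM K r = a at h1
  generalize MM K r = M at hM h1
  have h5 : (K + 4) * (a + M - 1 + 1) ≤ (K + 4) * b := Nat.mul_le_mul_left _ (by omega)
  rw [Nat.mul_succ] at h5
  omega

theorem div_eq {s ρ : ℕ} (h : s * MM K r ≤ ρ ∧ ρ < s * MM K r + MM K r) : ρ / MM K r = s := by
  apply Nat.div_eq_of_lt_le h.1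
  rw [Nat.succ_mul]; exact h.2

theorem div_spec (ρ : ℕ) : (ρ / MM K r) * MM K r ≤ ρ ∧ ρ < (ρ / MM K r) * MM K r + MM K r := by
  have h1 := Nat.div_add_mod ρ (MM K r)
  have h2 := Nat.mod_lt ρ (MM_pos (K := K) (r := r))
  rw [Nat.mul_comm] at h1
  omega

/-! ### from a solution of the track problem to a coloring -/

theorem feas_of_track (hK : 1 ≤ K) (hπ : ∀ j < K, π j < K) (hππ : ∀ j, π (π j) = j)
    (h : TrackSol K r X π) :
    FeasOn (vI K r π).toFinset (fun u v => u ≠ v ∧
      (RI K r X π u v = true ∨ RI K r X π v u = true)) (K * K) := by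
  obtain ⟨σ, g0, g1, g2, g3, g4⟩ := h
  set M := MM K r with hM
  have hMr : r + 3 ≤ M := by rw [hM]; unfold MM; nlinarith [Nat.zero_le (K * K)]
  set kk : ℕ → ℕ := fun ρ => min (ρ - (K - 1) * M) r with hkk
  have hkr : ∀ ρ, kk ρ ≤ r := fun ρ => min_le_right _ _
  -- the colors are small
  have hsmall : ∀ j ρ, j < K → act K π (ρ / M) j = true → σ (kk ρ) j < hh K (ρ / M) := by
    intro j ρ hj ha
    rw [act_iff] at ha
    have hd := div_spec (K := K) (r := r) ρ
    rw [← hM] at hd
    generalize ρ / M = s at ha hd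
    rcases lt_trichotomy (s + 1) K with h | h | h
    · have hk : kk ρ = 0 := by
        have h1 : (s + 1) * M ≤ (K - 1) * M := Nat.mul_le_mul_right _ (by omega)
        rw [Nat.succ_mul] at h1
        rw [hkk]; simp only; omega
      rw [hk, g0 j hj]
      unfold hh; omega
    · have := g1 (kk ρ) (hkr ρ) j hj
      unfold hh; omega
    · have hk : kk ρ = r := by
        have h1 : K * M ≤ s * M := Nat.mul_le_mul_right _ (by omega)
        have h2 : K * M = (K - 1) * M + M := by
          rw [← Nat.succ_mul]; congr 1; omega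
        rw [hkk]; simp only; omega
      have h3 := g4 (π j) (hπ j hj)
      rw [hππ] at h3
      rw [hk, h3]
      unfold hh; omega
  have hmem : ∀ w, w ∈ (vI K r π).toFinset ↔ w ∈ vI K r π := fun w => List.mem_toFinset
  -- consecutive rounds
  have hnext : ∀ j j' ρ, j < K → j' < K → act K π (ρ / M) j = true →
      act K π ((ρ + 1) / M) j' = true → tr K r X π ρ j' < tr K r X π ρ j →
      σ (kk ρ) j ≠ σ (kk (ρ + 1)) j' := by
    intro j j' ρ hj hj' ha ha' ht he
    have hne : j ≠ j' := fun e => by rw [e] at ht; exact lt_irrefl _ ht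
    by_cases hmid : (K - 1) * M ≤ ρ ∧ ρ - (K - 1) * M < r
    · have k1 : kk ρ = ρ - (K - 1) * M := by rw [hkk]; simp only; omega
      have k2 : kk (ρ + 1) = ρ - (K - 1) * M + 1 := by rw [hkk]; simp only; omega
      rw [k1, k2] at he
      by_cases hX : X (ρ - (K - 1) * M) j' = true
      · have s1 : ρ / M = K - 1 := div_eq ⟨hmid.1, by rw [← hM]; omega⟩
        have s2 : (ρ + 1) / M = K - 1 := div_eq ⟨by rw [← hM]; omega, by rw [← hM]; omega⟩
        rw [s1] at ha
        rw [s2] at ha'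
        have hX' : X (ρ - (K - 1) * M) j = false := by
          by_contra hc
          rw [Bool.not_eq_false] at hc
          have t1 : tr K r X π ρ j = 1 := by
            unfold tr
            rw [← hM, s1, s2, if_pos ha, if_pos ha, if_pos]
            simp only [Bool.and_eq_true, decide_eq_true_eq]
            exact ⟨hmid.1, hmid.2, hc⟩
          have t2 : tr K r X π ρ j' = 1 := by
            unfold tr
            rw [← hM, s1, s2, if_pos ha', if_pos ha', if_pos]
            simp only [Bool.and_eq_true, decide_eq_true_eq]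
            exact ⟨hmid.1, hmid.2, hX⟩
          omega
        have h5 := g3 _ hmid.2 j hj hX'
        rw [← h5] at he
        exact hne (g2 _ (by omega) j hj j' hj' he)
      · have h5 := g3 _ hmid.2 j' hj' (by simpa using hX)
        rw [h5] at he
        exact hne (g2 _ (by omega) j hj j' hj' he)
    · have k1 : kk (ρ + 1) = kk ρ := by rw [hkk]; simp only; omega
      rw [k1] at he
      exact hne (g2 _ (hkr ρ) j hj j' hj' he)
  have huv : ∀ s j ρ, j < K → act K π (ρ / M) j = true →
      RI K r X π (0, s, 0) (1, j, ρ) = true → σ (kk ρ) j < hh K s := by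
    intro s j ρ hj ha hR
    rw [RI_u hj] at hR
    have := div_eq hR
    rw [← hM] at this
    rw [this] at ha
    have := hsmall j ρ hj (by rw [this]; exact ha)
    rwa [‹ρ / M = s›] at this
  refine ⟨fun w => if w.1 = 0 then hh K w.2.1 else σ (kk w.2.2) w.2.1, fun w => decide (w.1 = 0),
    ?_, ?_, ?_, ?_⟩
  · rintro u hu v hv ⟨hne, hR⟩
    have hR' : RI K r X π u v = true := by
      rcases hR with h | h
      · exact h
      · rw [RI_comm]; exact h
    rcases mem_vI.1 ((hmem _).1 hu) with ⟨s, hs, rfl⟩ | ⟨j, ρ, hj, hρ, ha, rfl⟩ <;>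
      rcases mem_vI.1 ((hmem _).1 hv) with ⟨s', hs', rfl⟩ | ⟨j', ρ', hj', hρ', ha', rfl⟩
    · exfalso
      rcases lt_trichotomy s s' with h | h | h
      · rw [RI_uu h] at hR'; cases hR'
      · exact hne (by rw [h])
      · rw [RI_comm, RI_uu h] at hR'; cases hR'
    · simp only [if_true, Nat.one_ne_zero, if_false]
      exact (huv s j' ρ' hj' ha' hR').ne'
    · simp only [if_true, Nat.one_ne_zero, if_false]
      rw [RI_comm] at hR'
      exact (huv s' j ρ hj ha hR').ne
    · simp only [Nat.one_ne_zero, if_false]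
      rcases lt_trichotomy ρ ρ' with h | h | h
      · rcases Nat.eq_or_lt_of_le (Nat.succ_le_of_lt h) with h' | h'
        · subst h'
          exact hnext j j' ρ hj hj' ha ha' ((RI_next hj).1 hR')
        · rw [RI_far hj (by omega)] at hR'; cases hR'
      · subst h
        intro he
        have := g2 _ (hkr ρ) j hj j' hj' he
        exact hne (by rw [this])
      · rw [RI_comm] at hR'
        rcases Nat.eq_or_lt_of_le (Nat.succ_le_of_lt h) with h' | h'
        · subst h'
          exact (hnext j' j ρ' hj' hj ha' ha ((RI_next hj').1 hR')).symm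
        · rw [RI_far hj' (by omega)] at hR'; cases hR'
  · intro v hv hd
    rw [decide_eq_true_eq] at hd
    rcases mem_vI.1 ((hmem _).1 hv) with ⟨s, hs, rfl⟩ | ⟨j, ρ, hj, hρ, ha, rfl⟩
    · simp only [if_true]
      unfold hh; omega
    · simp at hd
  · intro v hv hd
    rw [decide_eq_false_iff_not] at hd
    rcases mem_vI.1 ((hmem _).1 hv) with ⟨s, hs, rfl⟩ | ⟨j, ρ, hj, hρ, ha, rfl⟩
    · simp at hd
    · have hs : ρ / M < 2 * K - 1 := Nat.div_lt_of_lt_mul (by rw [Nat.mul_comm]; exact hρ)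
      refine ⟨(0, ρ / M, 0), (hmem _).2 (mem_vI.2 (Or.inl ⟨_, hs, rfl⟩)), ⟨by simp, Or.inr
        ((RI_u hj).2 (div_spec ρ))⟩, by simp, ?_⟩
      simp only [if_true, Nat.one_ne_zero, if_false]
      exact hsmall j ρ hj ha
  · rw [← Finset.sum_filter, ← sum_hh K]
    have hsub : (vI K r π).toFinset.filter (fun w => decide (w.1 = 0) = true) ⊆
        (Finset.range (2 * K - 1)).image (fun s => ((0, s, 0) : W)) := by
      intro w hw
      rw [Finset.mem_filter, List.mem_toFinset, mem_vI] at hw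
      obtain ⟨hw, hd⟩ := hw
      rcases hw with ⟨s, hs, rfl⟩ | ⟨j, ρ, hj, hρ, ha, rfl⟩
      · exact Finset.mem_image.2 ⟨s, Finset.mem_range.2 hs, rfl⟩
      · simp at hd
    refine (Finset.sum_le_sum_of_subset hsub).trans ?_
    rw [Finset.sum_image (by
      intro x _ y _ hxy
      simpa using (Prod.mk.inj (Prod.mk.inj hxy).2).1)]
    simp

end

end Pool.Agent.NPC.Q224UC
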