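import Pool.Agent.Q224.UC.Intv

/-!
# From a coloring of the interval graph to a solution of the track problem
-/

set_option autoImplicit false

namespace Pool.Agent.NPC.Q224UC

open _root_.Q224.UC _root_.Q224.PL Pool.Agent.NPC.Q224PL

/-- Propagation of the colors through one transition. -/
theorem prop_aux (A : Finset ℕ) (Xp : ℕ → Prop) (f g : ℕ → ℕ)
    (hg : ∀ i ∈ A, ∀ j ∈ A, g i = g j → i = j)
    (hk : ∀ j' ∈ A, ∃ j ∈ A, g j' = f j ∧ (Xp j' → Xp j) ∧ (Xp j ∨ j ≤ j')) :
    ∀ j' ∈ A, ¬ Xp j' → g j' = f j' := by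
  classical
  have himg : (A.filter Xp).image g = (A.filter Xp).image f := by
    apply Finset.eq_of_subset_of_card_le
    · intro y hy
      obtain ⟨j', hj', rfl⟩ := Finset.mem_image.1 hy
      rw [Finset.mem_filter] at hj'
      obtain ⟨j, hj, h1, h2, _⟩ := hk j' hj'.1
      rw [h1]
      exact Finset.mem_image_of_mem _ (Finset.mem_filter.2 ⟨hj, h2 hj'.2⟩)
    · have h1 : ((A.filter Xp).image g).card = (A.filter Xp).card := by
        apply Finset.card_image_of_injOn
        intro i hi j hj he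
        exact hg i (Finset.mem_filter.1 hi).1 j (Finset.mem_filter.1 hj).1 he
      rw [h1]
      exact Finset.card_image_le
  intro j'
  induction j' using Nat.strong_induction_on with
  | _ j' ih =>
    intro hj' hX
    obtain ⟨j, hj, h1, _, h3⟩ := hk j' hj'
    by_cases hXj : Xp j
    · exfalso
      have : f j ∈ (A.filter Xp).image g := by
        rw [himg]; exact Finset.mem_image_of_mem _ (Finset.mem_filter.2 ⟨hj, hXj⟩)
      obtain ⟨j'', hj'', h4⟩ := Finset.mem_image.1 this
      rw [Finset.mem_filter] at hj''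
      have := hg j'' hj''.1 j' hj' (by rw [h4, h1])
      rw [this] at hj''
      exact hX hj''.2
    · rcases h3 with h3 | h3
      · exact absurd h3 hXj
      · rcases Nat.eq_or_lt_of_le h3 with h4 | h4
        · rw [h4] at h1; exact h1
        · exfalso
          have h5 := ih j h4 hj hXj
          have := hg j hj j' hj' (by rw [h5, h1])
          omega

section

variable {K r : ℕ} {X : ℕ → ℕ → Bool} {π : ℕ → ℕ}

/-- The active tracks. -/
def AA (K : ℕ) (π : ℕ → ℕ) (s : ℕ) : Finset ℕ := (Finset.range K).filter (fun j => act K π s j = true)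

theorem mem_AA {s j : ℕ} : j ∈ AA K π s ↔ j < K ∧ act K π s j = true := by
  unfold AA; rw [Finset.mem_filter, Finset.mem_range]

theorem card_AA (hπ : ∀ j < K, π j < K) (hππ : ∀ j, π (π j) = j) {s : ℕ}
    (hs : s < 2 * K - 1) : (AA K π s).card = hh K s := by
  unfold hh
  rcases Nat.lt_or_ge s K with h | h
  · have : AA K π s = Finset.range (s + 1) := by
      ext j
      rw [mem_AA, act_iff, Finset.mem_range]
      constructor
      · rintro ⟨_, h1, _⟩; omega
      · intro hj
        have := hπ j (by omega)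
        exact ⟨by omega, by omega, by omega⟩
    rw [this, Finset.card_range]
    omega
  · have : AA K π s = (Finset.range (2 * K - 1 - s)).image π := by
      ext j
      rw [mem_AA, act_iff, Finset.mem_image]
      constructor
      · rintro ⟨_, _, h2⟩
        exact ⟨π j, Finset.mem_range.2 (by omega), hππ j⟩
      · rintro ⟨i, hi, rfl⟩
        rw [Finset.mem_range] at hi
        have := hπ i (by omega)
        rw [hππ]
        exact ⟨this, by omega, by omega⟩
    rw [this, Finset.card_image_of_injective _ (fun a b hab => by rw [← hππ a, hab, hππ]),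
      Finset.card_range]
    omega

/-- The colors of the rounds: what is forced. -/
structure Rnd (K r : ℕ) (X : ℕ → ℕ → Bool) (π : ℕ → ℕ) (f : ℕ → ℕ → ℕ) : Prop where
  lt : ∀ ρ j, ρ < (2 * K - 1) * MM K r → j ∈ AA K π (ρ / MM K r) → f ρ j < hh K (ρ / MM K r)
  inj : ∀ ρ i j, ρ < (2 * K - 1) * MM K r → i ∈ AA K π (ρ / MM K r) → j ∈ AA K π (ρ / MM K r) →
    f ρ i = f ρ j → i = j
  conf : ∀ ρ j j', ρ + 1 < (2 * K - 1) * MM K r → j ∈ AA K π (ρ / MM K r) →
    j' ∈ AA K π ((ρ + 1) / MM K r) → tr K r X π ρ j' < tr K r X π ρ j → f ρ j ≠ f (ρ + 1) j'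

/-- The forcing lemma. -/
theorem rnd_of_feas (hK : 1 ≤ K) (hπ : ∀ j < K, π j < K) (hππ : ∀ j, π (π j) = j)
    (h : FeasOn (vI K r π).toFinset (fun u v => u ≠ v ∧
      (RI K r X π u v = true ∨ RI K r X π v u = true)) (K * K)) :
    ∃ f, Rnd K r X π f := by
  classical
  obtain ⟨c, D, h1, h2, h3, h4⟩ := h
  set S := (vI K r π).toFinset with hS
  have hmem : ∀ w, w ∈ S ↔ w ∈ vI K r π := fun w => by rw [hS, List.mem_toFinset]
  have hM := MM_pos (K := K) (r := r)
  have hM3 : 3 * (K * K + 1) ≤ MM K r := by unfold MM; omega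
  have hsum : ∀ T : Finset W, T ⊆ S → (∀ w ∈ T, D w = true) → ∑ w ∈ T, c w ≤ K * K := by
    intro T hT hD
    refine le_trans ?_ h4
    calc ∑ w ∈ T, c w = ∑ w ∈ T, (if D w = true then c w else 0) :=
          Finset.sum_congr rfl fun w hw => by rw [if_pos (hD w hw)]
      _ ≤ _ := Finset.sum_le_sum_of_subset hT
  have hcard : ∀ T : Finset W, T ⊆ S → (∀ w ∈ T, D w = true) → T.card ≤ K * K := by
    intro T hT hD
    refine le_trans ?_ (hsum T hT hD)
    rw [Finset.card_eq_sum_ones]
    exact Finset.sum_le_sum fun w hw => Nat.one_le_iff_ne_zero.2 (h2 w (hT hw) (hD w hw))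
  -- a free triple of rounds
  have hfree : ∀ s, s < 2 * K - 1 → ∃ q, q < K * K + 1 ∧ ∀ w ∈ S, D w = true → w.1 = 1 →
      ¬ (s * MM K r + 3 * q ≤ w.2.2 ∧ w.2.2 < s * MM K r + 3 * q + 3) := by
    intro s hs
    by_contra hc
    push Not at hc
    choose! w hw1 hw2 hw3 hw4 hw5 using hc
    have := hcard ((Finset.range (K * K + 1)).image w)
      (fun v hv => by
        obtain ⟨a, ha, rfl⟩ := Finset.mem_image.1 hv
        exact hw1 a (Finset.mem_range.1 ha))
      (fun v hv => by
        obtain ⟨a, ha, rfl⟩ := Finset.mem_image.1 hv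
        exact hw2 a (Finset.mem_range.1 ha))
    rw [Finset.card_image_of_injOn, Finset.card_range] at this
    · omega
    · intro a ha b hb hab
      have ha' := Finset.mem_range.1 (Finset.mem_coe.1 ha)
      have hb' := Finset.mem_range.1 (Finset.mem_coe.1 hb)
      have e1 := hw4 a ha'
      have e2 := hw5 a ha'
      have e3 := hw4 b hb'
      have e4 := hw5 b hb'
      rw [hab] at e1 e2
      omega
  have hvert : ∀ j ρ, j < K → ρ < (2 * K - 1) * MM K r → act K π (ρ / MM K r) j = true →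
      ((1, j, ρ) : W) ∈ S := fun j ρ hj hρ ha =>
    (hmem _).2 (mem_vI.2 (Or.inr ⟨j, ρ, hj, hρ, ha, rfl⟩))
  have hround : ∀ s, s < 2 * K - 1 → s * MM K r + MM K r ≤ (2 * K - 1) * MM K r := by
    intro s hs
    have := Nat.mul_le_mul_right (MM K r) (Nat.succ_le_of_lt hs)
    rwa [Nat.succ_mul] at this
  -- the special vertices
  have hspec : ∀ s, s < 2 * K - 1 → D (0, s, 0) = true ∧ hh K s ≤ c (0, s, 0) := by
    intro s hs
    obtain ⟨q, hq, hfr⟩ := hfree s hs
    have hrs := hround s hs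
    have hρ : s * MM K r + 3 * q + 1 < (2 * K - 1) * MM K r := by omega
    have hsρ : (s * MM K r + 3 * q + 1) / MM K r = s := div_eq (by omega)
    have key : ∀ j ∈ AA K π s, D (0, s, 0) = true ∧
        c (1, j, s * MM K r + 3 * q + 1) < c (0, s, 0) := by
      intro j hj
      rw [mem_AA] at hj
      have hv := hvert j _ hj.1 hρ (by rw [hsρ]; exact hj.2)
      have hd : D (1, j, s * MM K r + 3 * q + 1) = false := by
        by_contra hc
        rw [Bool.not_eq_false] at hc
        exact hfr _ hv hc rfl ⟨by simp only; omega, by simp only; omega⟩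
      obtain ⟨u, hu, ⟨hne, hR⟩, hdu, hcu⟩ := h3 _ hv hd
      have hR' : RI K r X π u (1, j, s * MM K r + 3 * q + 1) = true := by
        rcases hR with h | h
        · rw [RI_comm]; exact h
        · exact h
      rcases mem_vI.1 ((hmem _).1 hu) with ⟨s', hs', rfl⟩ | ⟨j', ρ', hj', hρ', ha', rfl⟩
      · have := div_eq ((RI_u hj.1).1 hR')
        rw [hsρ] at this
        rw [← this] at hdu hcu
        exact ⟨hdu, hcu⟩
      · exfalso
        apply hfr _ hu hdu rfl
        simp only
        by_contra hc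
        rcases Nat.lt_or_ge ρ' (s * MM K r + 3 * q) with h | h
        · rw [RI_far hj' (by omega)] at hR'; cases hR'
        · rw [RI_comm, RI_far hj.1 (by omega)] at hR'; cases hR'
    have hne : (AA K π s).Nonempty := by
      rw [← Finset.card_pos, card_AA hπ hππ hs]
      unfold hh; omega
    obtain ⟨j0, hj0⟩ := hne
    refine ⟨(key j0 hj0).1, ?_⟩
    rw [← card_AA hπ hππ hs, ← Finset.card_range (c (0, s, 0))]
    apply Finset.card_le_card_of_injOn (fun j => c (1, j, s * MM K r + 3 * q + 1))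
    · intro j hj
      exact Finset.mem_coe.2 (Finset.mem_range.2 (key j (Finset.mem_coe.1 hj)).2)
    · intro i hi j hj he
      have hi' := mem_AA.1 (Finset.mem_coe.1 hi)
      have hj' := mem_AA.1 (Finset.mem_coe.1 hj)
      by_contra hne
      refine h1 _ (hvert i _ hi'.1 hρ (by rw [hsρ]; exact hi'.2)) _
        (hvert j _ hj'.1 hρ (by rw [hsρ]; exact hj'.2)) ⟨?_, Or.inl (RI_same hi'.1 hj'.1)⟩ he
      intro e
      exact hne (by simpa using e)
  have huS : ∀ s, s < 2 * K - 1 → ((0, s, 0) : W) ∈ S := fun s hs =>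
    (hmem _).2 (mem_vI.2 (Or.inl ⟨s, hs, rfl⟩))
  have hinj0 : Function.Injective (fun s => ((0, s, 0) : W)) := by
    intro x y hxy
    simpa using (Prod.mk.inj (Prod.mk.inj hxy).2).1
  -- the weights are tight
  have htight : ∀ T : Finset W, T ⊆ S → (∀ w ∈ T, D w = true) →
      (Finset.range (2 * K - 1)).image (fun s => ((0, s, 0) : W)) ⊆ T → ∑ w ∈ T, c w ≤ K * K :=
    fun T hT hD _ => hsum T hT hD
  have hbase : ∑ s ∈ Finset.range (2 * K - 1), c (0, s, 0) ≤ K * K := by
    have := hsum ((Finset.range (2 * K - 1)).image (fun s => ((0, s, 0) : W)))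
      (fun v hv => by
        obtain ⟨a, ha, rfl⟩ := Finset.mem_image.1 hv
        exact huS a (Finset.mem_range.1 ha))
      (fun v hv => by
        obtain ⟨a, ha, rfl⟩ := Finset.mem_image.1 hv
        exact (hspec a (Finset.mem_range.1 ha)).1)
    rwa [Finset.sum_image hinj0.injOn] at this
  have heq : ∀ s, s < 2 * K - 1 → c (0, s, 0) = hh K s := by
    intro s hs
    by_contra hne
    have hlt : ∑ s ∈ Finset.range (2 * K - 1), hh K s <
        ∑ s ∈ Finset.range (2 * K - 1), c (0, s, 0) := by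
      apply Finset.sum_lt_sum
      · intro i hi; exact (hspec i (Finset.mem_range.1 hi)).2
      · exact ⟨s, Finset.mem_range.2 hs, by
          have := (hspec s hs).2
          omega⟩
    rw [sum_hh] at hlt
    omega
  have hnoD : ∀ j ρ, ((1, j, ρ) : W) ∈ S → D (1, j, ρ) = false := by
    intro j ρ hv
    by_contra hc
    rw [Bool.not_eq_false] at hc
    have hnot : ((1, j, ρ) : W) ∉ (Finset.range (2 * K - 1)).image
        (fun s => ((0, s, 0) : W)) := by
      rw [Finset.mem_image]
      rintro ⟨s, _, hs⟩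
      simp at hs
    have := hsum (insert (1, j, ρ) ((Finset.range (2 * K - 1)).image
        (fun s => ((0, s, 0) : W))))
      (fun v hv' => by
        rcases Finset.mem_insert.1 hv' with rfl | hv'
        · exact hv
        · obtain ⟨a, ha, rfl⟩ := Finset.mem_image.1 hv'
          exact huS a (Finset.mem_range.1 ha))
      (fun v hv' => by
        rcases Finset.mem_insert.1 hv' with rfl | hv'
        · exact hc
        · obtain ⟨a, ha, rfl⟩ := Finset.mem_image.1 hv'
          exact (hspec a (Finset.mem_range.1 ha)).1)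
    rw [Finset.sum_insert hnot, Finset.sum_image hinj0.injOn] at this
    have e1 : ∑ s ∈ Finset.range (2 * K - 1), c (0, s, 0) = K * K := by
      rw [← sum_hh K]
      exact Finset.sum_congr rfl fun s hs => heq s (Finset.mem_range.1 hs)
    rw [e1] at this
    have := h2 _ hv hc
    omega
  refine ⟨fun ρ j => c (1, j, ρ), ?_, ?_, ?_⟩
  · intro ρ j hρ hj
    rw [mem_AA] at hj
    have hv := hvert j ρ hj.1 hρ hj.2
    obtain ⟨u, hu, ⟨hne, hR⟩, hdu, hcu⟩ := h3 _ hv (hnoD _ _ hv)
    have hR' : RI K r X π u (1, j, ρ) = true := by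
      rcases hR with h | h
      · rw [RI_comm]; exact h
      · exact h
    rcases mem_vI.1 ((hmem _).1 hu) with ⟨s', hs', rfl⟩ | ⟨j', ρ', hj', hρ', ha', rfl⟩
    · rw [div_eq ((RI_u hj.1).1 hR'), ← heq s' hs']
      exact hcu
    · rw [hnoD _ _ hu] at hdu; cases hdu
  · intro ρ i j hρ hi hj he
    rw [mem_AA] at hi hj
    by_contra hne
    refine h1 _ (hvert i _ hi.1 hρ hi.2) _ (hvert j _ hj.1 hρ hj.2)
      ⟨?_, Or.inl (RI_same hi.1 hj.1)⟩ he
    intro e
    exact hne (by simpa using e)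
  · intro ρ j j' hρ hj hj' ht
    rw [mem_AA] at hj hj'
    refine h1 _ (hvert j _ hj.1 (by omega) hj.2) _ (hvert j' _ hj'.1 hρ hj'.2)
      ⟨by simp, Or.inl ((RI_next hj.1).2 ht)⟩

theorem div_mono' {ρ ρ' : ℕ} (h : ρ ≤ ρ') : ρ / MM K r ≤ ρ' / MM K r := Nat.div_le_div_right h

theorem div_lt' {ρ : ℕ} (h : ρ < (2 * K - 1) * MM K r) : ρ / MM K r < 2 * K - 1 :=
  Nat.div_lt_of_lt_mul (by rw [Nat.mul_comm]; exact h)

theorem div_next (ρ : ℕ) : (ρ + 1) / MM K r = ρ / MM K r ∨ (ρ + 1) / MM K r = ρ / MM K r + 1 := by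
  have h1 := div_spec (K := K) (r := r) ρ
  rcases Nat.lt_or_ge (ρ + 1) (ρ / MM K r * MM K r + MM K r) with h | h
  · left
    exact div_eq ⟨by omega, h⟩
  · right
    apply div_eq
    rw [Nat.succ_mul]
    have := MM_pos (K := K) (r := r)
    omega

theorem Rnd.surj {f : ℕ → ℕ → ℕ} (hf : Rnd K r X π f) (hπ : ∀ j < K, π j < K)
    (hππ : ∀ j, π (π j) = j) {ρ : ℕ} (hρ : ρ < (2 * K - 1) * MM K r) {y : ℕ}
    (hy : y < hh K (ρ / MM K r)) : ∃ j ∈ AA K π (ρ / MM K r), f ρ j = y := by
  classical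
  have himg : (AA K π (ρ / MM K r)).image (f ρ) = Finset.range (hh K (ρ / MM K r)) := by
    apply Finset.eq_of_subset_of_card_le
    · intro z hz
      obtain ⟨j, hj, rfl⟩ := Finset.mem_image.1 hz
      exact Finset.mem_range.2 (hf.lt ρ j hρ hj)
    · rw [Finset.card_range, Finset.card_image_of_injOn (fun i hi j hj he =>
        hf.inj ρ i j hρ hi hj he), card_AA hπ hππ (div_lt' hρ)]
  have : y ∈ (AA K π (ρ / MM K r)).image (f ρ) := by
    rw [himg]; exact Finset.mem_range.2 hy
  exact Finset.mem_image.1 this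

/-- Being moved in the transition after the round `ρ`. -/
def Mid (K r : ℕ) (X : ℕ → ℕ → Bool) (ρ j : ℕ) : Prop :=
  (K - 1) * MM K r ≤ ρ ∧ ρ - (K - 1) * MM K r < r ∧ X (ρ - (K - 1) * MM K r) j = true

theorem tr_both {ρ j : ℕ} (h1 : j ∈ AA K π (ρ / MM K r)) (h2 : j ∈ AA K π ((ρ + 1) / MM K r)) :
    (Mid K r X ρ j ∧ tr K r X π ρ j = 1) ∨ (¬ Mid K r X ρ j ∧ tr K r X π ρ j = j + 2) := by
  rw [mem_AA] at h1 h2
  unfold tr
  rw [if_pos h1.2, if_pos h2.2]
  by_cases hm : Mid K r X ρ j
  · left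
    refine ⟨hm, if_pos ?_⟩
    simp only [Bool.and_eq_true, decide_eq_true_eq]
    exact hm
  · right
    refine ⟨hm, if_neg ?_⟩
    simp only [Bool.and_eq_true, decide_eq_true_eq]
    exact hm

theorem tr_birth {ρ j : ℕ} (h1 : j ∉ AA K π (ρ / MM K r)) (hj : j < K) :
    tr K r X π ρ j = 0 := by
  rw [mem_AA] at h1
  unfold tr
  rw [if_neg]
  intro h
  exact h1 ⟨hj, h⟩

theorem tr_death {ρ j : ℕ} (h1 : j ∈ AA K π (ρ / MM K r)) (h2 : j ∉ AA K π ((ρ + 1) / MM K r)) :
    tr K r X π ρ j = K + 2 := by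
  rw [mem_AA] at h1 h2
  unfold tr
  rw [if_pos h1.2, if_neg]
  intro h
  exact h2 ⟨h1.1, h⟩

/-- What happens in one transition. -/
theorem Rnd.step {f : ℕ → ℕ → ℕ} (hf : Rnd K r X π f) (hπ : ∀ j < K, π j < K)
    (hππ : ∀ j, π (π j) = j) {ρ : ℕ} (hρ : ρ + 1 < (2 * K - 1) * MM K r) :
    (∀ j, j ∈ AA K π (ρ / MM K r) → j ∈ AA K π ((ρ + 1) / MM K r) → ¬ Mid K r X ρ j →
      f (ρ + 1) j = f ρ j) ∧
    (∀ j, j ∉ AA K π (ρ / MM K r) → j ∈ AA K π ((ρ + 1) / MM K r) →
      f (ρ + 1) j = (ρ + 1) / MM K r ∧ j = (ρ + 1) / MM K r) := by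
  have hρ0 : ρ < (2 * K - 1) * MM K r := by omega
  have hs1 := div_lt' hρ0
  have hs2 := div_lt' hρ
  -- new tracks
  have hnew : ∀ j, j ∉ AA K π (ρ / MM K r) → j ∈ AA K π ((ρ + 1) / MM K r) →
      (f (ρ + 1) j = (ρ + 1) / MM K r ∧ j = (ρ + 1) / MM K r) ∧
        (ρ + 1) / MM K r = ρ / MM K r + 1 ∧ (ρ + 1) / MM K r < K := by
    intro j hj hj'
    have hjK := (mem_AA.1 hj').1
    have hc : ∀ i ∈ AA K π (ρ / MM K r), f ρ i ≠ f (ρ + 1) j := by
      intro i hi
      apply hf.conf ρ i j hρ hi hj'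
      rw [tr_birth hj hjK]
      by_cases hi' : i ∈ AA K π ((ρ + 1) / MM K r)
      · rcases tr_both (X := X) hi hi' with h | h
        · rw [h.2]; omega
        · rw [h.2]; omega
      · rw [tr_death hi hi']; omega
    have hge : hh K (ρ / MM K r) ≤ f (ρ + 1) j := by
      by_contra hlt
      obtain ⟨i, hi, he⟩ := hf.surj hπ hππ hρ0 (not_le.1 hlt)
      exact hc i hi he
    have hlt := hf.lt (ρ + 1) j hρ hj'
    have ha := (mem_AA.1 hj').2
    rw [act_iff] at ha
    have hna : ¬ (j ≤ ρ / MM K r ∧ π j + ρ / MM K r + 2 ≤ 2 * K) := by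
      rw [← act_iff]; intro h; exact hj (mem_AA.2 ⟨hjK, h⟩)
    rcases div_next (K := K) (r := r) ρ with h | h
    · rw [h] at ha; exact absurd ha hna
    · rw [h] at ha hlt ⊢
      unfold hh at hge hlt
      have hj2 : j = ρ / MM K r + 1 := by omega
      refine ⟨⟨by omega, hj2⟩, rfl, by omega⟩
  refine ⟨?_, fun j hj hj' => (hnew j hj hj').1⟩
  intro j0 hj0 hj0'
  have key := prop_aux (AA K π (ρ / MM K r) ∩ AA K π ((ρ + 1) / MM K r)) (Mid K r X ρ) (f ρ)
    (f (ρ + 1)) (fun i hi j hj he => hf.inj (ρ + 1) i j hρ (Finset.mem_inter.1 hi).2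
      (Finset.mem_inter.1 hj).2 he) ?_ j0 (Finset.mem_inter.2 ⟨hj0, hj0'⟩)
  · exact key
  · intro j' hj'
    obtain ⟨hj1, hj2⟩ := Finset.mem_inter.1 hj'
    have hlt : f (ρ + 1) j' < hh K (ρ / MM K r) := by
      have h1 := hf.lt (ρ + 1) j' hρ hj2
      by_cases hex : ∃ i, i ∉ AA K π (ρ / MM K r) ∧ i ∈ AA K π ((ρ + 1) / MM K r)
      · obtain ⟨i, hi, hi'⟩ := hex
        obtain ⟨⟨h2, h3⟩, h4, h5⟩ := hnew i hi hi'
        have hne : f (ρ + 1) j' ≠ f (ρ + 1) i := by
          intro he
          have := hf.inj (ρ + 1) j' i hρ hj2 hi' he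
          rw [this] at hj1
          exact hi hj1
        rw [h2] at hne
        rw [h4] at h1 hne h5
        unfold hh at h1 ⊢
        omega
      · push Not at hex
        have hsub : AA K π ((ρ + 1) / MM K r) ⊆ AA K π (ρ / MM K r) := by
          intro i hi
          by_contra hc
          exact hex i hc hi
        have := Finset.card_le_card hsub
        rw [card_AA hπ hππ hs1, card_AA hπ hππ hs2] at this
        omega
    obtain ⟨j, hj, he⟩ := hf.surj hπ hππ hρ0 hlt
    have hnc : ¬ (tr K r X π ρ j' < tr K r X π ρ j) := fun ht => hf.conf ρ j j' hρ hj hj2 ht he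
    have hjK := (mem_AA.1 hj1).1
    have hjA : j ∈ AA K π ((ρ + 1) / MM K r) := by
      by_contra hc
      apply hnc
      rw [tr_death hj hc]
      rcases tr_both (X := X) hj1 hj2 with h | h
      · rw [h.2]; omega
      · rw [h.2]; omega
    refine ⟨j, Finset.mem_inter.2 ⟨hj, hjA⟩, he.symm, ?_, ?_⟩
    · intro hm
      rcases tr_both (X := X) hj1 hj2 with h | h
      · rcases tr_both (X := X) hj hjA with h' | h'
        · exact h'.1
        · exfalso; apply hnc; rw [h.2, h'.2]; omega
      · exact absurd hm h.1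
    · rcases tr_both (X := X) hj hjA with h' | h'
      · exact Or.inl h'.1
      · rcases tr_both (X := X) hj1 hj2 with h | h
        · exfalso; apply hnc; rw [h.2, h'.2]; omega
        · right; omega

theorem track_of_rnd (hK : 1 ≤ K) (hπ : ∀ j < K, π j < K) (hππ : ∀ j, π (π j) = j)
    {f : ℕ → ℕ → ℕ} (hf : Rnd K r X π f) : TrackSol K r X π := by
  have hM := MM_pos (K := K) (r := r)
  have hMr : r + 3 ≤ MM K r := by unfold MM; nlinarith [Nat.zero_le (K * K)]
  have hT : K * MM K r ≤ (2 * K - 1) * MM K r := Nat.mul_le_mul_right _ (by omega)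
  have hKM : K * MM K r = (K - 1) * MM K r + MM K r := by
    rw [← Nat.succ_mul]; congr 1; omega
  -- the left part
  have hleft : ∀ ρ, ρ ≤ (K - 1) * MM K r → ∀ j ∈ AA K π (ρ / MM K r), f ρ j = j := by
    intro ρ
    induction ρ with
    | zero =>
      intro _ j hj
      have h1 := hf.lt 0 j (by omega) hj
      rw [Nat.zero_div, mem_AA, act_iff] at hj
      rw [Nat.zero_div] at h1
      unfold hh at h1
      omega
    | succ ρ ih =>
      intro hρ j hj
      obtain ⟨h1, h2⟩ := hf.step hπ hππ (ρ := ρ) (by omega)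
      by_cases hj' : j ∈ AA K π (ρ / MM K r)
      · rw [h1 j hj' hj (fun hm => by have := hm.1; omega)]
        exact ih (by omega) j hj'
      · obtain ⟨h3, h4⟩ := h2 j hj' hj
        rw [h3, ← h4]
  have hmid : ∀ k, k < MM K r → ((K - 1) * MM K r + k) / MM K r = K - 1 := fun k hk =>
    div_eq ⟨by omega, by omega⟩
  have hAmid : ∀ j, j < K → j ∈ AA K π (K - 1) := by
    intro j hj
    rw [mem_AA, act_iff]
    have := hπ j hj
    exact ⟨hj, by omega, by omega⟩
  have hhmid : hh K (K - 1) = K := by unfold hh; omega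
  refine ⟨fun k j => f ((K - 1) * MM K r + k) j, ?_, ?_, ?_, ?_, ?_⟩
  · intro j hj
    simp only [Nat.add_zero]
    exact hleft _ le_rfl j (by rw [show (K - 1) * MM K r / MM K r = K - 1 from hmid 0 hM]
                               exact hAmid j hj)
  · intro k hk j hj
    have := hf.lt ((K - 1) * MM K r + k) j (by omega) (by rw [hmid k (by omega)]; exact hAmid j hj)
    rwa [hmid k (by omega), hhmid] at this
  · intro k hk i hi j hj he
    exact hf.inj ((K - 1) * MM K r + k) i j (by omega)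
      (by rw [hmid k (by omega)]; exact hAmid i hi) (by rw [hmid k (by omega)]; exact hAmid j hj) he
  · intro k hk j hj hX
    have h1 := (hf.step hπ hππ (ρ := (K - 1) * MM K r + k) (by omega)).1 j
      (by rw [hmid k (by omega)]; exact hAmid j hj)
      (by rw [Nat.add_assoc, hmid (k + 1) (by omega)]; exact hAmid j hj) (by
        intro hm
        have := hm.2.2
        rw [show (K - 1) * MM K r + k - (K - 1) * MM K r = k by omega, hX] at this
        cases this)
    rw [Nat.add_assoc] at h1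
    exact h1
  · intro y hy
    -- the right part
    have hright : ∀ ρ, (K - 1) * MM K r + r ≤ ρ → ρ < (2 * K - 1) * MM K r →
        ∀ j ∈ AA K π (ρ / MM K r), f ρ j = f ((K - 1) * MM K r + r) j := by
      intro ρ hρ
      induction ρ, hρ using Nat.le_induction with
      | base => intro _ j _; rfl
      | succ ρ hρ ih =>
        intro hT' j hj
        obtain ⟨h1, h2⟩ := hf.step hπ hππ (ρ := ρ) hT'
        have hs : K - 1 ≤ ρ / MM K r := by
          rw [← hmid r (by omega)]; exact div_mono' hρ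
        have hj' : j ∈ AA K π (ρ / MM K r) := by
          rw [mem_AA, act_iff] at hj ⊢
          have := div_mono' (K := K) (r := r) (Nat.le_succ ρ)
          simp only [Nat.succ_eq_add_one] at this
          exact ⟨hj.1, by omega, by omega⟩
        rw [h1 j hj' hj (fun hm => by have := hm.2.1; omega)]
        exact ih (by omega) j hj'
    have hs2 : (2 * K - 2 - y) * MM K r + MM K r ≤ (2 * K - 1) * MM K r := by
      rw [← Nat.succ_mul]; exact Nat.mul_le_mul_right _ (by omega)
    have hs1 : (K - 1) * MM K r ≤ (2 * K - 2 - y) * MM K r := Nat.mul_le_mul_right _ (by omega)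
    obtain ⟨ρ, hρ⟩ : ∃ ρ, ρ + 1 = (2 * K - 2 - y) * MM K r + MM K r :=
      ⟨(2 * K - 2 - y) * MM K r + MM K r - 1, by omega⟩
    have hdiv : ρ / MM K r = 2 * K - 2 - y := div_eq (by omega)
    have hyA : π y ∈ AA K π (ρ / MM K r) := by
      rw [hdiv, mem_AA, act_iff, hππ]
      have := hπ y hy
      exact ⟨this, by omega, by omega⟩
    obtain ⟨j, hj, he⟩ := hf.surj hπ hππ (ρ := ρ) (by omega) (y := y) (by
      rw [hdiv]; unfold hh; omega)
    have hjy : j = π y := by
      by_contra hne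
      have hj1 := hj
      rw [hdiv, mem_AA, act_iff] at hj1
      have hne' : π j ≠ y := fun e => hne (by rw [← e, hππ])
      have hy0 : 0 < y := by omega
      have hρT : ρ + 1 < (2 * K - 1) * MM K r := by
        have : (2 * K - 2 - y + 1) * MM K r + MM K r ≤ (2 * K - 1) * MM K r := by
          rw [← Nat.succ_mul]; exact Nat.mul_le_mul_right _ (by omega)
        rw [Nat.succ_mul] at this
        omega
      have hdiv2 : (ρ + 1) / MM K r = 2 * K - 2 - y + 1 := by
        apply div_eq
        rw [Nat.succ_mul]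
        omega
      have hjA : j ∈ AA K π ((ρ + 1) / MM K r) := by
        rw [hdiv2, mem_AA, act_iff]
        exact ⟨hj1.1, by omega, by omega⟩
      have h5 := (hf.step hπ hππ (ρ := ρ) hρT).1 j hj hjA
        (fun hm => by have := hm.2.1; omega)
      have h6 := hf.lt (ρ + 1) j hρT hjA
      rw [h5, he, hdiv2] at h6
      unfold hh at h6
      omega
    change f ((K - 1) * MM K r + r) (π y) = y
    rw [← hjy, ← hright ρ (by omega) (by omega) j hj, he]

end

end Pool.Agent.NPC.Q224UC
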