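import Pool.Agent.Q224.UC.Intv2

/-!
# The reduction to interval graphs
-/

set_option autoImplicit false

namespace Pool.Agent.NPC.Q224UC

open _root_.Q224.UC _root_.Q224.PL Pool.Agent.NPC.Q224PL

/-- The instance. -/
def redI (φ : List Cl3) : (List ℕ × List (ℕ × ℕ)) × ℕ :=
  (code (vI (20 * φ.length) (14 * φ.length + 1) (pp φ))
    (RI (20 * φ.length) (14 * φ.length + 1) (XX φ) (pp φ)), (20 * φ.length) * (20 * φ.length))

theorem redI_iff {φ : List Cl3} (hb : Bounded3 φ) (hne : φ ≠ []) :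
    SAT3 φ ↔ OmegaUC (cG (redI φ).1) ≤ (redI φ).2 := by
  have hm : 1 ≤ φ.length := List.length_pos_iff.2 hne
  unfold redI
  rw [omega_code_iff]
  constructor
  · intro h
    exact feas_of_track (by omega) (fun j hj => pp_lt hj) (pp_pp φ) (track_of_sat hb h)
  · intro h
    obtain ⟨f, hf⟩ := rnd_of_feas (by omega) (fun j hj => pp_lt hj) (pp_pp φ) h
    exact sat_of_track hb (track_of_rnd (by omega) (fun j hj => pp_lt hj) (pp_pp φ) hf)

theorem interval_redI (φ : List Cl3) : IsInterval (cG (redI φ).1) := by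
  set K := 20 * φ.length with hK
  set r := 14 * φ.length + 1 with hr
  have hlr : ∀ w ∈ vI K r (pp φ), lI K r (XX φ) (pp φ) w ≤ rI K r (XX φ) (pp φ) w := by
    intro w hw
    rcases mem_vI.1 hw with ⟨s, hs, rfl⟩ | ⟨j, ρ, hj, hρ, ha, rfl⟩
    · unfold lI rI
      simp only [if_true]
      have hM := MM_pos (K := K) (r := r)
      have h5 : (K + 4) * (s * MM K r) ≤ (K + 4) * (s * MM K r + MM K r - 1) :=
        Nat.mul_le_mul_left _ (by omega)
      omega
    · have := RI_same (r := r) (X := XX φ) (π := pp φ) (ρ := ρ) hj hj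
      unfold RI at this
      rw [Bool.and_eq_true, decide_eq_true_eq] at this
      exact this.1
  refine ⟨fun v => ((lI K r (XX φ) (pp φ) (un v.1) : ℕ) : ℝ),
    fun v => ((rI K r (XX φ) (pp φ) (un v.1) : ℕ) : ℝ), ?_, ?_⟩
  · rintro ⟨v, hv⟩
    obtain ⟨w, hw, rfl⟩ := List.mem_map.1 (show v ∈ (vI K r (pp φ)).map nm from hv)
    simp only [un_nm]
    exact Nat.cast_le.2 (hlr w hw)
  · rintro ⟨u, hu⟩ ⟨v, hv⟩
    obtain ⟨w, hw, rfl⟩ := List.mem_map.1 (show u ∈ (vI K r (pp φ)).map nm from hu)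
    obtain ⟨w', hw', rfl⟩ := List.mem_map.1 (show v ∈ (vI K r (pp φ)).map nm from hv)
    have h1 := cG_adj (redI φ).1 ⟨nm w, hu⟩ ⟨nm w', hv⟩
    have h2 := adj_code (R := RI K r (XX φ) (pp φ)) hw hw'
    rw [h1]
    simp only [un_nm]
    rw [icc_inter (Nat.cast_le.2 (hlr w hw)) (Nat.cast_le.2 (hlr w' hw'))]
    change adj (code (vI K r (pp φ)) (RI K r (XX φ) (pp φ))).2 (nm w) (nm w') = true ↔ _
    rw [h2]
    unfold RI
    simp only [Bool.and_eq_true, decide_eq_true_eq, ne_eq, Subtype.mk.injEq, nm_inj.eq_iff,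
      Nat.cast_le]
    tauto

section

variable {α : Type} [TEnc α]

@[fun_prop]
theorem p_litj {c : α → Cl3} {j : α → ℕ} (hc : Poly c) (hj : Poly j) :
    Poly (fun a => litj (c a) (j a)) := by
  unfold litj
  fun_prop

@[fun_prop]
theorem p_lw {φ : α → List Cl3} {i j : α → ℕ} (hφ : Poly φ) (hi : Poly i) (hj : Poly j) :
    Poly (fun a => lw (φ a) (i a) (j a)) := by
  unfold lw
  have h : Poly (fun a => ((φ a)[i a]?).map
      (fun c => 6 * (φ a).length + 2 * (litj c (j a)).2 + bt (litj c (j a)).1)) := by fun_prop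
  exact Poly.optGetD h (Poly.const 0)

@[fun_prop]
theorem p_XX {φ : α → List Cl3} {k y : α → ℕ} (hφ : Poly φ) (hk : Poly k) (hy : Poly y) :
    Poly (fun a => XX (φ a) (k a) (y a)) := by
  unfold XX
  fun_prop

@[fun_prop]
theorem p_pp {φ : α → List Cl3} {y : α → ℕ} (hφ : Poly φ) (hy : Poly y) :
    Poly (fun a => pp (φ a) (y a)) := by
  unfold pp
  fun_prop

@[fun_prop]
theorem p_act {φ : α → List Cl3} {s j : α → ℕ} (hφ : Poly φ) (hs : Poly s) (hj : Poly j) :
    Poly (fun a => act (20 * (φ a).length) (pp (φ a)) (s a) (j a)) := by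
  unfold act
  fun_prop

@[fun_prop]
theorem p_tr {φ : α → List Cl3} {s j : α → ℕ} (hφ : Poly φ) (hs : Poly s) (hj : Poly j) :
    Poly (fun a => tr (20 * (φ a).length) (14 * (φ a).length + 1) (XX (φ a)) (pp (φ a)) (s a)
      (j a)) := by
  unfold tr MM
  fun_prop

@[fun_prop]
theorem p_RI {φ : α → List Cl3} {u v : α → W} (hφ : Poly φ) (hu : Poly u) (hv : Poly v) :
    Poly (fun a => RI (20 * (φ a).length) (14 * (φ a).length + 1) (XX (φ a)) (pp (φ a)) (u a)
      (v a)) := by
  unfold RI lI rI MM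
  fun_prop

theorem p_vI : Poly (fun φ : List Cl3 => vI (20 * φ.length) (14 * φ.length + 1) (pp φ)) := by
  unfold vI
  have hm : UPoly (fun φ : List Cl3 => φ.length) := UPoly.length Poly.id
  have hK : UPoly (fun φ : List Cl3 => 20 * φ.length) := UPoly.mul (UPoly.const 20) hm
  have h2K : UPoly (fun φ : List Cl3 => 2 * (20 * φ.length) - 1) :=
    UPoly.of_le (n := fun φ => 2 * (20 * φ.length)) (by fun_prop) (UPoly.mul (UPoly.const 2) hK)
      (fun _ => Nat.sub_le _ _)
  have hM : UPoly (fun φ : List Cl3 => MM (20 * φ.length) (14 * φ.length + 1)) :=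
    UPoly.add (UPoly.mul (UPoly.const 3) (UPoly.add (UPoly.mul hK hK) (UPoly.const 1)))
      (UPoly.add (UPoly.mul (UPoly.const 14) hm) (UPoly.const 1))
  have hT : Poly (fun φ : List Cl3 => List.range ((2 * (20 * φ.length) - 1) *
      MM (20 * φ.length) (14 * φ.length + 1))) := (UPoly.mul h2K hM).range
  refine Poly.append (Poly.map (F := fun _ s => ((0, s, 0) : W)) h2K.range (by fun_prop)) ?_
  refine Poly.flatMap (F := fun (φ : List Cl3) j => ((List.range ((2 * (20 * φ.length) - 1) *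
    MM (20 * φ.length) (14 * φ.length + 1))).filter (fun ρ => act (20 * φ.length) (pp φ)
      (ρ / MM (20 * φ.length) (14 * φ.length + 1)) j)).map (fun ρ => ((1, j, ρ) : W))) hK.range ?_
  refine Poly.map (l := fun p : List Cl3 × ℕ => (List.range ((2 * (20 * p.1.length) - 1) *
    MM (20 * p.1.length) (14 * p.1.length + 1))).filter (fun ρ => act (20 * p.1.length) (pp p.1)
      (ρ / MM (20 * p.1.length) (14 * p.1.length + 1)) p.2)) (F := fun p ρ => ((1, p.2, ρ) : W)) ?_
      (by fun_prop)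
  refine Poly.filter (l := fun p : List Cl3 × ℕ => List.range ((2 * (20 * p.1.length) - 1) *
    MM (20 * p.1.length) (14 * p.1.length + 1))) (p := fun p ρ => act (20 * p.1.length) (pp p.1)
      (ρ / MM (20 * p.1.length) (14 * p.1.length + 1)) p.2) (hT.comp (Poly.fst Poly.id)) ?_
  unfold MM
  fun_prop

theorem p_redI : Poly redI := by
  unfold redI
  exact Poly.pair (p_code p_vI (by fun_prop)) (by fun_prop)

end

/-- UCW for interval graphs is NP-complete. -/
theorem complete_interval : UCWComplete (fun G => IsInterval G) := by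
  refine ⟨inNPP_UCW inNPP_int, ?_⟩
  intro L hL
  obtain ⟨f, hf, hpr, h⟩ := (hardPr_SAT3b.trans (Pr' := fun y : (List ℕ × List (ℕ × ℕ)) × ℕ =>
    IsInterval (cG y.1) ∧ 1 ≤ y.2) (Q := fun y => OmegaUC (cG y.1) ≤ y.2) p_redI
    (fun φ hφ => ⟨interval_redI φ, by
      have hm : 1 ≤ φ.length := List.length_pos_iff.2 hφ.2.2
      unfold redI
      simp only
      exact Nat.mul_pos (by omega) (by omega)⟩)
    (fun φ hφ => redI_iff hφ.2.1 hφ.2.2)) L hL
  exact ⟨f, PC.toPolyTime hf, hpr, h⟩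

end Pool.Agent.NPC.Q224UC
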