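import Pool.Agent.Q224.UC.Basic
import Pool.Agent.Q224.PL.Time
import Pool.Agent.H578R2.Med.NPClos

/-!
# Membership in NP
-/

set_option autoImplicit false

namespace Pool.Agent.NPC.Q224UC

open _root_.Q224.UC _root_.Q224.PL Pool.Agent.NPC.Q224PL

variable {α : Type} [TEnc α]

/-- The distinct elements of a list. -/
def dd (V : List ℕ) : List ℕ := V.foldl (fun acc v => if v ∈ acc then acc else v :: acc) []

theorem dd_aux (V : List ℕ) : ∀ acc : List ℕ, acc.Nodup →
    (V.foldl (fun acc v => if v ∈ acc then acc else v :: acc) acc).Nodup ∧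
    ∀ v, v ∈ V.foldl (fun acc v => if v ∈ acc then acc else v :: acc) acc ↔ v ∈ acc ∨ v ∈ V := by
  induction V with
  | nil => intro acc h; simp [h]
  | cons a V ih =>
    intro acc h
    rw [List.foldl_cons]
    by_cases ha : a ∈ acc
    · rw [if_pos ha]
      obtain ⟨h1, h2⟩ := ih acc h
      refine ⟨h1, fun v => ?_⟩
      rw [h2, List.mem_cons]
      constructor
      · rintro (h | h) <;> simp [h]
      · rintro (h | rfl | h)
        · exact Or.inl h
        · exact Or.inl ha
        · exact Or.inr h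
    · rw [if_neg ha]
      obtain ⟨h1, h2⟩ := ih (a :: acc) (List.nodup_cons.2 ⟨ha, h⟩)
      refine ⟨h1, fun v => ?_⟩
      rw [h2, List.mem_cons, List.mem_cons]
      tauto

theorem dd_nodup (V : List ℕ) : (dd V).Nodup := (dd_aux V [] List.nodup_nil).1

theorem mem_dd {V : List ℕ} {v : ℕ} : v ∈ dd V ↔ v ∈ V := by
  unfold dd
  rw [(dd_aux V [] List.nodup_nil).2]
  simp

theorem dd_toFinset (V : List ℕ) : (dd V).toFinset = V.toFinset := by
  ext v; simp [mem_dd]

theorem sum_dd (V : List ℕ) (g : ℕ → ℕ) : ((dd V).map g).sum = ∑ v ∈ V.toFinset, g v := by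
  rw [← dd_toFinset, List.sum_toFinset _ (dd_nodup V)]

theorem foldl_dd_sz (V : List ℕ) : ∀ acc : List ℕ,
    sz (V.foldl (fun acc v => if v ∈ acc then acc else v :: acc) acc) ≤ sz acc + sz V := by
  induction V with
  | nil => intro acc; simp
  | cons a V ih =>
    intro acc
    rw [List.foldl_cons]
    refine (ih _).trans ?_
    split_ifs
    · rw [sz_list_cons]; omega
    · rw [sz_list_cons, sz_list_cons]; omega

theorem sz_take_le' {β : Type} [TEnc β] (l : List β) (k : ℕ) : sz (l.take k) ≤ sz l := by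
  induction l generalizing k with
  | nil => simp
  | cons b l ih =>
    cases k with
    | zero => simp
    | succ k =>
      have := ih k
      rw [List.take_succ_cons, sz_list_cons, sz_list_cons]; omega

@[fun_prop]
theorem p_dd {V : α → List ℕ} (hV : Poly V) : Poly (fun a => dd (V a)) := by
  unfold dd
  obtain ⟨p, hp⟩ := hV.sz_le
  refine Poly.foldl (F := fun _ acc v => if v ∈ acc then acc else v :: acc) hV (Poly.const [])
    (by fun_prop) (p + 1) ?_
  intro a k _
  refine (foldl_dd_sz _ _).trans ?_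
  rw [Polynomial.eval_add, Polynomial.eval_one, sz_list_nil]
  have := sz_take_le' (V a) k
  have := hp a
  omega

/-- Look up the datum of `v`. -/
def lk {β : Type} (w : List (ℕ × β)) (d : β) (v : ℕ) : β :=
  ((w.filter (fun e => decide (e.1 = v))).head?.map (fun e => e.2)).getD d

theorem lk_map {β : Type} (V : List ℕ) (f : ℕ → β) (d : β) {v : ℕ} (hv : v ∈ V) :
    lk (V.map (fun v => (v, f v))) d v = f v := by
  unfold lk
  rcases h : ((V.map (fun v => (v, f v))).filter (fun e => decide (e.1 = v))).head? with _ | e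
  · exfalso
    rw [List.head?_eq_none_iff] at h
    have : (v, f v) ∈ (V.map (fun v => (v, f v))).filter (fun e => decide (e.1 = v)) := by
      rw [List.mem_filter]
      exact ⟨List.mem_map.2 ⟨v, hv, rfl⟩, by simp⟩
    rw [h] at this
    exact absurd this List.not_mem_nil
  · have := List.mem_of_mem_head? h
    rw [List.mem_filter, List.mem_map] at this
    obtain ⟨⟨u, hu, rfl⟩, h2⟩ := this
    simp only [decide_eq_true_eq] at h2
    subst h2
    rw [h]
    rfl

@[fun_prop]
theorem p_lk {β : Type} [TEnc β] {w : α → List (ℕ × β)} {d : α → β} {v : α → ℕ} (hw : Poly w)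
    (hd : Poly d) (hv : Poly v) : Poly (fun a => lk (w a) (d a) (v a)) := by
  unfold lk
  fun_prop

/-! ### the weight -/

/-- The certificate test for the weight. -/
def testW (y : ((List ℕ × List (ℕ × ℕ)) × ℕ) × List (ℕ × (ℕ × Bool))) : Bool :=
  (y.1.1.1.all (fun u => y.1.1.1.all (fun v => !adj y.1.1.2 u v ||
    !decide ((lk y.2 (0, false) u).1 = (lk y.2 (0, false) v).1)))) &&
  (y.1.1.1.all (fun v => !(lk y.2 (0, false) v).2 || !decide ((lk y.2 (0, false) v).1 = 0))) &&
  (y.1.1.1.all (fun v => (lk y.2 (0, false) v).2 || y.1.1.1.any (fun u => adj y.1.1.2 v u &&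
    (lk y.2 (0, false) u).2 && decide ((lk y.2 (0, false) v).1 < (lk y.2 (0, false) u).1)))) &&
  decide (((dd y.1.1.1).map (fun v => if (lk y.2 (0, false) v).2 = true then
    (lk y.2 (0, false) v).1 else 0)).sum ≤ y.1.2)

theorem p_testW : Poly testW := by
  unfold testW
  fun_prop

theorem testW_iff (x : List ℕ × List (ℕ × ℕ)) (k : ℕ) (w : List (ℕ × (ℕ × Bool))) :
    testW ((x, k), w) = true ↔
      (∀ u ∈ x.1.toFinset, ∀ v ∈ x.1.toFinset, adj x.2 u v = true →
        (lk w (0, false) u).1 ≠ (lk w (0, false) v).1) ∧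
      (∀ v ∈ x.1.toFinset, (lk w (0, false) v).2 = true → (lk w (0, false) v).1 ≠ 0) ∧
      (∀ v ∈ x.1.toFinset, (lk w (0, false) v).2 = false → ∃ u ∈ x.1.toFinset, adj x.2 v u = true ∧
        (lk w (0, false) u).2 = true ∧ (lk w (0, false) v).1 < (lk w (0, false) u).1) ∧
      ∑ v ∈ x.1.toFinset, (if (lk w (0, false) v).2 = true then (lk w (0, false) v).1 else 0)
        ≤ k := by
  unfold testW
  simp only [Bool.and_eq_true, List.all_eq_true, List.any_eq_true, Bool.or_eq_true,
    Bool.not_eq_true', decide_eq_true_eq, decide_eq_false_iff_not, sum_dd, List.mem_toFinset]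
  constructor
  · rintro ⟨⟨⟨h1, h2⟩, h3⟩, h4⟩
    refine ⟨fun u hu v hv ha => ?_, fun v hv hd => ?_, fun v hv hd => ?_, h4⟩
    · rcases h1 u hu v hv with h | h
      · rw [ha] at h; cases h
      · exact h
    · rcases h2 v hv with h | h
      · rw [hd] at h; cases h
      · exact h
    · rcases h3 v hv with h | ⟨u, hu, ⟨h5, h6⟩, h7⟩
      · rw [hd] at h; cases h
      · exact ⟨u, hu, h5, h6, h7⟩
  · rintro ⟨h1, h2, h3, h4⟩
    refine ⟨⟨⟨fun u hu v hv => ?_, fun v hv => ?_⟩, fun v hv => ?_⟩, h4⟩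
    · by_cases ha : adj x.2 u v = true
      · exact Or.inr (h1 u hu v hv ha)
      · exact Or.inl (by simpa using ha)
    · by_cases hd : (lk w (0, false) v).2 = true
      · exact Or.inr (h2 v hv hd)
      · exact Or.inl (by simpa using hd)
    · by_cases hd : (lk w (0, false) v).2 = true
      · exact Or.inl hd
      · obtain ⟨u, hu, h5, h6, h7⟩ := h3 v hv (by simpa using hd)
        exact Or.inr ⟨u, hu, ⟨h5, h6⟩, h7⟩

/-- Certificates with bounded colors. -/
theorem cert_bound {x : List ℕ × List (ℕ × ℕ)} {k : ℕ}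
    (h : FeasOn x.1.toFinset (fun u v => adj x.2 u v = true) k) :
    ∃ (c : ℕ → ℕ) (D : ℕ → Bool), (∀ v ∈ x.1.toFinset, c v ≤ k) ∧
      (∀ u ∈ x.1.toFinset, ∀ v ∈ x.1.toFinset, adj x.2 u v = true → c u ≠ c v) ∧
      (∀ v ∈ x.1.toFinset, D v = true → c v ≠ 0) ∧
      (∀ v ∈ x.1.toFinset, D v = false →
        ∃ u ∈ x.1.toFinset, adj x.2 v u = true ∧ D u = true ∧ c v < c u) ∧
      ∑ v ∈ x.1.toFinset, (if D v = true then c v else 0) ≤ k := by
  obtain ⟨c, D, h1, h2, h3, h4⟩ := h
  have hD : ∀ v ∈ x.1.toFinset, D v = true → c v ≤ k := by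
    intro v hv hd
    refine le_trans ?_ h4
    have := Finset.single_le_sum (f := fun v => if D v = true then c v else 0)
      (fun _ _ => Nat.zero_le _) hv
    simpa only [hd, if_true] using this
  refine ⟨c, D, fun v hv => ?_, h1, h2, h3, h4⟩
  by_cases hd : D v = true
  · exact hD v hv hd
  · obtain ⟨u, hu, _, h6, h7⟩ := h3 v hv (by simpa using hd)
    exact h7.le.trans (hD u hu h6)

theorem inNPP_weight : InNPP (fun x : (List ℕ × List (ℕ × ℕ)) × ℕ => OmegaUC (cG x.1) ≤ x.2) := by
  refine Med.of_cert (β := List (ℕ × (ℕ × Bool))) p_testW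
    (Polynomial.X * (3 * Polynomial.X + 6) + 1) ?_ ?_
  · rintro ⟨x, k⟩ w hw
    rw [testW_iff] at hw
    rw [omega_cG_iff]
    exact ⟨fun v => (lk w (0, false) v).1, fun v => (lk w (0, false) v).2, hw.1, hw.2.1,
      hw.2.2.1, hw.2.2.2⟩
  · rintro ⟨x, k⟩ h
    rw [omega_cG_iff] at h
    obtain ⟨c, D, h0, h1, h2, h3, h4⟩ := cert_bound h
    refine ⟨x.1.map (fun v => (v, (c v, D v))), ?_, ?_⟩
    · have hs := sz_le_length_mul (x.1.map (fun v => (v, (c v, D v)))) (3 * sz (x, k) + 5) (by
        intro e he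
        obtain ⟨v, hv, rfl⟩ := List.mem_map.1 he
        have e1 : sz v < sz x.1 := sz_le_of_mem hv
        have e2 : sz (c v) ≤ 2 * sz k := sz_nat_mono_le (h0 v (List.mem_toFinset.2 hv))
        have e3 := sz_bool_le (D v)
        have e4 : sz (x, k) = sz x.1 + sz x.2 + 1 + sz k + 1 := by
          rw [sz_pair, show sz x = sz (x.1, x.2) from rfl, sz_pair]
        rw [sz_pair, sz_pair]
        omega)
      refine hs.trans ?_
      rw [List.length_map]
      have e1 := length_lt_sz x.1
      have e4 : sz (x, k) = sz x.1 + sz x.2 + 1 + sz k + 1 := by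
        rw [sz_pair, show sz x = sz (x.1, x.2) from rfl, sz_pair]
      have e5 : (Polynomial.X * (3 * Polynomial.X + 6) + 1 : Polynomial ℕ).eval (sz (x, k)) =
          sz (x, k) * (3 * sz (x, k) + 6) + 1 := by simp
      rw [e5]
      exact Nat.add_le_add_right (Nat.mul_le_mul (by omega) (by omega)) 1
    · rw [testW_iff]
      have hl : ∀ v ∈ x.1.toFinset, lk (x.1.map (fun v => (v, (c v, D v)))) (0, false) v =
          (c v, D v) := fun v hv => lk_map x.1 (fun v => (c v, D v)) _ (List.mem_toFinset.1 hv)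
      refine ⟨fun u hu v hv ha => ?_, fun v hv hd => ?_, fun v hv hd => ?_, ?_⟩
      · rw [hl u hu, hl v hv]; exact h1 u hu v hv ha
      · rw [hl v hv] at hd ⊢; exact h2 v hv hd
      · rw [hl v hv] at hd ⊢
        obtain ⟨u, hu, h5, h6, h7⟩ := h3 v hv hd
        exact ⟨u, hu, h5, by rw [hl u hu]; exact h6, by rw [hl u hu]; exact h7⟩
      · refine le_trans (le_of_eq (Finset.sum_congr rfl fun v hv => ?_)) h4
        rw [hl v hv]

/-! ### bipartite graphs -/

theorem bip_iff (x : List ℕ × List (ℕ × ℕ)) : (cG x).IsBipartite ↔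
    ∃ s : ℕ → Bool, ∀ u ∈ x.1, ∀ v ∈ x.1, adj x.2 u v = true → s u ≠ s v := by
  constructor
  · rintro ⟨C⟩
    refine ⟨fun v => if h : v ∈ x.1 then decide (C ⟨v, h⟩ = 0) else false, ?_⟩
    intro u hu v hv ha he
    simp only [dif_pos hu, dif_pos hv, decide_eq_decide] at he
    have := C.valid ((cG_adj x ⟨u, hu⟩ ⟨v, hv⟩).2 ha)
    apply this
    generalize C ⟨u, hu⟩ = a at he ⊢
    generalize C ⟨v, hv⟩ = b at he ⊢
    revert a b
    decide
  · rintro ⟨s, hs⟩
    refine ⟨SimpleGraph.Coloring.mk (fun v => if s v.1 = true then (0 : Fin 2) else 1) ?_⟩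
    intro u v huv he
    have := hs u.1 u.2 v.1 v.2 ((cG_adj x u v).1 huv)
    apply this
    cases h1 : s u.1 <;> cases h2 : s v.1 <;> simp [h1, h2] at he ⊢

def testB (y : (List ℕ × List (ℕ × ℕ)) × List (ℕ × Bool)) : Bool :=
  y.1.1.all (fun u => y.1.1.all (fun v => !adj y.1.2 u v ||
    !decide (lk y.2 false u = lk y.2 false v)))

theorem p_testB : Poly testB := by
  unfold testB
  fun_prop

theorem testB_iff (x : List ℕ × List (ℕ × ℕ)) (w : List (ℕ × Bool)) :
    testB (x, w) = true ↔ ∀ u ∈ x.1, ∀ v ∈ x.1, adj x.2 u v = true →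
      lk w false u ≠ lk w false v := by
  unfold testB
  simp only [List.all_eq_true, Bool.or_eq_true, Bool.not_eq_true', decide_eq_false_iff_not]
  constructor
  · intro h u hu v hv ha
    rcases h u hu v hv with h1 | h1
    · rw [ha] at h1; cases h1
    · exact h1
  · intro h u hu v hv
    by_cases ha : adj x.2 u v = true
    · exact Or.inr (h u hu v hv ha)
    · exact Or.inl (by simpa using ha)

theorem inNPP_bip : InNPP (fun x : List ℕ × List (ℕ × ℕ) => (cG x).IsBipartite) := by
  refine Med.of_cert (β := List (ℕ × Bool)) p_testB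
    (Polynomial.X * (Polynomial.X + 6) + 1) ?_ ?_
  · intro x w hw
    rw [testB_iff] at hw
    exact (bip_iff x).2 ⟨_, hw⟩
  · intro x h
    obtain ⟨s, hs⟩ := (bip_iff x).1 h
    refine ⟨x.1.map (fun v => (v, s v)), ?_, ?_⟩
    · have hs := sz_le_length_mul (x.1.map (fun v => (v, s v))) (sz x + 5) (by
        intro e he
        obtain ⟨v, hv, rfl⟩ := List.mem_map.1 he
        have e1 : sz v < sz x.1 := sz_le_of_mem hv
        have e3 := sz_bool_le (s v)
        have e4 : sz x = sz x.1 + sz x.2 + 1 := by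
          rw [show sz x = sz (x.1, x.2) from rfl, sz_pair]
        rw [sz_pair]
        omega)
      refine hs.trans ?_
      rw [List.length_map]
      have e1 := length_lt_sz x.1
      have e4 : sz x = sz x.1 + sz x.2 + 1 := by
        rw [show sz x = sz (x.1, x.2) from rfl, sz_pair]
      have e5 : (Polynomial.X * (Polynomial.X + 6) + 1 : Polynomial ℕ).eval (sz x) =
          sz x * (sz x + 6) + 1 := by simp
      rw [e5]
      exact Nat.add_le_add_right (Nat.mul_le_mul (by omega) (by omega)) 1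
    · rw [testB_iff]
      intro u hu v hv ha
      rw [lk_map x.1 s false hu, lk_map x.1 s false hv]
      exact hs u hu v hv ha

/-! ### interval graphs -/

theorem icc_inter {a b c d : ℝ} (h1 : a ≤ b) (h2 : c ≤ d) :
    (Set.Icc a b ∩ Set.Icc c d).Nonempty ↔ a ≤ d ∧ c ≤ b := by
  constructor
  · rintro ⟨x, ⟨h3, h4⟩, h5, h6⟩
    exact ⟨h3.trans h6, h5.trans h4⟩
  · rintro ⟨h3, h4⟩
    exact ⟨max a c, ⟨le_max_left _ _, max_le h1 h4⟩, le_max_right _ _, max_le h3 h2⟩

/-- Integer interval models suffice. -/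
theorem int_iff (x : List ℕ × List (ℕ × ℕ)) : IsInterval (cG x) ↔
    ∃ l r : ℕ → ℕ, (∀ v ∈ x.1, l v ≤ r v ∧ r v ≤ 2 * x.1.length) ∧
      ∀ u ∈ x.1, ∀ v ∈ x.1, (adj x.2 u v = true ↔ u ≠ v ∧ l u ≤ r v ∧ l v ≤ r u) := by
  classical
  constructor
  · rintro ⟨l, r, h1, h2⟩
    have : Fintype {v : ℕ // v ∈ x.1} := Fintype.subtype x.1.toFinset (by simp)
    let S : Finset ℝ := Finset.univ.image l ∪ Finset.univ.image r
    let φ : ℝ → ℕ := fun t => (S.filter (fun s => s < t)).card
    have hmono : ∀ a b, a ≤ b → φ a ≤ φ b := by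
      intro a b hab
      refine Finset.card_le_card fun s hs => ?_
      rw [Finset.mem_filter] at hs ⊢
      exact ⟨hs.1, hs.2.trans_le hab⟩
    have hstrict : ∀ a b, b ∈ S → b < a → φ b < φ a := by
      intro a b hb hba
      refine Finset.card_lt_card ⟨fun s hs => ?_, fun hs => ?_⟩
      · rw [Finset.mem_filter] at hs ⊢
        exact ⟨hs.1, hs.2.trans hba⟩
      · have := hs (Finset.mem_filter.2 ⟨hb, hba⟩)
        rw [Finset.mem_filter] at this
        exact lt_irrefl _ this.2
    have hiff : ∀ a b, b ∈ S → (a ≤ b ↔ φ a ≤ φ b) := by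
      intro a b hb
      refine ⟨hmono a b, fun h => ?_⟩
      by_contra hc
      have := hstrict a b hb (not_le.1 hc)
      omega
    have hr : ∀ v, r v ∈ S := fun v =>
      Finset.mem_union_right _ (Finset.mem_image_of_mem _ (Finset.mem_univ _))
    have hcard : Fintype.card {v : ℕ // v ∈ x.1} ≤ x.1.length := by
      rw [Fintype.card_of_subtype x.1.toFinset (by simp)]
      exact List.toFinset_card_le _
    have hS : S.card ≤ 2 * x.1.length := by
      have e1 := Finset.card_union_le (Finset.univ.image l) (Finset.univ.image r)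
      have e2 : (Finset.univ.image l).card ≤ Fintype.card {v : ℕ // v ∈ x.1} :=
        Finset.card_image_le
      have e3 : (Finset.univ.image r).card ≤ Fintype.card {v : ℕ // v ∈ x.1} :=
        Finset.card_image_le
      change (Finset.univ.image l ∪ Finset.univ.image r).card ≤ _
      omega
    refine ⟨fun v => if h : v ∈ x.1 then φ (l ⟨v, h⟩) else 0,
      fun v => if h : v ∈ x.1 then φ (r ⟨v, h⟩) else 0, ?_, ?_⟩
    · intro v hv
      simp only [dif_pos hv]
      exact ⟨hmono _ _ (h1 _), (Finset.card_filter_le _ _).trans hS⟩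
    · intro u hu v hv
      simp only [dif_pos hu, dif_pos hv]
      have h3 := h2 ⟨u, hu⟩ ⟨v, hv⟩
      rw [cG_adj, icc_inter (h1 _) (h1 _), hiff _ _ (hr _), hiff _ _ (hr _)] at h3
      simpa [Subtype.ext_iff] using h3
  · rintro ⟨l, r, h1, h2⟩
    have h3 : ∀ v : {v : ℕ // v ∈ x.1}, ((l v.1 : ℕ) : ℝ) ≤ ((r v.1 : ℕ) : ℝ) :=
      fun v => Nat.cast_le.2 (h1 v.1 v.2).1
    refine ⟨fun v => l v.1, fun v => r v.1, h3, ?_⟩
    intro u v
    rw [cG_adj, icc_inter (h3 u) (h3 v), h2 u.1 u.2 v.1 v.2]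
    simp [Subtype.ext_iff]

def testI (y : (List ℕ × List (ℕ × ℕ)) × List (ℕ × (ℕ × ℕ))) : Bool :=
  y.1.1.all (fun u => decide ((lk y.2 (0, 0) u).1 ≤ (lk y.2 (0, 0) u).2)) &&
  y.1.1.all (fun u => decide ((lk y.2 (0, 0) u).2 ≤ 2 * y.1.1.length)) &&
  y.1.1.all (fun u => y.1.1.all (fun v => decide (adj y.1.2 u v =
    (!decide (u = v) && (decide ((lk y.2 (0, 0) u).1 ≤ (lk y.2 (0, 0) v).2) &&
      decide ((lk y.2 (0, 0) v).1 ≤ (lk y.2 (0, 0) u).2))))))

theorem p_testI : Poly testI := by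
  unfold testI
  fun_prop

theorem beq3 (a : Bool) {u v : ℕ} {p q : Prop} [Decidable p] [Decidable q] :
    (a = (!decide (u = v) && (decide p && decide q))) ↔ (a = true ↔ u ≠ v ∧ p ∧ q) := by
  by_cases h1 : u = v <;> by_cases h2 : p <;> by_cases h3 : q <;> cases a <;> simp [h1, h2, h3]

theorem testI_iff (x : List ℕ × List (ℕ × ℕ)) (w : List (ℕ × (ℕ × ℕ))) :
    testI (x, w) = true ↔ (∀ v ∈ x.1, (lk w (0, 0) v).1 ≤ (lk w (0, 0) v).2 ∧
      (lk w (0, 0) v).2 ≤ 2 * x.1.length) ∧
      ∀ u ∈ x.1, ∀ v ∈ x.1, (adj x.2 u v = true ↔ u ≠ v ∧ (lk w (0, 0) u).1 ≤ (lk w (0, 0) v).2 ∧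
        (lk w (0, 0) v).1 ≤ (lk w (0, 0) u).2) := by
  unfold testI
  simp only [Bool.and_eq_true, List.all_eq_true, decide_eq_true_eq, beq3, forall_and]

theorem inNPP_int : InNPP (fun x : List ℕ × List (ℕ × ℕ) => IsInterval (cG x)) := by
  refine Med.of_cert (β := List (ℕ × (ℕ × ℕ))) p_testI
    (Polynomial.X * (17 * Polynomial.X + 20) + 1) ?_ ?_
  · intro x w hw
    rw [testI_iff] at hw
    exact (int_iff x).2 ⟨fun v => (lk w (0, 0) v).1, fun v => (lk w (0, 0) v).2, hw⟩
  · intro x h
    obtain ⟨l, r, h1, h2⟩ := (int_iff x).1 h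
    refine ⟨x.1.map (fun v => (v, (l v, r v))), ?_, ?_⟩
    · have hs := sz_le_length_mul (x.1.map (fun v => (v, (l v, r v)))) (17 * sz x + 19) (by
        intro e he
        obtain ⟨v, hv, rfl⟩ := List.mem_map.1 he
        have e1 : sz v < sz x.1 := sz_le_of_mem hv
        have e4 : sz x = sz x.1 + sz x.2 + 1 := by
          rw [show sz x = sz (x.1, x.2) from rfl, sz_pair]
        have e5 := length_lt_sz x.1
        have e6 := (h1 v hv).1
        have e7 := (h1 v hv).2
        have e8 := sz_nat_le (l v)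
        have e9 := sz_nat_le (r v)
        have e10 := Poly.size_le_self (l v)
        have e11 := Poly.size_le_self (r v)
        rw [sz_pair, sz_pair]
        omega)
      refine hs.trans ?_
      rw [List.length_map]
      have e1 := length_lt_sz x.1
      have e4 : sz x = sz x.1 + sz x.2 + 1 := by
        rw [show sz x = sz (x.1, x.2) from rfl, sz_pair]
      have e5 : (Polynomial.X * (17 * Polynomial.X + 20) + 1 : Polynomial ℕ).eval (sz x) =
          sz x * (17 * sz x + 20) + 1 := by simp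
      rw [e5]
      exact Nat.add_le_add_right (Nat.mul_le_mul (by omega) (by omega)) 1
    · rw [testI_iff]
      have hl : ∀ v ∈ x.1, lk (x.1.map (fun v => (v, (l v, r v)))) (0, 0) v = (l v, r v) :=
        fun v hv => lk_map x.1 (fun v => (l v, r v)) _ hv
      constructor
      · intro v hv
        rw [hl v hv]; exact h1 v hv
      · intro u hu v hv
        rw [hl u hu, hl v hv]; exact h2 u hu v hv

/-- Membership in `NP` of UCW for a class whose codes are recognised in `NP`. -/
theorem inNPP_UCW {C : ∀ {V : Type}, SimpleGraph V → Prop}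
    (h : InNPP (fun x : List ℕ × List (ℕ × ℕ) => C (cG x))) : InNPP (UCW C) := by
  have h1 : InNPP (fun x : (List ℕ × List (ℕ × ℕ)) × ℕ => C (cG x.1)) :=
    Med.InNPP.comp (f := fun x : (List ℕ × List (ℕ × ℕ)) × ℕ => x.1) h (Poly.fst Poly.id)
  have h2 : InNPP (fun x : (List ℕ × List (ℕ × ℕ)) × ℕ => 1 ≤ x.2) :=
    Med.inNPP_of_test (d := fun x => decide (1 ≤ x.2)) (by fun_prop) (fun x => by simp)
  exact Med.InNPP.and (Med.InNPP.and h1 h2) inNPP_weight

end Pool.Agent.NPC.Q224UC
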