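import Pool.Agent.Q224.UC.Bip

/-!
# The track problem
-/

set_option autoImplicit false

namespace Pool.Agent.NPC.Q224UC

open _root_.Q224.UC _root_.Q224.PL Pool.Agent.NPC.Q224PL

/-- Tokens on `K` tracks are permuted in `r` steps, in step `k` only the tokens on the tracks `j` with
`X k j` move; in the end the token `j` must be on the track `π j`. -/
def TrackSol (K r : ℕ) (X : ℕ → ℕ → Bool) (π : ℕ → ℕ) : Prop :=
  ∃ σ : ℕ → ℕ → ℕ, (∀ j < K, σ 0 j = j) ∧ (∀ k ≤ r, ∀ j < K, σ k j < K) ∧
    (∀ k ≤ r, ∀ i < K, ∀ j < K, σ k i = σ k j → i = j) ∧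
    (∀ k < r, ∀ j < K, X k j = false → σ (k + 1) j = σ k j) ∧ (∀ j < K, σ r (π j) = j)

/-- The positions of the tokens. -/
theorem exists_pos {K r : ℕ} {X : ℕ → ℕ → Bool} {π : ℕ → ℕ} (hπ : ∀ j < K, π j < K)
    (h : TrackSol K r X π) :
    ∃ P : ℕ → ℕ → ℕ, (∀ k ≤ r, ∀ a < K, P k a < K) ∧
      (∀ a < K, P 0 a = a) ∧ (∀ a < K, P r a = π a) ∧
      (∀ k < r, ∀ a < K, P (k + 1) a = P k a ∨ (X k (P k a) = true ∧ X k (P (k + 1) a) = true)) ∧
      (∀ k ≤ r, ∀ a < K, ∀ b < K, P k a = P k b → a = b) := by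
  classical
  obtain ⟨σ, h1, h2, h3, h4, h5⟩ := h
  have hs : ∀ k ≤ r, ∀ a < K, ∃ j < K, σ k j = a := by
    intro k hk a ha
    let f : Fin K → Fin K := fun j => ⟨σ k j, h2 k hk j j.2⟩
    have hf : Function.Injective f := fun i j hij =>
      Fin.ext (h3 k hk i i.2 j j.2 (congrArg Fin.val hij))
    obtain ⟨j, hj⟩ := (Finite.surjective_of_injective hf) ⟨a, ha⟩
    exact ⟨j, j.2, congrArg Fin.val hj⟩
  choose! P hP1 hP2 using hs
  have huni : ∀ k ≤ r, ∀ a < K, ∀ j < K, σ k j = a → P k a = j := by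
    intro k hk a ha j hj he
    exact h3 k hk _ (hP1 k hk a ha) j hj (by rw [hP2 k hk a ha, he])
  refine ⟨P, hP1, fun a ha => huni 0 (Nat.zero_le _) a ha a ha (h1 a ha),
    fun a ha => huni r le_rfl a ha _ (hπ a ha) (h5 a ha), ?_, ?_⟩
  · intro k hk a ha
    by_cases hx : X k (P k a) = true
    · by_cases hx' : X k (P (k + 1) a) = true
      · exact Or.inr ⟨hx, hx'⟩
      · left
        have := h4 k hk _ (hP1 (k + 1) hk a ha) (by simpa using hx')
        rw [hP2 (k + 1) hk a ha] at this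
        exact (huni k hk.le a ha _ (hP1 (k + 1) hk a ha) this.symm).symm
    · left
      have := h4 k hk _ (hP1 k hk.le a ha) (by simpa using hx)
      rw [hP2 k hk.le a ha] at this
      exact huni (k + 1) hk a ha _ (hP1 k hk.le a ha) this
  · intro k hk a ha b hb he
    rw [← hP2 k hk a ha, he, hP2 k hk b hb]

/-- The literal number `j` of a clause. -/
def litj (c : Cl3) (j : ℕ) : Lit ℕ := if j = 0 then c.1 else if j = 1 then c.2.1 else c.2.2

/-- The track of the literal number `j` of the clause number `i`. -/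
def lw (φ : List Cl3) (i j : ℕ) : ℕ :=
  ((φ[i]?).map (fun c => 6 * φ.length + 2 * (litj c j).2 + bt (litj c j).1)).getD 0

/-- The sets of the steps. -/
def XX (φ : List Cl3) (k y : ℕ) : Bool :=
  if k < 3 * φ.length then
    decide (y = k) || decide (y = 6 * φ.length + 2 * k) || decide (y = 6 * φ.length + 2 * k + 1)
  else if k < 11 * φ.length then
    if (k - 3 * φ.length) % 8 = 0 then
      decide (y = 12 * φ.length + (k - 3 * φ.length) / 8) ||
      (decide (14 * φ.length + 3 * ((k - 3 * φ.length) / 8) ≤ y) &&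
        decide (y < 14 * φ.length + 3 * ((k - 3 * φ.length) / 8) + 3))
    else if (k - 3 * φ.length) % 8 < 4 then
      decide (y = 14 * φ.length + 3 * ((k - 3 * φ.length) / 8) + ((k - 3 * φ.length) % 8 - 1)) ||
      decide (y = lw φ ((k - 3 * φ.length) / 8) ((k - 3 * φ.length) % 8 - 1))
    else if (k - 3 * φ.length) % 8 < 7 then
      decide (y = 17 * φ.length + 3 * ((k - 3 * φ.length) / 8) + ((k - 3 * φ.length) % 8 - 4)) ||
      decide (y = lw φ ((k - 3 * φ.length) / 8) ((k - 3 * φ.length) % 8 - 4))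
    else
      decide (y = 13 * φ.length + (k - 3 * φ.length) / 8) ||
      (decide (17 * φ.length + 3 * ((k - 3 * φ.length) / 8) ≤ y) &&
        decide (y < 17 * φ.length + 3 * ((k - 3 * φ.length) / 8) + 3))
  else if k < 14 * φ.length then
    decide (y = 3 * φ.length + (k - 11 * φ.length)) ||
    decide (y = 6 * φ.length + 2 * (k - 11 * φ.length)) ||
    decide (y = 6 * φ.length + 2 * (k - 11 * φ.length) + 1)
  else !(decide (3 * φ.length ≤ y) && decide (y < 6 * φ.length)) &&
    !(decide (13 * φ.length ≤ y) && decide (y < 14 * φ.length))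

/-- The involution. -/
def pp (φ : List Cl3) (y : ℕ) : ℕ :=
  if y < 3 * φ.length then y + 3 * φ.length
  else if y < 6 * φ.length then y - 3 * φ.length
  else if y < 12 * φ.length then y
  else if y < 13 * φ.length then y + φ.length
  else if y < 14 * φ.length then y - φ.length
  else y

theorem pp_lt {φ : List Cl3} {y : ℕ} (h : y < 20 * φ.length) : pp φ y < 20 * φ.length := by
  unfold pp; split_ifs <;> omega

theorem pp_pp (φ : List Cl3) (y : ℕ) : pp φ (pp φ y) = y := by
  unfold pp; split_ifs <;> omega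

section

variable {φ : List Cl3}

theorem lw_bd (hb : Bounded3 φ) {i : ℕ} (hi : i < φ.length) (j : ℕ) :
    6 * φ.length ≤ lw φ i j ∧ lw φ i j < 12 * φ.length := by
  unfold lw
  rw [List.getElem?_eq_getElem hi]
  simp only [Option.map_some, Option.getD_some]
  obtain ⟨b1, b2, b3⟩ := hb _ (List.getElem_mem hi)
  have h1 : (litj φ[i] j).2 < 3 * φ.length := by unfold litj; split_ifs <;> assumption
  have h2 : bt (litj φ[i] j).1 < 2 := by unfold bt; split_ifs <;> omega
  omega

/-! the sets, in the different phases -/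

theorem X_var {k y : ℕ} (hk : k < 3 * φ.length) : XX φ k y = true ↔
    y = k ∨ y = 6 * φ.length + 2 * k ∨ y = 6 * φ.length + 2 * k + 1 := by
  unfold XX
  rw [if_pos hk]
  simp only [Bool.or_eq_true, decide_eq_true_eq, or_assoc]

theorem X_c0 {i y : ℕ} (hi : i < φ.length) : XX φ (3 * φ.length + 8 * i) y = true ↔
    y = 12 * φ.length + i ∨ (14 * φ.length + 3 * i ≤ y ∧ y < 14 * φ.length + 3 * i + 3) := by
  unfold XX
  have e1 : (3 * φ.length + 8 * i - 3 * φ.length) % 8 = 0 := by omega
  have e2 : (3 * φ.length + 8 * i - 3 * φ.length) / 8 = i := by omega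
  rw [if_neg (by omega), if_pos (by omega), if_pos e1, e2]
  simp only [Bool.or_eq_true, Bool.and_eq_true, decide_eq_true_eq]

theorem X_c1 {i j y : ℕ} (hi : i < φ.length) (hj : j < 3) :
    XX φ (3 * φ.length + 8 * i + 1 + j) y = true ↔
      y = 14 * φ.length + 3 * i + j ∨ y = lw φ i j := by
  unfold XX
  have e1 : (3 * φ.length + 8 * i + 1 + j - 3 * φ.length) % 8 = j + 1 := by omega
  have e2 : (3 * φ.length + 8 * i + 1 + j - 3 * φ.length) / 8 = i := by omega
  rw [if_neg (by omega), if_pos (by omega), if_neg (by omega), if_pos (by omega), e1, e2]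
  simp only [Bool.or_eq_true, decide_eq_true_eq, Nat.add_sub_cancel]

theorem X_c2 {i j y : ℕ} (hi : i < φ.length) (hj : j < 3) :
    XX φ (3 * φ.length + 8 * i + 4 + j) y = true ↔
      y = 17 * φ.length + 3 * i + j ∨ y = lw φ i j := by
  unfold XX
  have e1 : (3 * φ.length + 8 * i + 4 + j - 3 * φ.length) % 8 = j + 4 := by omega
  have e2 : (3 * φ.length + 8 * i + 4 + j - 3 * φ.length) / 8 = i := by omega
  rw [if_neg (by omega), if_pos (by omega), if_neg (by omega), if_neg (by omega),
    if_pos (by omega), e1, e2]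
  simp only [Bool.or_eq_true, decide_eq_true_eq, Nat.add_sub_cancel]

theorem X_c3 {i y : ℕ} (hi : i < φ.length) : XX φ (3 * φ.length + 8 * i + 7) y = true ↔
    y = 13 * φ.length + i ∨ (17 * φ.length + 3 * i ≤ y ∧ y < 17 * φ.length + 3 * i + 3) := by
  unfold XX
  have e1 : (3 * φ.length + 8 * i + 7 - 3 * φ.length) % 8 = 7 := by omega
  have e2 : (3 * φ.length + 8 * i + 7 - 3 * φ.length) / 8 = i := by omega
  rw [if_neg (by omega), if_pos (by omega), if_neg (by omega), if_neg (by omega),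
    if_neg (by omega), e2]
  simp only [Bool.or_eq_true, Bool.and_eq_true, decide_eq_true_eq]

theorem X_var' {x y : ℕ} (hx : x < 3 * φ.length) : XX φ (11 * φ.length + x) y = true ↔
    y = 3 * φ.length + x ∨ y = 6 * φ.length + 2 * x ∨ y = 6 * φ.length + 2 * x + 1 := by
  unfold XX
  have e1 : 11 * φ.length + x - 11 * φ.length = x := by omega
  rw [if_neg (by omega), if_neg (by omega), if_pos (by omega), e1]
  simp only [Bool.or_eq_true, decide_eq_true_eq, or_assoc]

theorem X_last {y : ℕ} : XX φ (14 * φ.length) y = true ↔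
    ¬ (3 * φ.length ≤ y ∧ y < 6 * φ.length) ∧ ¬ (13 * φ.length ≤ y ∧ y < 14 * φ.length) := by
  unfold XX
  rcases Nat.eq_zero_or_pos φ.length with h0 | h0
  · rw [if_neg (by omega), if_neg (by omega), if_neg (by omega)]
    simp only [Bool.and_eq_true, Bool.not_eq_true', Bool.and_eq_false_iff,
      decide_eq_false_iff_not]
    omega
  · rw [if_neg (by omega), if_neg (by omega), if_neg (by omega)]
    simp only [Bool.and_eq_true, Bool.not_eq_true', Bool.and_eq_false_iff,
      decide_eq_false_iff_not]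
    omega

/-- All steps before the last one, by phases. -/
theorem phases {k : ℕ} (hk : k < 14 * φ.length) :
    (k < 3 * φ.length) ∨ (∃ i, i < φ.length ∧ k = 3 * φ.length + 8 * i) ∨
    (∃ i j, i < φ.length ∧ j < 3 ∧ k = 3 * φ.length + 8 * i + 1 + j) ∨
    (∃ i j, i < φ.length ∧ j < 3 ∧ k = 3 * φ.length + 8 * i + 4 + j) ∨
    (∃ i, i < φ.length ∧ k = 3 * φ.length + 8 * i + 7) ∨
    (∃ x, x < 3 * φ.length ∧ k = 11 * φ.length + x) := by
  by_cases h1 : k < 3 * φ.length
  · exact Or.inl h1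
  by_cases h2 : k < 11 * φ.length
  · have h3 : (k - 3 * φ.length) / 8 < φ.length := by omega
    have h4 : (k - 3 * φ.length) % 8 < 8 := Nat.mod_lt _ (by omega)
    have h5 := Nat.div_add_mod (k - 3 * φ.length) 8
    generalize (k - 3 * φ.length) / 8 = i at h3 h5
    generalize (k - 3 * φ.length) % 8 = q at h4 h5
    by_cases q0 : q = 0
    · exact Or.inr (Or.inl ⟨i, h3, by omega⟩)
    by_cases q1 : q < 4
    · exact Or.inr (Or.inr (Or.inl ⟨i, q - 1, h3, by omega, by omega⟩))
    by_cases q2 : q < 7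
    · exact Or.inr (Or.inr (Or.inr (Or.inl ⟨i, q - 4, h3, by omega, by omega⟩)))
    · exact Or.inr (Or.inr (Or.inr (Or.inr (Or.inl ⟨i, h3, by omega⟩))))
  · exact Or.inr (Or.inr (Or.inr (Or.inr (Or.inr ⟨k - 11 * φ.length, by omega, by omega⟩))))

end

end Pool.Agent.NPC.Q224UC
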