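import Pool.Agent.Q224.UC.Track

/-!
# Satisfiable formulas and the track problem
-/

set_option autoImplicit false

namespace Pool.Agent.NPC.Q224UC

open _root_.Q224.UC _root_.Q224.PL Pool.Agent.NPC.Q224PL

theorem X_cases {φ : List Cl3} (hb : Bounded3 φ) {k y : ℕ} (hk : k < 14 * φ.length)
    (h : XX φ k y = true) :
    (k < 3 * φ.length ∧ (y = k ∨ y = 6 * φ.length + 2 * k ∨ y = 6 * φ.length + 2 * k + 1)) ∨
    (∃ i, i < φ.length ∧ k = 3 * φ.length + 8 * i ∧
      (y = 12 * φ.length + i ∨ (14 * φ.length + 3 * i ≤ y ∧ y < 14 * φ.length + 3 * i + 3))) ∨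
    (∃ i j, i < φ.length ∧ j < 3 ∧ k = 3 * φ.length + 8 * i + 1 + j ∧
      (y = 14 * φ.length + 3 * i + j ∨ (y = lw φ i j ∧ 6 * φ.length ≤ y ∧ y < 12 * φ.length))) ∨
    (∃ i j, i < φ.length ∧ j < 3 ∧ k = 3 * φ.length + 8 * i + 4 + j ∧
      (y = 17 * φ.length + 3 * i + j ∨ (y = lw φ i j ∧ 6 * φ.length ≤ y ∧ y < 12 * φ.length))) ∨
    (∃ i, i < φ.length ∧ k = 3 * φ.length + 8 * i + 7 ∧
      (y = 13 * φ.length + i ∨ (17 * φ.length + 3 * i ≤ y ∧ y < 17 * φ.length + 3 * i + 3))) ∨
    (∃ x, x < 3 * φ.length ∧ k = 11 * φ.length + x ∧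
      (y = 3 * φ.length + x ∨ y = 6 * φ.length + 2 * x ∨ y = 6 * φ.length + 2 * x + 1)) := by
  rcases phases hk with h1 | ⟨i, hi, rfl⟩ | ⟨i, j, hi, hj, rfl⟩ | ⟨i, j, hi, hj, rfl⟩ |
    ⟨i, hi, rfl⟩ | ⟨x, hx, rfl⟩
  · exact Or.inl ⟨h1, (X_var h1).1 h⟩
  · exact Or.inr (Or.inl ⟨i, hi, rfl, (X_c0 hi).1 h⟩)
  · refine Or.inr (Or.inr (Or.inl ⟨i, j, hi, hj, rfl, ?_⟩))
    have := lw_bd hb hi j
    rcases (X_c1 hi hj).1 h with h | h
    · exact Or.inl h
    · exact Or.inr ⟨h, by omega, by omega⟩
  · refine Or.inr (Or.inr (Or.inr (Or.inl ⟨i, j, hi, hj, rfl, ?_⟩)))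
    have := lw_bd hb hi j
    rcases (X_c2 hi hj).1 h with h | h
    · exact Or.inl h
    · exact Or.inr ⟨h, by omega, by omega⟩
  · exact Or.inr (Or.inr (Or.inr (Or.inr (Or.inl ⟨i, hi, rfl, (X_c3 hi).1 h⟩))))
  · exact Or.inr (Or.inr (Or.inr (Or.inr (Or.inr ⟨x, hx, rfl, (X_var' hx).1 h⟩))))

theorem sat_of_track {φ : List Cl3} (hb : Bounded3 φ)
    (h : TrackSol (20 * φ.length) (14 * φ.length + 1) (XX φ) (pp φ)) : SAT3 φ := by
  obtain ⟨P, hP, hP0, hPr, hmove, hinj⟩ := exists_pos (fun j hj => pp_lt hj) h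
  set m := φ.length with hm
  have stay : ∀ a < 20 * m, ∀ y k1 k2, k1 ≤ k2 → k2 ≤ 14 * m + 1 →
      (∀ k, k1 ≤ k → k < k2 → XX φ k y = true → False) → (P k1 a = y ↔ P k2 a = y) := by
    intro a ha y k1 k2 h12
    induction k2, h12 using Nat.le_induction with
    | base => intro _ _; exact Iff.rfl
    | succ k2 h12 ih =>
      intro hk hX
      rw [ih (by omega) (fun k h1 h2 => hX k h1 (by omega))]
      have hf := hX k2 h12 (by omega)
      rcases hmove k2 (by omega) a ha with he | ⟨he1, he2⟩
      · rw [he]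
      · constructor
        · intro hy; rw [hy] at he1; exact absurd he1 hf
        · intro hy; rw [hy] at he2; exact absurd he2 hf
  have fresh : ∀ a < 20 * m, ∀ y k, k ≤ 14 * m + 1 → (∀ k', k' < k → XX φ k' y = true → False) →
      P k a = y → a = y := by
    intro a ha y k hk hX hy
    have := (stay a ha y 0 k (Nat.zero_le _) hk (fun k' _ h2 => hX k' h2)).2 hy
    rw [hP0 a ha] at this
    exact this
  -- the tokens of the variables
  have hvar : ∀ x, x < 3 * m → ∃ b, b < 2 ∧ ∀ k, 3 * m ≤ k → k ≤ 11 * m →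
      P k x = 6 * m + 2 * x + b := by
    intro x hx
    have hx20 : x < 20 * m := by omega
    have f1 : P (14 * m + 1) x = 3 * m + x := by
      rw [hPr x hx20]
      unfold pp
      rw [if_pos (by omega)]
      omega
    have f2 : P (11 * m + x + 1) x = 3 * m + x := by
      refine (stay x hx20 _ _ _ (by omega) le_rfl ?_).2 f1
      intro k h1 h2 hX
      rcases Nat.lt_or_ge k (14 * m) with h3 | h3
      · rcases X_cases hb h3 hX with h | ⟨i, _, h⟩ | ⟨i, j, _, _, h⟩ | ⟨i, j, _, _, h⟩ |
          ⟨i, _, h⟩ | ⟨x', _, h⟩ <;> omega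
      · have : k = 14 * m := by omega
        subst this
        have := (X_last).1 hX
        omega
    have f3 : ∃ b, b < 2 ∧ P (11 * m + x) x = 6 * m + 2 * x + b := by
      have hne : P (11 * m + x) x ≠ 3 * m + x := by
        intro he
        have := fresh x hx20 _ _ (by omega) (by
          intro k' h1 hX
          rcases X_cases hb (by omega) hX with h | ⟨i, _, h⟩ | ⟨i, j, _, _, h⟩ | ⟨i, j, _, _, h⟩ |
            ⟨i, _, h⟩ | ⟨x', _, h⟩ <;> omega) he
        omega
      rcases hmove (11 * m + x) (by omega) x hx20 with he | ⟨he, _⟩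
      · rw [he] at f2; exact absurd f2 hne
      · rcases (X_var' hx).1 he with h | h | h
        · exact absurd h hne
        · exact ⟨0, by omega, by omega⟩
        · exact ⟨1, by omega, by omega⟩
    obtain ⟨b, hb2, f3⟩ := f3
    have f4 : P (11 * m) x = 6 * m + 2 * x + b := by
      refine (stay x hx20 _ _ _ (by omega) (by omega) ?_).2 f3
      intro k h1 h2 hX
      rcases X_cases hb (by omega) hX with h | ⟨i, _, h⟩ | ⟨i, j, _, _, h⟩ | ⟨i, j, _, _, h⟩ |
          ⟨i, _, h⟩ | ⟨x', _, h⟩ <;> omega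
    refine ⟨b, hb2, ?_⟩
    have f5 : ∀ d, d ≤ 8 * m → P (11 * m - d) x = 6 * m + 2 * x + b := by
      intro d
      induction d with
      | zero => intro _; exact f4
      | succ d ih =>
        intro hd
        have ih' := ih (by omega)
        obtain ⟨k, hk⟩ : ∃ k, k = 11 * m - (d + 1) := ⟨_, rfl⟩
        rw [← hk]
        rw [show 11 * m - d = k + 1 by omega] at ih'
        have hk1 : 3 * m ≤ k := by omega
        have hk2 : k < 11 * m := by omega
        rcases hmove k (by omega) x hx20 with he | ⟨he1, he2⟩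
        · rw [← he]; exact ih'
        · rw [ih'] at he2
          rcases X_cases hb (by omega) he2 with h | ⟨i, _, h⟩ | ⟨i, j, hi, hj, hki, h⟩ |
            ⟨i, j, hi, hj, hki, h⟩ | ⟨i, _, h⟩ | ⟨x', _, h⟩
          · omega
          · omega
          · have hlw : 6 * m + 2 * x + b = lw φ i j := by
              rcases h with h | h
              · omega
              · exact h.1
            rw [hki] at he1
            rcases (X_c1 hi hj).1 he1 with h' | h'
            · exfalso
              have g1 : P (3 * m + 8 * i + 1) x = 14 * m + 3 * i + j := by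
                refine (stay x hx20 _ _ (3 * m + 8 * i + 1 + j) (by omega) (by omega) ?_).2 h'
                intro k' h1 h2 hX
                rcases X_cases hb (by omega) hX with h | ⟨i', _, h⟩ | ⟨i', j', _, _, h⟩ |
                  ⟨i', j', _, _, h⟩ | ⟨i', _, h⟩ | ⟨x', _, h⟩ <;> omega
              have g2 : P (3 * m + 8 * i) x = 12 * m + i ∨
                  (14 * m + 3 * i ≤ P (3 * m + 8 * i) x ∧
                    P (3 * m + 8 * i) x < 14 * m + 3 * i + 3) := by
                rcases hmove (3 * m + 8 * i) (by omega) x hx20 with he | ⟨he, _⟩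
                · rw [he] at g1; right; omega
                · exact (X_c0 hi).1 he
              have := fresh x hx20 _ (3 * m + 8 * i) (by omega) (by
                intro k' h1 hX
                rcases X_cases hb (by omega) hX with h | ⟨i', _, h⟩ | ⟨i', j', _, _, h⟩ |
                  ⟨i', j', _, _, h⟩ | ⟨i', _, h⟩ | ⟨x', _, h⟩ <;> omega) rfl
              omega
            · rw [hlw, hki]; exact h'
          · have hlw : 6 * m + 2 * x + b = lw φ i j := by
              rcases h with h | h
              · omega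
              · exact h.1
            rw [hki] at he1
            rcases (X_c2 hi hj).1 he1 with h' | h'
            · exfalso
              have := fresh x hx20 (17 * m + 3 * i + j) (3 * m + 8 * i + 4 + j) (by omega) (by
                intro k' h1 hX
                rcases X_cases hb (by omega) hX with h | ⟨i', _, h⟩ | ⟨i', j', _, _, h⟩ |
                  ⟨i', j', _, _, h⟩ | ⟨i', _, h⟩ | ⟨x', _, h⟩ <;> omega) h'
              omega
            · rw [hlw, hki]; exact h'
          · omega
          · omega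
    intro k h1 h2
    have := f5 (11 * m - k) (by omega)
    rwa [show 11 * m - (11 * m - k) = k by omega] at this
  choose! β hβ1 hβ2 using hvar
  -- the tokens of the clauses
  have hcl : ∀ i, i < m → ∃ j, j < 3 ∧ P (3 * m + 8 * i + 4 + j) (12 * m + i) = lw φ i j := by
    intro i hi
    have ha : 12 * m + i < 20 * m := by omega
    have f1 : P (14 * m + 1) (12 * m + i) = 13 * m + i := by
      rw [hPr _ ha]
      unfold pp
      rw [if_neg (by omega), if_neg (by omega), if_neg (by omega), if_pos (by omega)]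
      omega
    have f2 : P (3 * m + 8 * i + 8) (12 * m + i) = 13 * m + i := by
      refine (stay _ ha _ _ _ (by omega) le_rfl ?_).2 f1
      intro k h1 h2 hX
      rcases Nat.lt_or_ge k (14 * m) with h3 | h3
      · rcases X_cases hb h3 hX with h | ⟨i', _, h⟩ | ⟨i', j, _, _, h⟩ | ⟨i', j, _, _, h⟩ |
          ⟨i', _, h⟩ | ⟨x', _, h⟩ <;> omega
      · have : k = 14 * m := by omega
        subst this
        have := (X_last).1 hX
        omega
    have f3 : ∃ j, j < 3 ∧ P (3 * m + 8 * i + 7) (12 * m + i) = 17 * m + 3 * i + j := by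
      have hne : P (3 * m + 8 * i + 7) (12 * m + i) ≠ 13 * m + i := by
        intro he
        have := fresh _ ha _ _ (by omega) (by
          intro k' h1 hX
          rcases X_cases hb (by omega) hX with h | ⟨i', _, h⟩ | ⟨i', j, _, _, h⟩ |
            ⟨i', j, _, _, h⟩ | ⟨i', _, h⟩ | ⟨x', _, h⟩ <;> omega) he
        omega
      rcases hmove (3 * m + 8 * i + 7) (by omega) _ ha with he | ⟨he, _⟩
      · rw [he] at f2; exact absurd f2 hne
      · rcases (X_c3 hi).1 he with h | h
        · exact absurd h hne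
        · exact ⟨P (3 * m + 8 * i + 7) (12 * m + i) - (17 * m + 3 * i), by omega, by omega⟩
    obtain ⟨j, hj, f3⟩ := f3
    refine ⟨j, hj, ?_⟩
    have f4 : P (3 * m + 8 * i + 4 + j + 1) (12 * m + i) = 17 * m + 3 * i + j := by
      refine (stay _ ha _ _ _ (by omega) (by omega) ?_).2 f3
      intro k h1 h2 hX
      rcases X_cases hb (by omega) hX with h | ⟨i', _, h⟩ | ⟨i', j', _, _, h⟩ |
        ⟨i', j', _, _, h⟩ | ⟨i', _, h⟩ | ⟨x', _, h⟩ <;> omega
    have hne : P (3 * m + 8 * i + 4 + j) (12 * m + i) ≠ 17 * m + 3 * i + j := by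
      intro he
      have := fresh _ ha _ _ (by omega) (by
        intro k' h1 hX
        rcases X_cases hb (by omega) hX with h | ⟨i', _, h⟩ | ⟨i', j', _, _, h⟩ |
          ⟨i', j', _, _, h⟩ | ⟨i', _, h⟩ | ⟨x', _, h⟩ <;> omega) he
      omega
    rcases hmove (3 * m + 8 * i + 4 + j) (by omega) _ ha with he | ⟨he, _⟩
    · rw [he] at f4; exact absurd f4 hne
    · rcases (X_c2 hi hj).1 he with h | h
      · exact absurd h hne
      · exact h
  refine ⟨fun x => decide (β x = 0), ?_⟩
  intro cl hcl'
  obtain ⟨i, hi, rfl⟩ := List.getElem_of_mem hcl'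
  obtain ⟨j, hj, hP'⟩ := hcl i hi
  have hlit : (litj φ[i] j).2 < 3 * m := by
    obtain ⟨b1, b2, b3⟩ := hb _ hcl'
    unfold litj; split_ifs <;> assumption
  have key : decide (β (litj φ[i] j).2 = 0) = (litj φ[i] j).1 := by
    have h1 := hβ2 _ hlit (3 * m + 8 * i + 4 + j) (by omega) (by omega)
    have h2 : bt (litj φ[i] j).1 ≠ β (litj φ[i] j).2 := by
      intro he
      have h3 : lw φ i j = 6 * m + 2 * (litj φ[i] j).2 + bt (litj φ[i] j).1 := by
        unfold lw
        rw [List.getElem?_eq_getElem hi]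
        simp only [Option.map_some, Option.getD_some]
        rfl
      have := hinj (3 * m + 8 * i + 4 + j) (by omega) (12 * m + i) (by omega) _
        (by omega : (litj φ[i] j).2 < 20 * m) (by rw [hP', h1, h3, he])
      omega
    have h3 := hβ1 _ hlit
    cases hs : (litj φ[i] j).1
    · rw [hs] at h2
      simp only [bt, Bool.false_eq_true, if_false] at h2
      exact decide_eq_false (by omega)
    · rw [hs] at h2
      simp only [bt, if_true] at h2
      exact decide_eq_true (by omega)
  have hj' : j = 0 ∨ j = 1 ∨ j = 2 := by omega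
  rcases hj' with rfl | rfl | rfl
  · exact Or.inl (by simpa [litj] using key)
  · exact Or.inr (Or.inl (by simpa [litj] using key))
  · exact Or.inr (Or.inr (by simpa [litj] using key))

end Pool.Agent.NPC.Q224UC
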