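import Pool.Agent.Q224.UC.Track2

/-!
# Solutions of the track problem from satisfying assignments
-/

set_option autoImplicit false

namespace Pool.Agent.NPC.Q224UC

open _root_.Q224.UC _root_.Q224.PL Pool.Agent.NPC.Q224PL

section

variable (φ : List Cl3) (β J : ℕ → ℕ)

/-- The two tracks which are exchanged in a step. -/
def sw (k : ℕ) : ℕ × ℕ :=
  if k < 3 * φ.length then (k, 6 * φ.length + 2 * k + β k)
  else if k < 11 * φ.length then
    if (k - 3 * φ.length) % 8 = 0 then
      (12 * φ.length + (k - 3 * φ.length) / 8,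
        14 * φ.length + 3 * ((k - 3 * φ.length) / 8) + J ((k - 3 * φ.length) / 8))
    else if (k - 3 * φ.length) % 8 = 1 + J ((k - 3 * φ.length) / 8) then
      (14 * φ.length + 3 * ((k - 3 * φ.length) / 8) + J ((k - 3 * φ.length) / 8),
        lw φ ((k - 3 * φ.length) / 8) (J ((k - 3 * φ.length) / 8)))
    else if (k - 3 * φ.length) % 8 = 4 + J ((k - 3 * φ.length) / 8) then
      (17 * φ.length + 3 * ((k - 3 * φ.length) / 8) + J ((k - 3 * φ.length) / 8),
        lw φ ((k - 3 * φ.length) / 8) (J ((k - 3 * φ.length) / 8)))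
    else if (k - 3 * φ.length) % 8 = 7 then
      (17 * φ.length + 3 * ((k - 3 * φ.length) / 8) + J ((k - 3 * φ.length) / 8),
        13 * φ.length + (k - 3 * φ.length) / 8)
    else (0, 0)
  else if k < 14 * φ.length then
    (3 * φ.length + (k - 11 * φ.length),
      6 * φ.length + 2 * (k - 11 * φ.length) + β (k - 11 * φ.length))
  else (0, 0)

/-- The tokens on the tracks. -/
def SS : ℕ → Equiv.Perm ℕ
  | 0 => 1
  | k + 1 => SS k * Equiv.swap (sw φ β J k).1 (sw φ β J k).2

/-- The track of the token of a variable. -/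
def Lx (x k : ℕ) : ℕ :=
  if k ≤ x then x else if k ≤ 11 * φ.length + x then 6 * φ.length + 2 * x + β x
  else 3 * φ.length + x

/-- The track of the token of a clause. -/
def Lc (i k : ℕ) : ℕ :=
  if k ≤ 3 * φ.length + 8 * i then 12 * φ.length + i
  else if k ≤ 3 * φ.length + 8 * i + 1 + J i then 14 * φ.length + 3 * i + J i
  else if k ≤ 3 * φ.length + 8 * i + 4 + J i then lw φ i (J i)
  else if k ≤ 3 * φ.length + 8 * i + 7 then 17 * φ.length + 3 * i + J i
  else 13 * φ.length + i

end

section

variable {φ : List Cl3} {β J : ℕ → ℕ}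

theorem sw_var {k : ℕ} (hk : k < 3 * φ.length) :
    sw φ β J k = (k, 6 * φ.length + 2 * k + β k) := by
  unfold sw; rw [if_pos hk]

theorem sw_var' {x : ℕ} (hx : x < 3 * φ.length) :
    sw φ β J (11 * φ.length + x) = (3 * φ.length + x, 6 * φ.length + 2 * x + β x) := by
  unfold sw
  rw [if_neg (by omega), if_neg (by omega), if_pos (by omega),
    show 11 * φ.length + x - 11 * φ.length = x by omega]

theorem sw_cl {i q : ℕ} (hi : i < φ.length) (hq : q < 8) :
    sw φ β J (3 * φ.length + 8 * i + q) =
      if q = 0 then (12 * φ.length + i, 14 * φ.length + 3 * i + J i)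
      else if q = 1 + J i then (14 * φ.length + 3 * i + J i, lw φ i (J i))
      else if q = 4 + J i then (17 * φ.length + 3 * i + J i, lw φ i (J i))
      else if q = 7 then (17 * φ.length + 3 * i + J i, 13 * φ.length + i)
      else (0, 0) := by
  unfold sw
  rw [if_neg (by omega), if_pos (by omega),
    show (3 * φ.length + 8 * i + q - 3 * φ.length) % 8 = q by omega,
    show (3 * φ.length + 8 * i + q - 3 * φ.length) / 8 = i by omega]

theorem swap_eq {a b y z : ℕ} (h : (y = a ∧ z = b) ∨ (y = b ∧ z = a) ∨ (y ≠ a ∧ y ≠ b ∧ z = y) ∨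
    (a = b ∧ z = y)) : Equiv.swap a b y = z := by
  rcases h with ⟨rfl, rfl⟩ | ⟨rfl, rfl⟩ | ⟨h1, h2, rfl⟩ | ⟨rfl, rfl⟩
  · exact Equiv.swap_apply_left _ _
  · exact Equiv.swap_apply_right _ _
  · exact Equiv.swap_apply_of_ne_of_ne h1 h2
  · simp

theorem phase8 {k : ℕ} (hk : k < 14 * φ.length) :
    (k < 3 * φ.length) ∨ (∃ i q, i < φ.length ∧ q < 8 ∧ k = 3 * φ.length + 8 * i + q) ∨
    (∃ x, x < 3 * φ.length ∧ k = 11 * φ.length + x) := by
  by_cases h1 : k < 3 * φ.length
  · exact Or.inl h1
  by_cases h2 : k < 11 * φ.length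
  · have h3 : (k - 3 * φ.length) / 8 < φ.length := by omega
    have h4 : (k - 3 * φ.length) % 8 < 8 := Nat.mod_lt _ (by omega)
    have h5 := Nat.div_add_mod (k - 3 * φ.length) 8
    exact Or.inr (Or.inl ⟨_, _, h3, h4, by omega⟩)
  · exact Or.inr (Or.inr ⟨k - 11 * φ.length, by omega, by omega⟩)

variable (hβ : ∀ x, β x < 2) (hJ : ∀ i, J i < 3)
  (hlb : ∀ i, i < φ.length → 6 * φ.length ≤ lw φ i (J i) ∧ lw φ i (J i) < 12 * φ.length)
  (hne : ∀ i, i < φ.length → ∀ x, x < 3 * φ.length → lw φ i (J i) ≠ 6 * φ.length + 2 * x + β x)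

include hβ hJ hlb hne

theorem move_x {x k : ℕ} (hx : x < 3 * φ.length) (hk : k < 14 * φ.length) :
    Equiv.swap (sw φ β J k).1 (sw φ β J k).2 (Lx φ β x (k + 1)) = Lx φ β x k := by
  have b1 := hβ x
  apply swap_eq
  rcases phase8 hk with h | ⟨i, q, hi, hq, rfl⟩ | ⟨x', hx', rfl⟩
  · rw [sw_var h]
    unfold Lx
    dsimp only
    have b2 := hβ k
    by_cases hxk : x = k
    · subst hxk
      rw [if_neg (by omega), if_pos (by omega), if_pos le_rfl]
      omega
    · by_cases hk' : k + 1 ≤ x
      · rw [if_pos hk', if_pos (by omega)]; omega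
      · rw [if_neg hk', if_pos (by omega), if_neg (by omega), if_pos (by omega)]; omega
  · have e1 : Lx φ β x (3 * φ.length + 8 * i + q + 1) = 6 * φ.length + 2 * x + β x := by
      unfold Lx; rw [if_neg (by omega), if_pos (by omega)]
    have e2 : Lx φ β x (3 * φ.length + 8 * i + q) = 6 * φ.length + 2 * x + β x := by
      unfold Lx; rw [if_neg (by omega), if_pos (by omega)]
    rw [sw_cl hi hq, e1, e2]
    have b2 := hJ i
    have b3 := hlb i hi
    have b4 := hne i hi x hx
    split_ifs <;> dsimp only <;> omega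
  · rw [sw_var' hx']
    unfold Lx
    dsimp only
    have b2 := hβ x'
    by_cases hxx : x = x'
    · subst hxx
      rw [if_neg (by omega), if_neg (by omega), if_neg (by omega), if_pos (by omega)]
      omega
    · by_cases hk' : x' < x
      · rw [if_neg (by omega), if_pos (by omega), if_neg (by omega), if_pos (by omega)]; omega
      · rw [if_neg (by omega), if_neg (by omega), if_neg (by omega), if_neg (by omega)]; omega

theorem move_c {i k : ℕ} (hi : i < φ.length) (hk : k < 14 * φ.length) :
    Equiv.swap (sw φ β J k).1 (sw φ β J k).2 (Lc φ J i (k + 1)) = Lc φ J i k := by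
  have b1 := hJ i
  have b2 := hlb i hi
  apply swap_eq
  rcases phase8 hk with h | ⟨i', q, hi', hq, rfl⟩ | ⟨x', hx', rfl⟩
  · rw [sw_var h]
    unfold Lc
    have b3 := hβ k
    rw [if_pos (by omega), if_pos (by omega)]
    dsimp only
    omega
  · have b3 := hJ i'
    have b4 := hlb i' hi'
    rcases lt_trichotomy i i' with hlt | rfl | hlt
    · have e1 : Lc φ J i (3 * φ.length + 8 * i' + q + 1) = 13 * φ.length + i := by
        unfold Lc; rw [if_neg (by omega), if_neg (by omega), if_neg (by omega), if_neg (by omega)]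
      have e2 : Lc φ J i (3 * φ.length + 8 * i' + q) = 13 * φ.length + i := by
        unfold Lc; rw [if_neg (by omega), if_neg (by omega), if_neg (by omega), if_neg (by omega)]
      rw [sw_cl hi' hq, e1, e2]
      split_ifs <;> dsimp only <;> omega
    · rw [sw_cl hi' hq]
      unfold Lc
      split_ifs <;> dsimp only <;> omega
    · have e1 : Lc φ J i (3 * φ.length + 8 * i' + q + 1) = 12 * φ.length + i := by
        unfold Lc; rw [if_pos (by omega)]
      have e2 : Lc φ J i (3 * φ.length + 8 * i' + q) = 12 * φ.length + i := by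
        unfold Lc; rw [if_pos (by omega)]
      rw [sw_cl hi' hq, e1, e2]
      split_ifs <;> dsimp only <;> omega
  · rw [sw_var' hx']
    unfold Lc
    have b3 := hβ x'
    rw [if_neg (by omega), if_neg (by omega), if_neg (by omega), if_neg (by omega),
        if_neg (by omega), if_neg (by omega), if_neg (by omega), if_neg (by omega)]
    dsimp only
    omega

theorem SS_x {x : ℕ} (hx : x < 3 * φ.length) : ∀ k, k ≤ 14 * φ.length →
    SS φ β J k (Lx φ β x k) = x := by
  intro k
  induction k with
  | zero => intro _; simp [SS, Lx]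
  | succ k ih =>
    intro hk
    rw [SS, Equiv.Perm.mul_apply, move_x hβ hJ hlb hne hx (by omega)]
    exact ih (by omega)

theorem SS_c {i : ℕ} (hi : i < φ.length) : ∀ k, k ≤ 14 * φ.length →
    SS φ β J k (Lc φ J i k) = 12 * φ.length + i := by
  intro k
  induction k with
  | zero => intro _; simp [SS, Lc]
  | succ k ih =>
    intro hk
    rw [SS, Equiv.Perm.mul_apply, move_c hβ hJ hlb hne hi (by omega)]
    exact ih (by omega)

theorem sw_lt {k : ℕ} (hk : k < 14 * φ.length) :
    (sw φ β J k).1 < 20 * φ.length ∧ (sw φ β J k).2 < 20 * φ.length := by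
  rcases phase8 hk with h | ⟨i, q, hi, hq, rfl⟩ | ⟨x', hx', rfl⟩
  · rw [sw_var h]
    have := hβ k
    dsimp only; omega
  · rw [sw_cl hi hq]
    have b2 := hJ i
    have b3 := hlb i hi
    split_ifs <;> dsimp only <;> omega
  · rw [sw_var' hx']
    have := hβ x'
    dsimp only; omega

theorem SS_lt : ∀ k, k ≤ 14 * φ.length → ∀ y, y < 20 * φ.length →
    SS φ β J k y < 20 * φ.length := by
  intro k
  induction k with
  | zero => intro _ y hy; exact hy
  | succ k ih =>
    intro hk y hy
    rw [SS, Equiv.Perm.mul_apply]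
    apply ih (by omega)
    obtain ⟨h1, h2⟩ := sw_lt hβ hJ hlb hne (k := k) (by omega)
    rw [Equiv.swap_apply_def]
    split_ifs
    · exact h2
    · exact h1
    · exact hy

theorem sw_fix {k y : ℕ} (hk : k < 14 * φ.length) (hX : XX φ k y = false) :
    Equiv.swap (sw φ β J k).1 (sw φ β J k).2 y = y := by
  apply swap_eq
  have hX' : ¬ XX φ k y = true := by simpa using hX
  rcases phase8 hk with h | ⟨i, q, hi, hq, rfl⟩ | ⟨x', hx', rfl⟩
  · rw [sw_var h]
    rw [X_var h] at hX'
    have := hβ k
    dsimp only; omega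
  · rw [sw_cl hi hq]
    have b2 := hJ i
    split_ifs with q0 q1 q2 q3
    · subst q0
      rw [Nat.add_zero, X_c0 hi] at hX'
      dsimp only; omega
    · subst q1
      rw [← Nat.add_assoc, X_c1 hi b2] at hX'
      dsimp only; omega
    · subst q2
      rw [← Nat.add_assoc, X_c2 hi b2] at hX'
      dsimp only; omega
    · subst q3
      rw [X_c3 hi] at hX'
      dsimp only; omega
    · dsimp only; omega
  · rw [sw_var' hx']
    rw [X_var' hx'] at hX'
    have := hβ x'
    dsimp only; omega

theorem track_aux : TrackSol (20 * φ.length) (14 * φ.length + 1) (XX φ) (pp φ) := by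
  refine ⟨fun k y => if k ≤ 14 * φ.length then SS φ β J k y else pp φ y, ?_, ?_, ?_, ?_, ?_⟩
  · intro j hj
    simp [SS]
  · intro k hk j hj
    dsimp only
    split_ifs with h
    · exact SS_lt hβ hJ hlb hne k h j hj
    · exact pp_lt hj
  · intro k hk i hi j hj he
    simp only at he
    split_ifs at he with h
    · exact (SS φ β J k).injective he
    · rw [← pp_pp φ i, he, pp_pp]
  · intro k hk j hj hX
    dsimp only
    rw [if_pos (by omega : k ≤ 14 * φ.length)]
    split_ifs with h
    · rw [SS, Equiv.Perm.mul_apply, sw_fix hβ hJ hlb hne (by omega) hX]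
    · have hk' : k = 14 * φ.length := by omega
      subst hk'
      have hX' : ¬ XX φ (14 * φ.length) j = true := by simpa using hX
      rw [X_last] at hX'
      by_cases h1 : 3 * φ.length ≤ j ∧ j < 6 * φ.length
      · have h2 := SS_x hβ hJ hlb hne (x := j - 3 * φ.length) (by omega) _ le_rfl
        have h3 : Lx φ β (j - 3 * φ.length) (14 * φ.length) = j := by
          unfold Lx
          rw [if_neg (by omega), if_neg (by omega)]; omega
        rw [h3] at h2
        rw [h2]
        unfold pp
        rw [if_neg (by omega), if_pos (by omega)]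
      · have h1' : 13 * φ.length ≤ j ∧ j < 14 * φ.length := by
          by_contra hc
          exact hX' ⟨h1, hc⟩
        have h2 := SS_c hβ hJ hlb hne (i := j - 13 * φ.length) (by omega) _ le_rfl
        have h3 : Lc φ J (j - 13 * φ.length) (14 * φ.length) = j := by
          unfold Lc
          have := hJ (j - 13 * φ.length)
          rw [if_neg (by omega), if_neg (by omega), if_neg (by omega), if_neg (by omega)]; omega
        rw [h3] at h2
        rw [h2]
        unfold pp
        rw [if_neg (by omega), if_neg (by omega), if_neg (by omega), if_neg (by omega),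
          if_pos (by omega)]
        omega
  · intro j hj
    dsimp only
    rw [if_neg (by omega), pp_pp]

end

theorem track_of_sat {φ : List Cl3} (hb : Bounded3 φ) (h : SAT3 φ) :
    TrackSol (20 * φ.length) (14 * φ.length + 1) (XX φ) (pp φ) := by
  obtain ⟨τ, hτ⟩ := h
  have hj : ∀ i, ∃ j, j < 3 ∧ (∀ hi : i < φ.length, τ (litj φ[i] j).2 = (litj φ[i] j).1) := by
    intro i
    by_cases hi : i < φ.length
    · rcases hτ _ (List.getElem_mem hi) with h | h | h
      · exact ⟨0, by omega, fun _ => by simpa [litj] using h⟩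
      · exact ⟨1, by omega, fun _ => by simpa [litj] using h⟩
      · exact ⟨2, by omega, fun _ => by simpa [litj] using h⟩
    · exact ⟨0, by omega, fun hi' => absurd hi' hi⟩
  choose J hJ hJτ using hj
  have hβ : ∀ x, bt (!τ x) < 2 := fun x => by unfold bt; split_ifs <;> omega
  refine track_aux (β := fun x => bt (!τ x)) (J := J) hβ hJ (fun i hi => lw_bd hb hi (J i)) ?_
  intro i hi x hx he
  have h3 : lw φ i (J i) = 6 * φ.length + 2 * (litj φ[i] (J i)).2 + bt (litj φ[i] (J i)).1 := by
    unfold lw
    rw [List.getElem?_eq_getElem hi]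
    simp only [Option.map_some, Option.getD_some]
  rw [h3, ← hJτ i hi] at he
  have b1 := hβ x
  have b2 : bt (τ (litj φ[i] (J i)).2) < 2 := by unfold bt; split_ifs <;> omega
  have hxe : x = (litj φ[i] (J i)).2 := by omega
  rw [← hxe] at he
  cases hs : τ x <;> rw [hs] at he <;> simp [bt] at he

end Pool.Agent.NPC.Q224UC
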