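import Pool.Agent.Q224.UC.NP

/-!
# Trees: the up-color domination weight in polynomial time
-/

set_option autoImplicit false

namespace Pool.Agent.NPC.Q224UC

open _root_.Q224.UC _root_.Q224.PL Pool.Agent.NPC.Q224PL

/-- An option for a vertex: its color, membership in the dominating set, being dominated by an
eliminated neighbour, cost. -/
abbrev Ent := ℕ × Bool × Bool × ℕ

/-- The numbers up to the square of the length. -/
def sq (V : List ℕ) : List ℕ := List.range (V.length * V.length + 1)

/-- Numbers up to `k`, for `k ≤ N * N`. -/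
def nums (V : List ℕ) (k : ℕ) : List ℕ := (sq V).filter (fun c => decide (c ≤ k))

/-- All options. -/
def ents (V : List ℕ) (k : ℕ) : List Ent :=
  (nums V k).flatMap (fun c => (nums V k).flatMap (fun w => [(c, true, true, w), (c, true, false, w),
    (c, false, true, w), (c, false, false, w)]))

/-- Eliminating a leaf with the option `b`, the neighbour having the option `a`. -/
def okE (e a b : Ent) : Bool :=
  decide (e.1 = a.1) && decide (e.2.1 = a.2.1) && !decide (a.1 = b.1) &&
  (b.2.1 || b.2.2.1 || (a.2.1 && decide (b.1 < a.1))) &&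
  decide (e.2.2.1 = (a.2.2.1 || (b.2.1 && decide (a.1 < b.1)))) &&
  decide (e.2.2.2 = a.2.2.2 + b.2.2.2)

/-- The new options of the neighbour. -/
def comb (U A B : List Ent) : List Ent :=
  U.filter (fun e => A.any (fun a => B.any (fun b => okE e a b)))

/-- States: the remaining vertices with their options. -/
abbrev TS := List (ℕ × List Ent)

/-- The leaf which is eliminated. -/
def leaf (E : List (ℕ × ℕ)) (S : TS) : Option (ℕ × List Ent) :=
  (S.filter (fun a => decide ((S.filter (fun b => adj E a.1 b.1)).length = 1))).head?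

/-- Elimination of `v`. -/
def elim (E : List (ℕ × ℕ)) (U : List Ent) (S : TS) (v : ℕ × List Ent) : TS :=
  (S.filter (fun b => !decide (b.1 = v.1))).map
    (fun b => (b.1, if adj E v.1 b.1 = true then comb U b.2 v.2 else b.2))

/-- One step. -/
def lstep (E : List (ℕ × ℕ)) (U : List Ent) (S : TS) : TS :=
  (leaf E S).elim S (fun v => elim E U S v)

/-- The start. -/
def start (V : List ℕ) (k : ℕ) : TS :=
  (dd V).map (fun v => (v, (ents V k).filter (fun e => !e.2.2.1 &&
    (if e.2.1 = true then !decide (e.1 = 0) && decide (e.2.2.2 = e.1)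
      else decide (e.2.2.2 = 0)))))

/-- The end. -/
def fin (x : List ℕ × List (ℕ × ℕ)) (k : ℕ) : TS :=
  x.1.foldl (fun S _ => lstep x.2 (ents x.1 k) S) (start x.1 k)

/-- The test for the weight `k`. -/
def feas (x : List ℕ × List (ℕ × ℕ)) (k : ℕ) : Bool :=
  (fin x k).all (fun a => a.2.any (fun e => e.2.1 || e.2.2.1))

/-- The computed weight. -/
def omT (x : List ℕ × List (ℕ × ℕ)) : ℕ :=
  (((sq x.1).filter (fun k => feas x k)).head?).getD 0

/-! ### one elimination -/

/-- The vertices of a state. -/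
def keys (S : TS) : Finset ℕ := (S.map Prod.fst).toFinset

theorem mem_keys {S : TS} {u : ℕ} : u ∈ keys S ↔ ∃ a ∈ S, a.1 = u := by
  simp [keys]

/-- Solutions of a state. -/
structure Sol (E : List (ℕ × ℕ)) (k : ℕ) (S : TS) (f : ℕ → Ent) : Prop where
  mem : ∀ a ∈ S, f a.1 ∈ a.2
  col : ∀ a ∈ S, ∀ b ∈ S, adj E a.1 b.1 = true → (f a.1).1 ≠ (f b.1).1
  dom : ∀ a ∈ S, (f a.1).2.1 = true ∨ (f a.1).2.2.1 = true ∨
    ∃ b ∈ S, adj E a.1 b.1 = true ∧ (f b.1).2.1 = true ∧ (f a.1).1 < (f b.1).1
  wt : ∑ u ∈ keys S, (f u).2.2.2 ≤ k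

theorem okE_iff {e a b : Ent} : okE e a b = true ↔ e.1 = a.1 ∧ e.2.1 = a.2.1 ∧ a.1 ≠ b.1 ∧
    (b.2.1 = true ∨ b.2.2.1 = true ∨ (a.2.1 = true ∧ b.1 < a.1)) ∧
    (e.2.2.1 = true ↔ (a.2.2.1 = true ∨ (b.2.1 = true ∧ a.1 < b.1))) ∧
    e.2.2.2 = a.2.2.2 + b.2.2.2 := by
  have h : (e.2.2.1 = (a.2.2.1 || (b.2.1 && decide (a.1 < b.1)))) ↔
      (e.2.2.1 = true ↔ (a.2.2.1 = true ∨ (b.2.1 = true ∧ a.1 < b.1))) := by
    rw [Bool.eq_iff_iff, Bool.or_eq_true, Bool.and_eq_true, decide_eq_true_eq]
  have h2 : ∀ p q : Bool, (p = q) ↔ (p = q) := fun _ _ => Iff.rfl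
  unfold okE
  rw [Bool.and_eq_true, Bool.and_eq_true, Bool.and_eq_true, Bool.and_eq_true, Bool.and_eq_true,
    decide_eq_true_eq, decide_eq_true_eq, Bool.not_eq_true', decide_eq_false_iff_not,
    decide_eq_true_eq, decide_eq_true_eq, h, Bool.or_eq_true, Bool.or_eq_true, Bool.and_eq_true,
    decide_eq_true_eq, or_assoc]
  simp only [and_assoc, ne_eq]

/-- The state is regular: different vertices, all options in `U`. -/
structure Reg (U : List Ent) (S : TS) : Prop where
  nodup : (S.map Prod.fst).Nodup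
  sub : ∀ a ∈ S, ∀ e ∈ a.2, e ∈ U

theorem Reg.eq {U : List Ent} {S : TS} (h : Reg U S) {a b : ℕ × List Ent} (ha : a ∈ S)
    (hb : b ∈ S) (he : a.1 = b.1) : a = b :=
  List.inj_on_of_nodup_map h.nodup ha hb he

theorem adj_self (E : List (ℕ × ℕ)) (u : ℕ) : adj E u u = false := by
  unfold adj; simp

section

variable {E : List (ℕ × ℕ)} {U : List Ent} {S : TS} {v p : ℕ × List Ent} {k : ℕ}

theorem mem_elim {b' : ℕ × List Ent} : b' ∈ elim E U S v ↔ ∃ b ∈ S, b.1 ≠ v.1 ∧
    b' = (b.1, if adj E v.1 b.1 = true then comb U b.2 v.2 else b.2) := by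
  unfold elim
  rw [List.mem_map]
  constructor
  · rintro ⟨b, hb, rfl⟩
    rw [List.mem_filter, Bool.not_eq_true', decide_eq_false_iff_not] at hb
    exact ⟨b, hb.1, hb.2, rfl⟩
  · rintro ⟨b, hb, hne, rfl⟩
    exact ⟨b, List.mem_filter.2 ⟨hb, by simpa using hne⟩, rfl⟩

theorem elim_keys : (elim E U S v).map Prod.fst = (S.map Prod.fst).filter (fun u => !decide (u = v.1)) := by
  unfold elim
  rw [List.map_map, List.filter_map]
  rfl

theorem keys_elim : keys (elim E U S v) = (keys S).erase v.1 := by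
  ext u
  rw [keys, elim_keys, List.mem_toFinset, List.mem_filter, Finset.mem_erase, keys,
    List.mem_toFinset]
  simp only [Bool.not_eq_true', decide_eq_false_iff_not]
  tauto

theorem elim_reg (h : Reg U S) : Reg U (elim E U S v) := by
  constructor
  · rw [elim_keys]; exact h.nodup.filter _
  · intro a ha e he
    obtain ⟨b, hb, hne, rfl⟩ := mem_elim.1 ha
    simp only at he
    split_ifs at he
    · exact (List.mem_filter.1 he).1
    · exact h.sub b hb e he

/-- Eliminating a leaf keeps feasibility. -/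
theorem elim_iff (hU : ∀ e : Ent, e ∈ U ↔ e.1 ≤ k ∧ e.2.2.2 ≤ k) (h : Reg U S) (hv : v ∈ S)
    (hp : p ∈ S) (hvp : adj E v.1 p.1 = true)
    (huni : ∀ b ∈ S, adj E v.1 b.1 = true → b = p) :
    (∃ f, Sol E k S f) ↔ ∃ f, Sol E k (elim E U S v) f := by
  classical
  have hpv : p.1 ≠ v.1 := by
    intro e; rw [e, adj_self] at hvp; cases hvp
  have hpk : p.1 ∈ (keys S).erase v.1 := Finset.mem_erase.2 ⟨hpv, mem_keys.2 ⟨p, hp, rfl⟩⟩
  have hvk : v.1 ∈ keys S := mem_keys.2 ⟨v, hv, rfl⟩
  have hsum : ∀ g : ℕ → ℕ, ∑ u ∈ keys S, g u = g v.1 + (g p.1 +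
      ∑ u ∈ ((keys S).erase v.1).erase p.1, g u) := by
    intro g
    rw [← Finset.add_sum_erase _ _ hvk, ← Finset.add_sum_erase _ _ hpk]
  have hsum' : ∀ g : ℕ → ℕ, ∑ u ∈ keys (elim E U S v), g u = g p.1 +
      ∑ u ∈ ((keys S).erase v.1).erase p.1, g u := by
    intro g
    rw [keys_elim, ← Finset.add_sum_erase _ _ hpk]
  constructor
  · rintro ⟨f, hf⟩
    have hokcol : (f p.1).1 ≠ (f v.1).1 := (hf.col v hv p hp hvp).symm
    set e : Ent := ((f p.1).1, (f p.1).2.1,
      ((f p.1).2.2.1 || ((f v.1).2.1 && decide ((f p.1).1 < (f v.1).1))),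
      (f p.1).2.2.2 + (f v.1).2.2.2) with he
    have hcol : ∀ u, (Function.update f p.1 e u).1 = (f u).1 := by
      intro u
      by_cases hu : u = p.1
      · subst hu; rw [Function.update_self]
      · rw [Function.update_of_ne hu]
    have hD : ∀ u, (Function.update f p.1 e u).2.1 = (f u).2.1 := by
      intro u
      by_cases hu : u = p.1
      · subst hu; rw [Function.update_self]
      · rw [Function.update_of_ne hu]
    have hwt := hf.wt
    rw [hsum] at hwt
    have hcomb : e ∈ comb U p.2 v.2 := by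
      refine List.mem_filter.2 ⟨(hU e).2 ⟨?_, ?_⟩, ?_⟩
      · exact ((hU _).1 (h.sub p hp _ (hf.mem p hp))).1
      · simp only [he]; omega
      · rw [List.any_eq_true]
        refine ⟨f p.1, hf.mem p hp, ?_⟩
        rw [List.any_eq_true]
        refine ⟨f v.1, hf.mem v hv, ?_⟩
        rw [okE_iff]
        refine ⟨rfl, rfl, hokcol, ?_, ?_, rfl⟩
        · rcases hf.dom v hv with h1 | h1 | ⟨b, hb, h1, h2, h3⟩
          · exact Or.inl h1
          · exact Or.inr (Or.inl h1)
          · rw [huni b hb h1] at h2 h3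
            exact Or.inr (Or.inr ⟨h2, h3⟩)
        · simp only [he, Bool.or_eq_true, Bool.and_eq_true, decide_eq_true_eq]
    refine ⟨Function.update f p.1 e, ?_, ?_, ?_, ?_⟩
    · intro a ha
      obtain ⟨b, hb, hne, rfl⟩ := mem_elim.1 ha
      by_cases hbp : b = p
      · subst hbp
        simp only [Function.update_self]
        rw [if_pos hvp]
        exact hcomb
      · have hb1 : b.1 ≠ p.1 := fun e' => hbp (h.eq hb hp e')
        simp only [Function.update_of_ne hb1]
        rw [if_neg (fun h' => hbp (huni b hb h'))]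
        exact hf.mem b hb
    · intro a' ha' b' hb' hab
      obtain ⟨a, ha, hne, rfl⟩ := mem_elim.1 ha'
      obtain ⟨b, hb, hne', rfl⟩ := mem_elim.1 hb'
      simp only at hab ⊢
      rw [hcol, hcol]
      exact hf.col a ha b hb hab
    · intro a' ha'
      obtain ⟨a, ha, hne, rfl⟩ := mem_elim.1 ha'
      simp only
      rw [hcol, hD]
      rcases hf.dom a ha with h1 | h1 | ⟨b, hb, h1, h2, h3⟩
      · exact Or.inl h1
      · right; left
        by_cases hap : a.1 = p.1
        · rw [hap, Function.update_self]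
          simp only [he, Bool.or_eq_true]
          rw [hap] at h1
          exact Or.inl h1
        · rw [Function.update_of_ne hap]; exact h1
      · by_cases hbv : b.1 = v.1
        · have hap : a = p := huni a ha (by rw [adj_comm, ← hbv]; exact h1)
          right; left
          rw [hap, Function.update_self]
          simp only [he, Bool.or_eq_true, Bool.and_eq_true, decide_eq_true_eq]
          rw [hbv] at h2 h3
          rw [hap] at h3
          exact Or.inr ⟨h2, h3⟩
        · right; right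
          refine ⟨_, mem_elim.2 ⟨b, hb, hbv, rfl⟩, h1, ?_, ?_⟩
          · simp only; rw [hD]; exact h2
          · simp only; rw [hcol]; exact h3
    · rw [hsum']
      have h1 : (Function.update f p.1 e p.1).2.2.2 = (f p.1).2.2.2 + (f v.1).2.2.2 := by
        rw [Function.update_self]
      have h2 : ∑ u ∈ ((keys S).erase v.1).erase p.1, (Function.update f p.1 e u).2.2.2 =
          ∑ u ∈ ((keys S).erase v.1).erase p.1, (f u).2.2.2 := by
        refine Finset.sum_congr rfl fun u hu => ?_
        rw [Function.update_of_ne (Finset.mem_erase.1 hu).1]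
      rw [h1, h2]
      omega
  · rintro ⟨f, hf⟩
    have hpe : (p.1, if adj E v.1 p.1 = true then comb U p.2 v.2 else p.2) ∈ elim E U S v :=
      mem_elim.2 ⟨p, hp, hpv, rfl⟩
    have h1 := hf.mem _ hpe
    simp only at h1
    rw [if_pos hvp] at h1
    obtain ⟨_, h1⟩ := List.mem_filter.1 h1
    rw [List.any_eq_true] at h1
    obtain ⟨a, ha, h1⟩ := h1
    rw [List.any_eq_true] at h1
    obtain ⟨b, hb, h1⟩ := h1
    rw [okE_iff] at h1
    obtain ⟨o1, o2, o3, o4, o5, o6⟩ := h1
    set g := Function.update (Function.update f p.1 a) v.1 b with hg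
    have gv : g v.1 = b := by rw [hg, Function.update_self]
    have gp : g p.1 = a := by rw [hg, Function.update_of_ne hpv, Function.update_self]
    have go : ∀ u, u ≠ v.1 → u ≠ p.1 → g u = f u := fun u h1 h2 => by
      rw [hg, Function.update_of_ne h1, Function.update_of_ne h2]
    have gcol : ∀ u, u ≠ v.1 → (g u).1 = (f u).1 := by
      intro u hu
      by_cases hup : u = p.1
      · rw [hup, gp, ← o1]
      · rw [go u hu hup]
    have gD : ∀ u, u ≠ v.1 → (g u).2.1 = (f u).2.1 := by
      intro u hu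
      by_cases hup : u = p.1
      · rw [hup, gp, ← o2]
      · rw [go u hu hup]
    refine ⟨g, ?_, ?_, ?_, ?_⟩
    · intro c hc
      by_cases h2 : c = v
      · rw [h2, gv]; exact hb
      · by_cases h3 : c = p
        · rw [h3, gp]; exact ha
        · have h2' : c.1 ≠ v.1 := fun e => h2 (h.eq hc hv e)
          have h3' : c.1 ≠ p.1 := fun e => h3 (h.eq hc hp e)
          rw [go _ h2' h3']
          have := hf.mem _ (mem_elim.2 ⟨c, hc, h2', rfl⟩)
          simp only at this
          rwa [if_neg (fun h' => h3 (huni c hc h'))] at this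
    · intro c hc d hd hcd
      by_cases h2 : c = v
      · have h3 : d = p := huni d hd (by rw [← h2]; exact hcd)
        rw [h2, h3, gv, gp]; exact o3.symm
      · by_cases h3 : d = v
        · have h4 : c = p := huni c hc (by rw [adj_comm, ← h3]; exact hcd)
          rw [h3, h4, gv, gp]; exact o3
        · have h2' : c.1 ≠ v.1 := fun e => h2 (h.eq hc hv e)
          have h3' : d.1 ≠ v.1 := fun e => h3 (h.eq hd hv e)
          rw [gcol _ h2', gcol _ h3']
          have m1 : (c.1, if adj E v.1 c.1 = true then comb U c.2 v.2 else c.2) ∈ elim E U S v :=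
            mem_elim.2 ⟨c, hc, h2', rfl⟩
          have m2 : (d.1, if adj E v.1 d.1 = true then comb U d.2 v.2 else d.2) ∈ elim E U S v :=
            mem_elim.2 ⟨d, hd, h3', rfl⟩
          have m3 := hf.col _ m1 _ m2
          exact m3 hcd
    · intro c hc
      by_cases h2 : c = v
      · rw [h2, gv]
        rcases o4 with h3 | h3 | ⟨h3, h4⟩
        · exact Or.inl h3
        · exact Or.inr (Or.inl h3)
        · exact Or.inr (Or.inr ⟨p, hp, hvp, by rw [gp]; exact h3, by rw [gp]; exact h4⟩)
      · have h2' : c.1 ≠ v.1 := fun e => h2 (h.eq hc hv e)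
        rw [gcol _ h2', gD _ h2']
        rcases hf.dom _ (mem_elim.2 ⟨c, hc, h2', rfl⟩) with h3 | h3 | ⟨d', hd', h3, h4, h5⟩
        · exact Or.inl h3
        · by_cases h4 : c = p
          · subst h4
            simp only at h3
            rcases o5.1 h3 with h5 | ⟨h5, h6⟩
            · exact Or.inr (Or.inl (by rw [gp]; exact h5))
            · refine Or.inr (Or.inr ⟨v, hv, by rw [adj_comm]; exact hvp, by rw [gv]; exact h5, ?_⟩)
              rw [gv, o1]; exact h6
          · have h4' : c.1 ≠ p.1 := fun e => h4 (h.eq hc hp e)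
            rw [go _ h2' h4']
            exact Or.inr (Or.inl h3)
        · obtain ⟨d, hd, hne, rfl⟩ := mem_elim.1 hd'
          simp only at h3 h4 h5
          exact Or.inr (Or.inr ⟨d, hd, h3, by rw [gD _ hne]; exact h4, by rw [gcol _ hne]; exact h5⟩)
    · have hwt := hf.wt
      rw [hsum'] at hwt
      rw [hsum, gv, gp]
      have h2 : ∑ u ∈ ((keys S).erase v.1).erase p.1, (g u).2.2.2 =
          ∑ u ∈ ((keys S).erase v.1).erase p.1, (f u).2.2.2 := by
        refine Finset.sum_congr rfl fun u hu => ?_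
        rw [Finset.mem_erase, Finset.mem_erase] at hu
        rw [go u hu.2.1 hu.1]
      rw [h2]
      omega

end

/-! ### leaves -/

section

variable {E : List (ℕ × ℕ)} {U : List Ent} {S : TS} {k : ℕ}

theorem leaf_spec {v : ℕ × List Ent} (h : leaf E S = some v) :
    v ∈ S ∧ ∃ p ∈ S, adj E v.1 p.1 = true ∧ ∀ b ∈ S, adj E v.1 b.1 = true → b = p := by
  have h1 := List.mem_of_mem_head? h
  rw [List.mem_filter, decide_eq_true_eq, List.length_eq_one_iff] at h1
  obtain ⟨hv, p, hp⟩ := h1
  have hp1 : p ∈ S.filter (fun b => adj E v.1 b.1) := by rw [hp]; exact List.mem_singleton_self _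
  rw [List.mem_filter] at hp1
  refine ⟨hv, p, hp1.1, hp1.2, fun b hb hadj => ?_⟩
  have : b ∈ S.filter (fun b => adj E v.1 b.1) := List.mem_filter.2 ⟨hb, hadj⟩
  rw [hp, List.mem_singleton] at this
  exact this

theorem leaf_ne_none (h : Reg U S) {v p : ℕ × List Ent} (hv : v ∈ S) (hp : p ∈ S)
    (hvp : adj E v.1 p.1 = true) (huni : ∀ b ∈ S, adj E v.1 b.1 = true → b = p) :
    leaf E S ≠ none := by
  intro hn
  unfold leaf at hn
  rw [List.head?_eq_none_iff, List.filter_eq_nil_iff] at hn
  apply hn v hv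
  rw [decide_eq_true_eq]
  have hnd : (S.filter (fun b => adj E v.1 b.1)).Nodup := (h.nodup.of_map _).filter _
  have hall : ∀ b ∈ S.filter (fun b => adj E v.1 b.1), b = p := by
    intro b hb
    rw [List.mem_filter] at hb
    exact huni b hb.1 hb.2
  have hmem : p ∈ S.filter (fun b => adj E v.1 b.1) := List.mem_filter.2 ⟨hp, hvp⟩
  have h1 : 0 < (S.filter (fun b => adj E v.1 b.1)).length := List.length_pos_of_mem hmem
  have h2 : (S.filter (fun b => adj E v.1 b.1)).length ≤ 1 := by
    by_contra hc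
    have e0 := hall _ (List.getElem_mem (l := S.filter (fun b => adj E v.1 b.1)) (n := 0)
      (by omega))
    have e1 := hall _ (List.getElem_mem (l := S.filter (fun b => adj E v.1 b.1)) (n := 1)
      (by omega))
    have := (hnd.getElem_inj_iff (i := 0) (j := 1) (hi := by omega) (hj := by omega)).1
      (by rw [e0, e1])
    omega
  omega

theorem lstep_reg (h : Reg U S) : Reg U (lstep E U S) := by
  unfold lstep
  rcases hl : leaf E S with _ | v
  · exact h
  · exact elim_reg h

theorem lstep_iff (hU : ∀ e : Ent, e ∈ U ↔ e.1 ≤ k ∧ e.2.2.2 ≤ k) (h : Reg U S) :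
    (∃ f, Sol E k S f) ↔ ∃ f, Sol E k (lstep E U S) f := by
  unfold lstep
  rcases hl : leaf E S with _ | v
  · exact Iff.rfl
  · obtain ⟨hv, p, hp, hvp, huni⟩ := leaf_spec hl
    exact elim_iff hU h hv hp hvp huni

/-- The remaining graph. -/
def gS (E : List (ℕ × ℕ)) (S : TS) : SimpleGraph {v : ℕ // v ∈ S.map Prod.fst} :=
  cG (S.map Prod.fst, E)

theorem tree_step (h : Reg U S) (ht : (gS E S).IsTree) :
    (gS E (lstep E U S)).IsTree ∧ (lstep E U S).length = max 1 (S.length - 1) := by
  classical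
  have : Fintype {v : ℕ // v ∈ S.map Prod.fst} :=
    Fintype.subtype (S.map Prod.fst).toFinset (by simp)
  have hcard : Fintype.card {v : ℕ // v ∈ S.map Prod.fst} = S.length := by
    rw [Fintype.card_of_subtype (S.map Prod.fst).toFinset (by simp),
      List.toFinset_card_of_nodup h.nodup, List.length_map]
  have hne : Nonempty {v : ℕ // v ∈ S.map Prod.fst} := ht.connected.nonempty
  have hpos : 0 < S.length := by rw [← hcard]; exact Fintype.card_pos
  have hdeg : ∀ v ∈ S, ∀ hv : v.1 ∈ S.map Prod.fst, (gS E S).degree ⟨v.1, hv⟩ = 1 ↔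
      ∃ p ∈ S, adj E v.1 p.1 = true ∧ ∀ b ∈ S, adj E v.1 b.1 = true → b = p := by
    intro v hvS hv
    rw [SimpleGraph.degree_eq_one_iff_existsUnique_adj]
    constructor
    · rintro ⟨⟨w, hw⟩, h1, h2⟩
      obtain ⟨p, hp, hpw⟩ := List.mem_map.1 hw
      refine ⟨p, hp, ?_, fun b hb hadj => ?_⟩
      · have := (cG_adj _ _ _).1 h1
        simp only at this
        rw [hpw]; exact this
      · have := h2 ⟨b.1, List.mem_map.2 ⟨b, hb, rfl⟩⟩ ((cG_adj _ _ _).2 hadj)
        exact h.eq hb hp (by rw [hpw]; exact congrArg Subtype.val this)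
    · rintro ⟨p, hp, h1, h2⟩
      refine ⟨⟨p.1, List.mem_map.2 ⟨p, hp, rfl⟩⟩, (cG_adj _ _ _).2 h1, ?_⟩
      rintro ⟨w, hw⟩ h3
      obtain ⟨b, hb, rfl⟩ := List.mem_map.1 hw
      have := h2 b hb ((cG_adj _ _ _).1 h3)
      subst this
      rfl
  rcases Nat.lt_or_ge 1 S.length with h1 | h1
  · have hnt : Nontrivial {v : ℕ // v ∈ S.map Prod.fst} := by
      rw [← Fintype.one_lt_card_iff_nontrivial, hcard]; exact h1
    obtain ⟨⟨v0, hv0⟩, hd0⟩ := ht.exists_vert_degree_one_of_nontrivial
    obtain ⟨a0, ha0, rfl⟩ := List.mem_map.1 hv0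
    obtain ⟨p0, hp0, hap0, huni0⟩ := (hdeg a0 ha0 hv0).1 (by convert hd0)
    unfold lstep
    rcases hl : leaf E S with _ | v
    · exact absurd hl (leaf_ne_none h ha0 hp0 hap0 huni0)
    · simp only [Option.elim]
      obtain ⟨hv, p, hp, hvp, huni⟩ := leaf_spec hl
      have hvm : v.1 ∈ S.map Prod.fst := List.mem_map.2 ⟨v, hv, rfl⟩
      have hd : (gS E S).degree ⟨v.1, hvm⟩ = 1 := (hdeg v hv hvm).2 ⟨p, hp, hvp, huni⟩
      have hconn := ht.connected.induce_compl_singleton_of_degree_eq_one hd
      have hacyc := ht.isAcyclic.induce ({⟨v.1, hvm⟩}ᶜ : Set {v : ℕ // v ∈ S.map Prod.fst})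
      have hmem : ∀ u, u ∈ (elim E U S v).map Prod.fst ↔ u ∈ S.map Prod.fst ∧ u ≠ v.1 := by
        intro u
        rw [elim_keys, List.mem_filter]
        simp
      let e : {u : ℕ // u ∈ (elim E U S v).map Prod.fst} ≃
          ({⟨v.1, hvm⟩}ᶜ : Set {v : ℕ // v ∈ S.map Prod.fst}) :=
        { toFun := fun u => ⟨⟨u.1, ((hmem u.1).1 u.2).1⟩, fun h' =>
            ((hmem u.1).1 u.2).2 (congrArg Subtype.val (Set.mem_singleton_iff.1 h'))⟩
          invFun := fun u => ⟨u.1.1, (hmem _).2 ⟨u.1.2, fun h' => u.2 (by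
            rw [Set.mem_singleton_iff]; exact Subtype.ext h')⟩⟩
          left_inv := fun u => rfl
          right_inv := fun u => rfl }
      have iso : gS E (elim E U S v) ≃g
          (gS E S).induce ({⟨v.1, hvm⟩}ᶜ : Set {v : ℕ // v ∈ S.map Prod.fst}) :=
        { e with
          map_rel_iff' := by
            intro a b
            simp only [SimpleGraph.comap_adj, gS, cG_adj]
            exact Iff.rfl }
      refine ⟨⟨iso.connected_iff.2 hconn, hacyc.embedding iso.toEmbedding⟩, ?_⟩
      have hlen : (elim E U S v).length = ((keys S).erase v.1).card := by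
        rw [← keys_elim, keys, List.toFinset_card_of_nodup (elim_reg h).nodup, List.length_map]
      have hlen2 : (keys S).card = S.length := by
        rw [keys, List.toFinset_card_of_nodup h.nodup, List.length_map]
      rw [hlen, Finset.card_erase_of_mem (mem_keys.2 ⟨v, hv, rfl⟩), hlen2]
      omega
  · have hl : leaf E S = none := by
      by_contra hc
      obtain ⟨v, hl⟩ := Option.ne_none_iff_exists'.1 hc
      obtain ⟨hv, p, hp, hvp, _⟩ := leaf_spec hl
      obtain ⟨a, ha⟩ := List.length_eq_one_iff.1 (by omega : S.length = 1)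
      rw [ha, List.mem_singleton] at hv hp
      rw [hv, hp, adj_self] at hvp
      cases hvp
    unfold lstep
    rw [hl]
    exact ⟨ht, by simp only [Option.elim]; omega⟩

end

end Pool.Agent.NPC.Q224UC
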